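import Mathlib

/-! Laplacian and Green's identity on finite-dimensional inner product spaces
(the first lemmas are copied from `Pool.Agent.Results.MP_1d8377_an.NoStrongMax`). -/

namespace Pool.Agent.X94.Lap

open MeasureTheory Filter Topology Laplacian InnerProductSpace
open scoped ContDiff

section general
variable {E : Type*} [NormedAddCommGroup E] [InnerProductSpace ℝ E] [FiniteDimensional ℝ E]

/-- The Laplacian computed from the second derivative. -/
lemma laplacian_eq_of_hasFDerivAt {f : E → ℝ} {f' : E → E →L[ℝ] ℝ}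
    {f'' : E →L[ℝ] E →L[ℝ] ℝ} {x : E} {ι : Type*} [Fintype ι] (b : OrthonormalBasis ι ℝ E)
    (h : ∀ᶠ y in nhds x, HasFDerivAt f (f' y) y) (h' : HasFDerivAt f' f'' x) :
    Δ f x = ∑ i, f'' (b i) (b i) := by
  rw [laplacian_eq_iteratedFDeriv_orthonormalBasis f b]
  refine Finset.sum_congr rfl fun i _ => ?_
  rw [iteratedFDeriv_two_apply]
  have h1 : fderiv ℝ f =ᶠ[nhds x] f' := by
    filter_upwards [h] with y hy using hy.fderiv
  rw [h1.fderiv_eq, h'.fderiv]
  simp

omit [FiniteDimensional ℝ E] in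
lemma bilin_aux (w e : E) (he : inner ℝ e e = (1 : ℝ)) (α β : ℝ) :
    (α • (2 • (innerSL ℝ : E →L[ℝ] E →L[ℝ] ℝ)) +
      (β • (2 • (innerSL ℝ w))).smulRight ((2 : ℕ) • (innerSL ℝ w))) e e =
      4 * β * (inner ℝ w e) ^ 2 + 2 * α := by
  rw [add_apply, ContinuousLinearMap.smulRight_apply]
  simp [he, -inner_self_eq_norm_sq_to_K]
  ring

/-- Laplacian of a function of `‖x - c‖²`. -/
lemma laplacian_comp_normSq {U U' U'' : ℝ → ℝ} (c x : E)
    (h : ∀ s, HasDerivAt U (U' s) s) (h' : ∀ s, HasDerivAt U' (U'' s) s) :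
    Δ (fun y : E => U (‖y - c‖ ^ 2)) x =
      4 * ‖x - c‖ ^ 2 * U'' (‖x - c‖ ^ 2) +
        2 * (Module.finrank ℝ E : ℝ) * U' (‖x - c‖ ^ 2) := by
  have hn : ∀ y : E, HasFDerivAt (fun y : E => ‖y - c‖ ^ 2) (2 • (innerSL ℝ (y - c))) y :=
    fun y => by
      have h1 := (hasStrictFDerivAt_norm_sq (y - c)).hasFDerivAt
      have h2 := h1.comp y ((hasFDerivAt_id y).sub_const c)
      exact h2
  have h1 : ∀ y, HasFDerivAt (fun y : E => U (‖y - c‖ ^ 2))
      (U' (‖y - c‖ ^ 2) • (2 • (innerSL ℝ (y - c)))) y :=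
    fun y => (h _).comp_hasFDerivAt y (hn y)
  have h2 : HasFDerivAt (fun y : E => U' (‖y - c‖ ^ 2))
      (U'' (‖x - c‖ ^ 2) • (2 • (innerSL ℝ (x - c)))) x :=
    (h' _).comp_hasFDerivAt x (hn x)
  have h3 : HasFDerivAt (fun y : E => (2 : ℕ) • (innerSL ℝ (y - c)))
      (2 • (innerSL ℝ : E →L[ℝ] E →L[ℝ] ℝ)) x := by
    have := (((2 : ℕ) • (innerSL ℝ : E →L[ℝ] E →L[ℝ] ℝ)).hasFDerivAt (x := x - c)).comp x
      ((hasFDerivAt_id x).sub_const c)
    exact this
  have h4 := h2.smul h3
  rw [laplacian_eq_of_hasFDerivAt (stdOrthonormalBasis ℝ E) (Eventually.of_forall h1) h4]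
  have hsum := (stdOrthonormalBasis ℝ E).sum_sq_inner_left (x - c)
  have hterm : ∀ i, (U' (‖x - c‖ ^ 2) • (2 • (innerSL ℝ : E →L[ℝ] E →L[ℝ] ℝ)) +
      (U'' (‖x - c‖ ^ 2) • (2 • (innerSL ℝ (x - c)))).smulRight ((2 : ℕ) • (innerSL ℝ (x - c))))
        ((stdOrthonormalBasis ℝ E) i) ((stdOrthonormalBasis ℝ E) i) =
      4 * U'' (‖x - c‖ ^ 2) * (inner ℝ (x - c) ((stdOrthonormalBasis ℝ E) i)) ^ 2 +
        2 * U' (‖x - c‖ ^ 2) := by
    intro i
    exact bilin_aux _ _ (by rw [real_inner_self_eq_norm_sq]; simp) _ _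
  rw [Finset.sum_congr rfl fun i _ => hterm i, Finset.sum_add_distrib, ← Finset.mul_sum, hsum]
  simp
  ring

lemma laplacian_eq_sum_fderiv {f : E → ℝ} (hf : ContDiff ℝ 2 f) (x : E) :
    Δ f x = ∑ i, fderiv ℝ (fun y => fderiv ℝ f y (stdOrthonormalBasis ℝ E i)) x
      (stdOrthonormalBasis ℝ E i) := by
  rw [laplacian_eq_iteratedFDeriv_stdOrthonormalBasis f]
  refine Finset.sum_congr rfl fun i _ => ?_
  rw [iteratedFDeriv_two_apply]
  have h1 : DifferentiableAt ℝ (fderiv ℝ f) x :=
    (hf.fderiv_right (m := 1) (by norm_num)).differentiable (by norm_num) x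
  rw [fderiv_clm_apply h1 (differentiableAt_const _)]
  simp

omit [FiniteDimensional ℝ E] in
lemma contDiff_dir {f : E → ℝ} (hf : ContDiff ℝ 2 f) (v : E) :
    ContDiff ℝ 1 (fun y => fderiv ℝ f y v) :=
  (hf.fderiv_right (m := 1) (by norm_num)).clm_apply contDiff_const

omit [FiniteDimensional ℝ E] in
lemma hasCompactSupport_dir {f : E → ℝ} (hf : HasCompactSupport f) (v : E) :
    HasCompactSupport (fun y => fderiv ℝ f y v) := by
  have := hf.fderiv (𝕜 := ℝ)
  exact this.comp_left (g := fun L : E →L[ℝ] ℝ => L v) (by simp)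

lemma continuous_laplacian {φ : E → ℝ} (hφ : ContDiff ℝ 2 φ) : Continuous (Δ φ) := by
  have : Δ φ = fun x => ∑ i, fderiv ℝ (fun y => fderiv ℝ φ y (stdOrthonormalBasis ℝ E i)) x
    (stdOrthonormalBasis ℝ E i) := by
    ext x; exact laplacian_eq_sum_fderiv hφ x
  rw [this]
  refine continuous_finsetSum _ fun i _ => ?_
  exact ((contDiff_dir hφ _).continuous_fderiv (by norm_num)).clm_apply continuous_const

lemma laplacian_zero_of_notMem {φ : E → ℝ} (hφ : ContDiff ℝ 2 φ) {x : E} (hx : x ∉ tsupport φ) :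
    Δ φ x = 0 := by
  rw [laplacian_eq_sum_fderiv hφ]
  refine Finset.sum_eq_zero fun i _ => ?_
  have h1 : x ∉ tsupport (fun y => fderiv ℝ φ y (stdOrthonormalBasis ℝ E i)) :=
    fun h => hx (tsupport_fderiv_apply_subset ℝ _ h)
  rw [fderiv_of_notMem_tsupport _ h1]
  rfl

variable [MeasurableSpace E] [BorelSpace E]

/-- Green's identity. -/
lemma green {v φ : E → ℝ} (hv : ContDiff ℝ 2 v) (hφ : ContDiff ℝ 2 φ)
    (hc : HasCompactSupport φ) : ∫ x, v x * Δ φ x = ∫ x, Δ v x * φ x := by
  have key : ∀ e : E, ∫ x, v x * fderiv ℝ (fun y => fderiv ℝ φ y e) x e =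
      ∫ x, fderiv ℝ (fun y => fderiv ℝ v y e) x e * φ x := by
    intro e
    have hv1 := contDiff_dir hv e
    have hφ1 := contDiff_dir hφ e
    have hφc := hasCompactSupport_dir hc e
    have hv2c : Continuous (fun x => fderiv ℝ (fun y => fderiv ℝ v y e) x e) :=
      (hv1.continuous_fderiv (by norm_num)).clm_apply continuous_const
    have hφ2c : Continuous (fun x => fderiv ℝ (fun y => fderiv ℝ φ y e) x e) :=
      (hφ1.continuous_fderiv (by norm_num)).clm_apply continuous_const
    have hφ2s : HasCompactSupport (fun x => fderiv ℝ (fun y => fderiv ℝ φ y e) x e) :=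
      (hφc.fderiv (𝕜 := ℝ)).comp_left (g := fun L : E →L[ℝ] ℝ => L e) (by simp)
    have s1 := integral_mul_fderiv_eq_neg_fderiv_mul_of_integrable (μ := volume) (f := v)
      (g := fun y => fderiv ℝ φ y e) (v := e)
      ((hv1.continuous.mul hφ1.continuous).integrable_of_hasCompactSupport hφc.mul_left)
      ((hv.continuous.mul hφ2c).integrable_of_hasCompactSupport hφ2s.mul_left)
      ((hv.continuous.mul hφ1.continuous).integrable_of_hasCompactSupport hφc.mul_left)
      (fun x _ => hv.differentiable (by norm_num) x)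
      (fun x _ => hφ1.differentiable (by norm_num) x)
    have s2 := integral_mul_fderiv_eq_neg_fderiv_mul_of_integrable (μ := volume)
      (f := fun y => fderiv ℝ v y e) (g := φ) (v := e)
      ((hv2c.mul hφ.continuous).integrable_of_hasCompactSupport hc.mul_left)
      ((hv1.continuous.mul hφ1.continuous).integrable_of_hasCompactSupport hφc.mul_left)
      ((hv1.continuous.mul hφ.continuous).integrable_of_hasCompactSupport hc.mul_left)
      (fun x _ => hv1.differentiable (by norm_num) x)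
      (fun x _ => hφ.differentiable (by norm_num) x)
    rw [s1, s2, neg_neg]
  simp_rw [laplacian_eq_sum_fderiv hv, laplacian_eq_sum_fderiv hφ, Finset.mul_sum, Finset.sum_mul]
  rw [integral_finsetSum, integral_finsetSum]
  · exact Finset.sum_congr rfl fun i _ => key _
  · intro i _
    have hv1 := contDiff_dir hv (stdOrthonormalBasis ℝ E i)
    exact (((hv1.continuous_fderiv (by norm_num)).clm_apply continuous_const).mul
      hφ.continuous).integrable_of_hasCompactSupport hc.mul_left
  · intro i _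
    have hφ1 := contDiff_dir hφ (stdOrthonormalBasis ℝ E i)
    exact (hv.continuous.mul ((hφ1.continuous_fderiv (by norm_num)).clm_apply
      continuous_const)).integrable_of_hasCompactSupport
      (((hasCompactSupport_dir hc _).fderiv (𝕜 := ℝ)).comp_left
        (g := fun L : E →L[ℝ] ℝ => L (stdOrthonormalBasis ℝ E i)) (by simp)).mul_left

end general

section more
variable {E : Type*} [NormedAddCommGroup E] [InnerProductSpace ℝ E] [FiniteDimensional ℝ E]

lemma contDiff_laplacian {φ : E → ℝ} (hφ : ContDiff ℝ ∞ φ) : ContDiff ℝ ∞ (Δ φ) := by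
  have : Δ φ = fun x => ∑ i, fderiv ℝ (fun y => fderiv ℝ φ y (stdOrthonormalBasis ℝ E i)) x
    (stdOrthonormalBasis ℝ E i) := by
    ext x; exact laplacian_eq_sum_fderiv (hφ.of_le (WithTop.coe_le_coe.mpr le_top)) x
  rw [this]
  refine ContDiff.sum fun i _ => ?_
  have h1 : ContDiff ℝ ∞ (fun y => fderiv ℝ φ y (stdOrthonormalBasis ℝ E i)) :=
    (hφ.fderiv_right (m := ∞) (by simp)).clm_apply contDiff_const
  exact (h1.fderiv_right (m := ∞) (by simp)).clm_apply contDiff_const

lemma hasCompactSupport_laplacian {φ : E → ℝ} (hφ : ContDiff ℝ 2 φ) (hc : HasCompactSupport φ) :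
    HasCompactSupport (Δ φ) := by
  refine hc.mono' ?_
  intro x hx
  by_contra h
  exact hx (laplacian_zero_of_notMem hφ h)

end more

section poly
open MvPolynomial
variable {n : ℕ}

/-- the Laplacian of a polynomial -/
noncomputable def lap (p : MvPolynomial (Fin n) ℝ) : MvPolynomial (Fin n) ℝ :=
  ∑ i, pderiv i (pderiv i p)

/-- evaluation of a polynomial as a function on Euclidean space -/
noncomputable def ev (p : MvPolynomial (Fin n) ℝ) (x : EuclideanSpace ℝ (Fin n)) : ℝ := eval (fun i => x i) p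

theorem contDiff_ev (p : MvPolynomial (Fin n) ℝ) : ContDiff ℝ ∞ (ev p) := by
  induction p using MvPolynomial.induction_on with
  | C a =>
    have : ev (C a : MvPolynomial (Fin n) ℝ) = fun _ => a := by funext x; simp [ev]
    rw [this]
    exact contDiff_const
  | add p q hp hq =>
    have : ev (p + q) = fun x => ev p x + ev q x := by funext x; simp [ev]
    rw [this]
    exact hp.add hq
  | mul_X p i hp =>
    have : ev (p * X i) = fun x => ev p x * x i := by funext x; simp [ev]
    rw [this]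
    refine hp.mul ?_
    exact (EuclideanSpace.proj i : EuclideanSpace ℝ (Fin n) →L[ℝ] ℝ).contDiff

theorem fderiv_ev (p : MvPolynomial (Fin n) ℝ) (x : EuclideanSpace ℝ (Fin n)) (j : Fin n) :
    fderiv ℝ (ev p) x (EuclideanSpace.single j 1) = ev (pderiv j p) x := by
  induction p using MvPolynomial.induction_on with
  | C a =>
    have : ev (C a : MvPolynomial (Fin n) ℝ) = fun _ => a := by funext x; simp [ev]
    rw [this]
    simp [ev]
  | add p q hp hq =>
    have h1 : ev (p + q) = fun x => ev p x + ev q x := by funext x; simp [ev]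
    have h2 : DifferentiableAt ℝ (ev p) x := (contDiff_ev p).contDiffAt.differentiableAt (by simp)
    have h3 : DifferentiableAt ℝ (ev q) x := (contDiff_ev q).contDiffAt.differentiableAt (by simp)
    rw [h1, fderiv_fun_add h2 h3, add_apply, hp, hq]
    simp [ev]
  | mul_X p i hp =>
    have h1 : ev (p * X i) = fun x => ev p x * (EuclideanSpace.proj i : EuclideanSpace ℝ (Fin n) →L[ℝ] ℝ) x := by
      funext x; simp [ev]
    have h2 : DifferentiableAt ℝ (ev p) x := (contDiff_ev p).contDiffAt.differentiableAt (by simp)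
    have h3 : DifferentiableAt ℝ (fun x => (EuclideanSpace.proj i : EuclideanSpace ℝ (Fin n) →L[ℝ] ℝ) x) x :=
      (EuclideanSpace.proj i : EuclideanSpace ℝ (Fin n) →L[ℝ] ℝ).differentiableAt
    rw [h1, fderiv_fun_mul h2 h3]
    simp only [ContinuousLinearMap.fderiv, add_apply, smul_apply, hp, smul_eq_mul]
    rw [pderiv_mul, pderiv_X]
    by_cases hij : i = j
    · subst hij
      simp [ev]
      ring
    · simp [ev, hij]
      ring

theorem laplacian_ev (p : MvPolynomial (Fin n) ℝ) (x : EuclideanSpace ℝ (Fin n)) : Δ (ev p) x = ev (lap p) x := by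
  rw [InnerProductSpace.laplacian_eq_iteratedFDeriv_orthonormalBasis _ (EuclideanSpace.basisFun (Fin n) ℝ)]
  simp only [lap]
  have h0 : ev (∑ i, pderiv i (pderiv i p)) x = ∑ i, ev (pderiv i (pderiv i p)) x := by
    simp [ev]
  rw [h0]
  refine Finset.sum_congr rfl fun i _ => ?_
  rw [iteratedFDeriv_two_apply]
  simp only [Matrix.cons_val_zero, Matrix.cons_val_one, Matrix.cons_val_fin_one,
    EuclideanSpace.basisFun_apply]
  rw [← fderiv_ev]
  have h1 : ev (pderiv i p) = fun y => fderiv ℝ (ev p) y (EuclideanSpace.single i 1) := by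
    funext y
    rw [fderiv_ev]
  have h2 : DifferentiableAt ℝ (fderiv ℝ (ev p)) x :=
    ((contDiff_ev p).contDiffAt.fderiv_right (m := 1) (by norm_cast)).differentiableAt one_ne_zero
  rw [h1]
  have h3 := h2.hasFDerivAt.clm_apply
    (hasFDerivAt_const (EuclideanSpace.single i (1 : ℝ) : EuclideanSpace ℝ (Fin n)) x)
  rw [h3.fderiv]
  simp

end poly

end Pool.Agent.X94.Lap
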