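import Mathlib

/-!
Algebra behind the mixed face (MP_982b0b_ag): the parametrisation `(u,v,w) ↦ (w³,uvw,u³,v³)` of the
cubic surface `a c d = b³`, the Motzkin form and the conic `u²+v²+w²=0`.
-/

namespace Pool.Agent.X94.Stub

open MvPolynomial

noncomputable section

/-- The coordinates of `ℝ^64` are indexed by triples of indices in `Fin 4`. -/
def idx : (Fin 4 × Fin 4 × Fin 4) ≃ Fin 64 := Fintype.equivFinOfCardEq (by simp)

/-- The parametrisation `(u,v,w) ↦ (w³, u v w, u³, v³)` of the surface `a c d = b³`. -/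
def th {A : Type} [CommRing A] (x : Fin 3 → A) : Fin 4 → A :=
  ![x 2 ^ 3, x 0 * x 1 * x 2, x 0 ^ 3, x 1 ^ 3]

/-- The third Veronese map: all products of three coordinates. -/
def nu {A : Type} [CommRing A] (θ : Fin 4 → A) : Fin 64 → A :=
  fun t => θ (idx.symm t).1 * θ (idx.symm t).2.1 * θ (idx.symm t).2.2

/-- Value of a polynomial in the 64 coordinates at the point with parameters `x`. -/
def Ev {A : Type} [CommRing A] [Algebra ℝ A] (x : Fin 3 → A) (p : MvPolynomial (Fin 64) ℝ) : A :=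
  aeval (nu (th x)) p

lemma map_th {A B : Type} [CommRing A] [CommRing B] (φ : A →+* B) (x : Fin 3 → A) (i : Fin 4) :
    φ (th x i) = th (fun j => φ (x j)) i := by
  fin_cases i <;> simp [th]

lemma map_nu {A B : Type} [CommRing A] [CommRing B] (φ : A →+* B) (x : Fin 3 → A) (t : Fin 64) :
    φ (nu (th x) t) = nu (th (fun j => φ (x j))) t := by
  simp only [nu, map_mul, map_th]

lemma map_Ev {A B : Type} [CommRing A] [CommRing B] [Algebra ℝ A] [Algebra ℝ B]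
    (φ : A →ₐ[ℝ] B) (x : Fin 3 → A) (p : MvPolynomial (Fin 64) ℝ) :
    φ (Ev x p) = Ev (fun j => φ (x j)) p := by
  unfold Ev
  have h := DFunLike.congr_fun (MvPolynomial.comp_aeval (R := ℝ) (nu (th x)) φ) p
  rw [AlgHom.comp_apply] at h
  rw [h]
  congr 2
  funext t
  exact map_nu (φ : A →+* B) x t

lemma aeval_smul_hom {A : Type} [CommRing A] [Algebra ℝ A] {m : ℕ}
    {p : MvPolynomial (Fin 64) ℝ} (hp : p.IsHomogeneous m) (c : A) (f : Fin 64 → A) :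
    aeval (fun t => c * f t) p = c ^ m * aeval f p := by
  rw [aeval_def, aeval_def, eval₂_eq', eval₂_eq', Finset.mul_sum]
  refine Finset.sum_congr rfl fun d hd => ?_
  have hdeg : ∑ i, d i = m := by
    have h1 := hp (mem_support_iff.mp hd)
    rw [← h1, Finsupp.weight_apply, Finsupp.sum_fintype _ _ (by simp)]
    simp
  have : (∏ i, (c * f i) ^ d i) = c ^ m * ∏ i, f i ^ d i := by
    rw [← hdeg, ← Finset.prod_pow_eq_pow_sum, ← Finset.prod_mul_distrib]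
    exact Finset.prod_congr rfl fun i _ => mul_pow _ _ _
  rw [this]; ring

lemma th_smul {A : Type} [CommRing A] (c : A) (x : Fin 3 → A) (i : Fin 4) :
    th (fun j => c * x j) i = c ^ 3 * th x i := by
  fin_cases i <;> simp [th] <;> ring

lemma nu_smul {A : Type} [CommRing A] (c : A) (x : Fin 3 → A) (t : Fin 64) :
    nu (th (fun j => c * x j)) t = c ^ 9 * nu (th x) t := by
  simp only [nu, th_smul]; ring

lemma Ev_smul {A : Type} [CommRing A] [Algebra ℝ A] {m : ℕ}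
    {p : MvPolynomial (Fin 64) ℝ} (hp : p.IsHomogeneous m) (c : A) (x : Fin 3 → A) :
    Ev (fun j => c * x j) p = c ^ (9 * m) * Ev x p := by
  unfold Ev
  have : nu (th (fun j => c * x j)) = fun t => c ^ 9 * nu (th x) t := by
    funext t; exact nu_smul c x t
  rw [this, aeval_smul_hom hp, pow_mul]

/-- The Motzkin form `a²+c²+d²-3b²` in the parameters. -/
def Cc {A : Type} [CommRing A] (x : Fin 3 → A) : A :=
  x 0 ^ 6 + x 1 ^ 6 + x 2 ^ 6 - 3 * (x 0 * x 1 * x 2) ^ 2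

/-- `c+d-a-b` -/
def A1 {A : Type} [CommRing A] (x : Fin 3 → A) : A :=
  x 0 ^ 3 + x 1 ^ 3 - x 2 ^ 3 - x 0 * x 1 * x 2
/-- `a+d-b-c` -/
def A2 {A : Type} [CommRing A] (x : Fin 3 → A) : A :=
  x 2 ^ 3 + x 1 ^ 3 - x 0 * x 1 * x 2 - x 0 ^ 3
/-- `a+c-b-d` -/
def A3 {A : Type} [CommRing A] (x : Fin 3 → A) : A :=
  x 2 ^ 3 + x 0 ^ 3 - x 0 * x 1 * x 2 - x 1 ^ 3

/-- `C² (A₁²+A₂²+A₃²)` -/
def BB {A : Type} [CommRing A] (x : Fin 3 → A) : A :=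
  Cc x ^ 2 * (A1 x ^ 2 + A2 x ^ 2 + A3 x ^ 2)

lemma map_BB {A B : Type} [CommRing A] [CommRing B] (φ : A →+* B) (x : Fin 3 → A) :
    φ (BB x) = BB (fun j => φ (x j)) := by
  have h3 : φ 3 = 3 := map_ofNat φ 3
  simp [BB, Cc, A1, A2, A3, h3]

lemma ineq_aux (C p q r : ℝ) (hC0 : 0 ≤ C)
    (hid : C * (((q - p) / 2) ^ 2 + ((r - q) / 2) ^ 2 + ((p - r) / 2) ^ 2) = C ^ 2
      + ((q + r) / 2) ^ 2 * p ^ 2 + ((p + r) / 2) ^ 2 * q ^ 2 + ((p + q) / 2) ^ 2 * r ^ 2) :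
    (p * q * r) ^ 2 ≤ 3 * (C ^ 2 * (p ^ 2 + q ^ 2 + r ^ 2)) := by
  obtain ⟨S, hS⟩ : ∃ S, S = p ^ 2 + q ^ 2 + r ^ 2 := ⟨_, rfl⟩
  have hS0 : 0 ≤ S := by rw [hS]; positivity
  obtain ⟨T, hT⟩ : ∃ T, T = p ^ 2 * q ^ 2 + q ^ 2 * r ^ 2 + r ^ 2 * p ^ 2 := ⟨_, rfl⟩
  have hT0 : 0 ≤ T := by rw [hT]; positivity
  have hstep : T ≤ 3 * (C * S) := by
    have e1 : ((q - p) / 2) ^ 2 + ((r - q) / 2) ^ 2 + ((p - r) / 2) ^ 2 ≤ 3 / 4 * S := by
      rw [hS]; nlinarith [sq_nonneg (p + q + r)]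
    have e2 := mul_le_mul_of_nonneg_left e1 hC0
    rw [hid] at e2
    have e3 : 1 / 4 * T ≤ ((q + r) / 2) ^ 2 * p ^ 2 + ((p + r) / 2) ^ 2 * q ^ 2
        + ((p + q) / 2) ^ 2 * r ^ 2 := by
      rw [hT]; nlinarith [sq_nonneg (p * q + q * r + r * p)]
    nlinarith [sq_nonneg C]
  have hsq : T ^ 2 ≤ (3 * (C * S)) ^ 2 := pow_le_pow_left₀ hT0 hstep 2
  have h3p : 3 * ((p * q * r) ^ 2 * S) ≤ T ^ 2 := by
    have e : T ^ 2 - 3 * ((p * q * r) ^ 2 * S) = ((p ^ 2 * q ^ 2 - q ^ 2 * r ^ 2) ^ 2 +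
        (q ^ 2 * r ^ 2 - r ^ 2 * p ^ 2) ^ 2 + (r ^ 2 * p ^ 2 - p ^ 2 * q ^ 2) ^ 2) / 2 := by
      rw [hT, hS]; ring
    have : 0 ≤ T ^ 2 - 3 * ((p * q * r) ^ 2 * S) := by rw [e]; positivity
    linarith
  have hfin : (p * q * r) ^ 2 * S ≤ 3 * (C ^ 2 * S) * S := by
    have h9 : (3 * (C * S)) ^ 2 = 3 * (3 * (C ^ 2 * S) * S) := by ring
    linarith
  rw [← hS]
  rcases hS0.eq_or_lt with h | h
  · have hp0 : p = 0 := by
      have : p ^ 2 = 0 := by nlinarith [sq_nonneg p, sq_nonneg q, sq_nonneg r]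
      exact pow_eq_zero_iff (two_ne_zero) |>.mp this
    rw [hp0, ← h]; simp
  · exact le_of_mul_le_mul_right hfin h

lemma motzkin_id (a b c d : ℝ) (hrel : a * c * d = b ^ 3) :
    (a ^ 2 + c ^ 2 + d ^ 2 - 3 * b ^ 2) * ((a - c) ^ 2 + (c - d) ^ 2 + (d - a) ^ 2)
      = (a ^ 2 + c ^ 2 + d ^ 2 - 3 * b ^ 2) ^ 2 + (a - b) ^ 2 * (c + d - a - b) ^ 2
        + (c - b) ^ 2 * (a + d - b - c) ^ 2 + (d - b) ^ 2 * (a + c - b - d) ^ 2 := by
  linear_combination (-4 * (a + c + d - 3 * b)) * hrel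

/-- The key inequality. -/
lemma key_ineq (x : Fin 3 → ℝ) : (A1 x * A2 x * A3 x) ^ 2 ≤ 3 * BB x := by
  have hC0 : 0 ≤ Cc x := by
    have h : Cc x = (x 0 ^ 2 + x 1 ^ 2 + x 2 ^ 2) *
        (((x 0 ^ 2 - x 1 ^ 2) ^ 2 + (x 1 ^ 2 - x 2 ^ 2) ^ 2 + (x 2 ^ 2 - x 0 ^ 2) ^ 2) / 2) := by
      unfold Cc; ring
    rw [h]; positivity
  have h := motzkin_id (x 2 ^ 3) (x 0 * x 1 * x 2) (x 0 ^ 3) (x 1 ^ 3) (by ring)
  have hC : (x 2 ^ 3) ^ 2 + (x 0 ^ 3) ^ 2 + (x 1 ^ 3) ^ 2 - 3 * (x 0 * x 1 * x 2) ^ 2 = Cc x := by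
    unfold Cc; ring
  rw [hC] at h
  have hid := ineq_aux (Cc x) (A1 x) (A2 x) (A3 x) hC0 (by
    have e1 : ((A2 x - A1 x) / 2) = x 2 ^ 3 - x 0 ^ 3 := by unfold A1 A2; ring
    have e2 : ((A3 x - A2 x) / 2) = x 0 ^ 3 - x 1 ^ 3 := by unfold A3 A2; ring
    have e3 : ((A1 x - A3 x) / 2) = x 1 ^ 3 - x 2 ^ 3 := by unfold A1 A3; ring
    have e4 : ((A2 x + A3 x) / 2) = x 2 ^ 3 - x 0 * x 1 * x 2 := by unfold A2 A3; ring
    have e5 : ((A1 x + A3 x) / 2) = x 0 ^ 3 - x 0 * x 1 * x 2 := by unfold A1 A3; ring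
    have e6 : ((A1 x + A2 x) / 2) = x 1 ^ 3 - x 0 * x 1 * x 2 := by unfold A1 A2; ring
    have f1 : A1 x = x 0 ^ 3 + x 1 ^ 3 - x 2 ^ 3 - x 0 * x 1 * x 2 := rfl
    have f2 : A2 x = x 2 ^ 3 + x 1 ^ 3 - x 0 * x 1 * x 2 - x 0 ^ 3 := rfl
    have f3 : A3 x = x 2 ^ 3 + x 0 ^ 3 - x 0 * x 1 * x 2 - x 1 ^ 3 := rfl
    rw [e1, e2, e3, e4, e5, e6, h, f1, f2, f3])
  exact hid

lemma BB_nonneg (x : Fin 3 → ℝ) : 0 ≤ BB x := by unfold BB; positivity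

/-! ### A real one-variable lemma -/

lemma dvd_of_sq_le {φ b : Polynomial ℝ} {N : ℕ}
    (h : ∀ r : ℝ, (φ.eval r) ^ 2 ≤ r ^ (2 * N) * b.eval r) : Polynomial.X ^ N ∣ φ := by
  by_cases hφ : φ = 0
  · rw [hφ]; exact dvd_zero _
  obtain ⟨ψ, hψ, hnd⟩ := Polynomial.exists_eq_pow_rootMultiplicity_mul_and_not_dvd φ hφ 0
  rw [Polynomial.C_0, sub_zero] at hψ hnd
  set m := φ.rootMultiplicity 0
  by_cases hm : N ≤ m
  · rw [hψ]; exact (pow_dvd_pow _ hm).mul_right _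
  exfalso
  push Not at hm
  have hψ0 : ψ.eval 0 ≠ 0 := by
    intro h0
    exact hnd (Polynomial.X_dvd_iff.mpr (by rw [Polynomial.coeff_zero_eq_eval_zero]; exact h0))
  obtain ⟨k, hk⟩ : ∃ k, N = m + 1 + k := ⟨N - m - 1, by omega⟩
  have hle : ∀ r : ℝ, r ≠ 0 → (ψ.eval r) ^ 2 ≤ r ^ (2 * (k + 1)) * b.eval r := by
    intro r hr
    have h1 := h r
    rw [hψ, Polynomial.eval_mul, Polynomial.eval_pow, Polynomial.eval_X] at h1
    have hpos : 0 < r ^ (2 * m) := by rw [pow_mul]; positivity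
    refine le_of_mul_le_mul_left ?_ hpos
    calc r ^ (2 * m) * (ψ.eval r) ^ 2 = (r ^ m * ψ.eval r) ^ 2 := by ring
      _ ≤ r ^ (2 * N) * b.eval r := h1
      _ = r ^ (2 * m) * (r ^ (2 * (k + 1)) * b.eval r) := by rw [hk]; ring
  have hc1 : Filter.Tendsto (fun r : ℝ => (ψ.eval r) ^ 2) (nhdsWithin 0 {0}ᶜ)
      (nhds ((ψ.eval 0) ^ 2)) :=
    ((ψ.continuous.pow 2).tendsto 0).mono_left nhdsWithin_le_nhds
  have hc2 : Filter.Tendsto (fun r : ℝ => r ^ (2 * (k + 1)) * b.eval r) (nhdsWithin 0 {0}ᶜ)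
      (nhds ((0 : ℝ) ^ (2 * (k + 1)) * b.eval 0)) :=
    (((continuous_pow (2 * (k + 1))).mul b.continuous).tendsto 0).mono_left nhdsWithin_le_nhds
  have hle' := le_of_tendsto_of_tendsto hc1 hc2
    (Filter.eventually_of_mem self_mem_nhdsWithin fun r hr => hle r hr)
  rw [zero_pow (by omega), zero_mul] at hle'
  have : 0 < (ψ.eval 0) ^ 2 := by positivity
  linarith

end

end Pool.Agent.X94.Stub
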