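import Mathlib
import Pool.Agent.X94.StubA

/-!
Rigidity along the conic `u²+v²+w²=0` (MP_982b0b_ag).
-/

namespace Pool.Agent.X94.Stub

open MvPolynomial

noncomputable section

lemma dvd_transfer {m N1 : ℕ} {p : MvPolynomial (Fin 64) ℝ} {c : ℝ}
    (hle : ∀ q : Fin 3 → ℝ, (Ev q p) ^ 2 ≤ c * (BB q) ^ m) (q0 : Fin 3 → ℝ)
    (hB : ∀ y : Fin 3 → ℝ, (Polynomial.X : Polynomial ℝ) ^ (2 * N1) ∣
      BB (fun j => Polynomial.C (q0 j) + Polynomial.X * Polynomial.C (y j)))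
    (s : Polynomial ℂ) (Y : Fin 3 → Polynomial ℂ) :
    s ^ (N1 * m) ∣ Ev (fun j => algebraMap ℝ (Polynomial ℂ) (q0 j) + s * Y j) p := by
  set Ψ : Polynomial (MvPolynomial (Fin 3) ℝ) :=
    Ev (fun j => Polynomial.C (C (q0 j)) + Polynomial.X * Polynomial.C (X j)) p with hΨ
  have hmap : ∀ y : Fin 3 → ℝ, Polynomial.mapAlgHom (aeval y : MvPolynomial (Fin 3) ℝ →ₐ[ℝ] ℝ) Ψ
      = Ev (fun j => Polynomial.C (q0 j) + Polynomial.X * Polynomial.C (y j)) p := by
    intro y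
    rw [hΨ, map_Ev]
    congr 1
    funext j
    simp
  have hdvd : ∀ y : Fin 3 → ℝ, (Polynomial.X : Polynomial ℝ) ^ (N1 * m) ∣
      Ev (fun j => Polynomial.C (q0 j) + Polynomial.X * Polynomial.C (y j)) p := by
    intro y
    obtain ⟨b, hb⟩ := hB y
    refine dvd_of_sq_le (b := Polynomial.C c * b ^ m) fun r => ?_
    have e1 : (Ev (fun j => Polynomial.C (q0 j) + Polynomial.X * Polynomial.C (y j)) p).eval r
        = Ev (fun j => q0 j + r * y j) p := by
      have h := map_Ev (Polynomial.aeval (R := ℝ) r)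
        (fun j => Polynomial.C (q0 j) + Polynomial.X * Polynomial.C (y j)) p
      rw [Polynomial.coe_aeval_eq_eval] at h
      rw [h]
      congr 1
      funext j
      simp only [Polynomial.eval_add, Polynomial.eval_C, Polynomial.eval_mul, Polynomial.eval_X]
    have e2 : BB (fun j => q0 j + r * y j) = r ^ (2 * N1) * b.eval r := by
      have h := map_BB (Polynomial.evalRingHom r)
        (fun j => Polynomial.C (q0 j) + Polynomial.X * Polynomial.C (y j))
      rw [hb] at h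
      simp only [Polynomial.coe_evalRingHom, Polynomial.eval_mul, Polynomial.eval_pow,
        Polynomial.eval_X, Polynomial.eval_add, Polynomial.eval_C] at h
      exact h.symm
    rw [e1]
    refine (hle _).trans (le_of_eq ?_)
    rw [e2, Polynomial.eval_mul, Polynomial.eval_C, Polynomial.eval_pow, mul_pow, ← pow_mul]
    ring
  have hΨd : (Polynomial.X : Polynomial (MvPolynomial (Fin 3) ℝ)) ^ (N1 * m) ∣ Ψ := by
    rw [Polynomial.X_pow_dvd_iff]
    intro d hd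
    apply MvPolynomial.funext
    intro y
    have h1 := (Polynomial.X_pow_dvd_iff.mp (hdvd y)) d hd
    rw [← hmap y] at h1
    rw [map_zero]
    rw [← h1]
    simp [Polynomial.coeff_map]
  let Θ : Polynomial (MvPolynomial (Fin 3) ℝ) →ₐ[ℝ] Polynomial ℂ :=
    Polynomial.eval₂AlgHom (aeval Y : MvPolynomial (Fin 3) ℝ →ₐ[ℝ] Polynomial ℂ) s
      (fun a => Commute.all _ _)
  have h2 := map_dvd Θ hΨd
  rw [map_pow, hΨ, map_Ev] at h2
  have hX : Θ Polynomial.X = s := Polynomial.eval₂_X _ _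
  have hΘC : ∀ a, Θ (Polynomial.C a) = aeval Y a := fun a => Polynomial.eval₂_C _ _
  rw [hX] at h2
  convert h2 using 2
  funext j
  rw [map_add, map_mul, hX, hΘC, hΘC, aeval_X, aeval_C]

lemma dvd_BB4 (q0 y : Fin 3 → ℝ) (h : ∀ i, q0 i ^ 2 = 1) :
    (Polynomial.X : Polynomial ℝ) ^ (2 * 2) ∣
      BB (fun j => Polynomial.C (q0 j) + Polynomial.X * Polynomial.C (y j)) := by
  set z : Fin 3 → Polynomial ℝ := fun j => Polynomial.C (q0 j) + Polynomial.X * Polynomial.C (y j)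
    with hz
  have hd : ∀ i j, (Polynomial.X : Polynomial ℝ) ∣ z i ^ 2 - z j ^ 2 := by
    intro i j
    rw [Polynomial.X_dvd_iff, Polynomial.coeff_zero_eq_eval_zero]
    simp [hz, h]
  have hC : (Polynomial.X : Polynomial ℝ) ^ 2 ∣ Cc z := by
    have h1 : Cc z = Polynomial.C (1 / 2) * (z 0 ^ 2 + z 1 ^ 2 + z 2 ^ 2) *
        ((z 0 ^ 2 - z 1 ^ 2) ^ 2 + (z 1 ^ 2 - z 2 ^ 2) ^ 2 + (z 2 ^ 2 - z 0 ^ 2) ^ 2) := by
      have hhalf : (Polynomial.C (1 / 2 : ℝ)) * 2 = 1 := by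
        rw [← map_ofNat Polynomial.C 2, ← Polynomial.C_mul]; norm_num
      unfold Cc
      linear_combination (-(z 0 ^ 6 + z 1 ^ 6 + z 2 ^ 6 - 3 * (z 0 * z 1 * z 2) ^ 2)) * hhalf
    rw [h1]
    refine Dvd.dvd.mul_left ?_ _
    exact dvd_add (dvd_add (pow_dvd_pow_of_dvd (hd 0 1) 2) (pow_dvd_pow_of_dvd (hd 1 2) 2))
      (pow_dvd_pow_of_dvd (hd 2 0) 2)
  unfold BB
  refine Dvd.dvd.mul_right ?_ _
  rw [pow_mul]
  exact pow_dvd_pow_of_dvd hC 2

lemma dvd_BB6 (q0 y : Fin 3 → ℝ) (h : ∀ i, q0 i = 1) :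
    (Polynomial.X : Polynomial ℝ) ^ (2 * 3) ∣
      BB (fun j => Polynomial.C (q0 j) + Polynomial.X * Polynomial.C (y j)) := by
  set z : Fin 3 → Polynomial ℝ := fun j => Polynomial.C (q0 j) + Polynomial.X * Polynomial.C (y j)
    with hz
  have hd : ∀ i j, (Polynomial.X : Polynomial ℝ) ∣ z i ^ 2 - z j ^ 2 := by
    intro i j
    rw [Polynomial.X_dvd_iff, Polynomial.coeff_zero_eq_eval_zero]
    simp [hz, h]
  have hC : (Polynomial.X : Polynomial ℝ) ^ 2 ∣ Cc z := by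
    have h1 : Cc z = Polynomial.C (1 / 2) * (z 0 ^ 2 + z 1 ^ 2 + z 2 ^ 2) *
        ((z 0 ^ 2 - z 1 ^ 2) ^ 2 + (z 1 ^ 2 - z 2 ^ 2) ^ 2 + (z 2 ^ 2 - z 0 ^ 2) ^ 2) := by
      have hhalf : (Polynomial.C (1 / 2 : ℝ)) * 2 = 1 := by
        rw [← map_ofNat Polynomial.C 2, ← Polynomial.C_mul]; norm_num
      unfold Cc
      linear_combination (-(z 0 ^ 6 + z 1 ^ 6 + z 2 ^ 6 - 3 * (z 0 * z 1 * z 2) ^ 2)) * hhalf
    rw [h1]
    refine Dvd.dvd.mul_left ?_ _
    exact dvd_add (dvd_add (pow_dvd_pow_of_dvd (hd 0 1) 2) (pow_dvd_pow_of_dvd (hd 1 2) 2))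
      (pow_dvd_pow_of_dvd (hd 2 0) 2)
  have hA1 : (Polynomial.X : Polynomial ℝ) ∣ A1 z := by
    rw [Polynomial.X_dvd_iff, Polynomial.coeff_zero_eq_eval_zero]
    simp [A1, hz, h]
  have hA2 : (Polynomial.X : Polynomial ℝ) ∣ A2 z := by
    rw [Polynomial.X_dvd_iff, Polynomial.coeff_zero_eq_eval_zero]
    simp [A2, hz, h]
  have hA3 : (Polynomial.X : Polynomial ℝ) ∣ A3 z := by
    rw [Polynomial.X_dvd_iff, Polynomial.coeff_zero_eq_eval_zero]
    simp [A3, hz, h]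
  unfold BB
  have e : (Polynomial.X : Polynomial ℝ) ^ (2 * 3) = (Polynomial.X ^ 2) ^ 2 * Polynomial.X ^ 2 := by
    ring
  rw [e]
  exact mul_dvd_mul (pow_dvd_pow_of_dvd hC 2)
    (dvd_add (dvd_add (pow_dvd_pow_of_dvd hA1 2) (pow_dvd_pow_of_dvd hA2 2))
      (pow_dvd_pow_of_dvd hA3 2))

/-- Parametrisation of the conic `u²+v²+w²=0`. -/
def PP : Fin 3 → Polynomial ℂ :=
  ![1 - Polynomial.X ^ 2, Polynomial.C Complex.I * (1 + Polynomial.X ^ 2), 2 * Polynomial.X]

section point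

variable (e f : ℝ) (o : ℂ)

def del : ℂ := 1 - Complex.I * e * o
def tau : ℂ := f * o ^ 2 / del e o

variable {e f o}

lemma del_ne (he : e ^ 2 = 1) (ho : o ^ 2 + o + 1 = 0) : del e o ≠ 0 := by
  intro h
  have hec : (e : ℂ) ^ 2 = 1 := by exact_mod_cast he
  have h1 : Complex.I * e * o = 1 := by unfold del at h; linear_combination -h
  have ho3 : o ^ 3 = 1 := by linear_combination (o - 1) * ho
  have h2 : (Complex.I * e * o) ^ 6 = 1 := by rw [h1]; ring
  have h3 : (Complex.I * e * o) ^ 6 = -1 := by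
    have hI : Complex.I ^ 6 = -1 := by
      rw [show Complex.I ^ 6 = (Complex.I ^ 2) ^ 3 by ring, Complex.I_sq]; norm_num
    calc (Complex.I * e * o) ^ 6 = Complex.I ^ 6 * ((e : ℂ) ^ 2) ^ 3 * (o ^ 3) ^ 2 := by ring
      _ = -1 := by rw [hI, hec, ho3]; ring
  rw [h2] at h3
  norm_num at h3

lemma point_val (he : e ^ 2 = 1) (hf : f ^ 2 = 1) (ho : o ^ 2 + o + 1 = 0) :
    (1 - (tau e f o) ^ 2) * del e o = 2 ∧
    Complex.I * (1 + (tau e f o) ^ 2) * del e o = 2 * (e * o) ∧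
    2 * (tau e f o) * del e o = 2 * (f * o ^ 2) := by
  have hd := del_ne he ho
  have hec : (e : ℂ) ^ 2 = 1 := by exact_mod_cast he
  have hfc : (f : ℂ) ^ 2 = 1 := by exact_mod_cast hf
  have ho3 : o ^ 3 = 1 := by linear_combination (o - 1) * ho
  have hdd : del e o ^ 2 = 2 * del e o + o := by
    unfold del
    linear_combination (o ^ 2 * (e:ℂ) ^ 2) * Complex.I_sq - o ^ 2 * hec - ho
  have ht : tau e f o * del e o = f * o ^ 2 := by
    unfold tau; exact div_mul_cancel₀ _ hd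
  have ht2 : (tau e f o) ^ 2 * del e o ^ 2 = o := by
    rw [← mul_pow, ht]
    linear_combination o ^ 4 * hfc + o * ho3
  refine ⟨?_, ?_, ?_⟩
  · apply mul_right_cancel₀ hd
    linear_combination hdd - ht2
  · apply mul_right_cancel₀ hd
    have h1 : Complex.I * (1 + (tau e f o) ^ 2) * del e o * del e o
        = Complex.I * (2 * del e o + 2 * o) := by
      linear_combination Complex.I * hdd + Complex.I * ht2
    rw [h1]
    unfold del
    linear_combination (-2 * (e:ℂ) * o) * Complex.I_sq + 2 * Complex.I * o ^ 2 * hec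
      + 2 * Complex.I * ho
  · linear_combination 2 * ht

/-- The real point `(1, e, f)`. -/
def qpt (e f : ℝ) : Fin 3 → ℝ := ![1, e, f]

lemma point_dvd {m N1 : ℕ} {p : MvPolynomial (Fin 64) ℝ} {c : ℝ} (hp : p.IsHomogeneous m)
    (hle : ∀ q : Fin 3 → ℝ, (Ev q p) ^ 2 ≤ c * (BB q) ^ m)
    (he : e ^ 2 = 1) (hf : f ^ 2 = 1) (ho : o ^ 2 + o + 1 = 0)
    (hB : ∀ y : Fin 3 → ℝ, (Polynomial.X : Polynomial ℝ) ^ (2 * N1) ∣
      BB (fun j => Polynomial.C (qpt e f j) + Polynomial.X * Polynomial.C (y j))) :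
    (Polynomial.X - Polynomial.C (tau e f o)) ^ (N1 * m) ∣ Ev PP p := by
  obtain ⟨v1, v2, v3⟩ := point_val he hf ho
  have hd := del_ne he ho
  have ho3 : o ^ 3 = 1 := by linear_combination (o - 1) * ho
  set κ : Fin 3 → ℂ := ![del e o / 2, del e o / 2 * o ^ 2, del e o / 2 * o] with hκ
  set K : Fin 3 → Polynomial ℂ := fun j => Polynomial.C (κ j) * PP j with hK
  have hroot : ∀ j, (Polynomial.X - Polynomial.C (tau e f o)) ∣
      K j - algebraMap ℝ (Polynomial ℂ) (qpt e f j) := by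
    intro j
    rw [Polynomial.dvd_iff_isRoot, Polynomial.IsRoot.def]
    have ho4 : o ^ 4 = o := by linear_combination o * ho3
    fin_cases j
    · simp [hK, hκ, PP, qpt, Polynomial.algebraMap_apply]
      linear_combination (1 / 2 : ℂ) * v1
    · simp [hK, hκ, PP, qpt, Polynomial.algebraMap_apply]
      linear_combination (o ^ 2 / 2 : ℂ) * v2 + e * ho3
    · simp [hK, hκ, PP, qpt, Polynomial.algebraMap_apply]
      linear_combination (o / 2 : ℂ) * v3 + f * ho3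
  choose Y hY using hroot
  have hK' : K = fun j => algebraMap ℝ (Polynomial ℂ) (qpt e f j) +
      (Polynomial.X - Polynomial.C (tau e f o)) * Y j := by
    funext j
    rw [← hY j]; ring
  have h1 := dvd_transfer hle (qpt e f) hB (Polynomial.X - Polynomial.C (tau e f o)) Y
  rw [← hK'] at h1
  have hth : ∀ i, th K i = Polynomial.C ((del e o / 2) ^ 3) * th PP i := by
    intro i
    have c1 : κ 0 = del e o / 2 := rfl
    have c2 : κ 1 = del e o / 2 * o ^ 2 := rfl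
    have c3 : κ 2 = del e o / 2 * o := rfl
    have k1 : κ 2 ^ 3 = (del e o / 2) ^ 3 := by
      rw [c3, mul_pow, ho3, mul_one]
    have k2 : κ 0 * κ 1 * κ 2 = (del e o / 2) ^ 3 := by
      rw [c1, c2, c3]; linear_combination (del e o / 2) ^ 3 * ho3
    have k3 : κ 0 ^ 3 = (del e o / 2) ^ 3 := by rw [c1]
    have k4 : κ 1 ^ 3 = (del e o / 2) ^ 3 := by
      rw [c2]; linear_combination (del e o / 2) ^ 3 * (o ^ 3 + 1) * ho3
    fin_cases i
    · show (Polynomial.C (κ 2) * PP 2) ^ 3 = _ * (PP 2) ^ 3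
      rw [← k1, Polynomial.C_pow]; ring
    · show (Polynomial.C (κ 0) * PP 0) * (Polynomial.C (κ 1) * PP 1) * (Polynomial.C (κ 2) * PP 2)
        = _ * (PP 0 * PP 1 * PP 2)
      rw [← k2, Polynomial.C_mul, Polynomial.C_mul]; ring
    · show (Polynomial.C (κ 0) * PP 0) ^ 3 = _ * (PP 0) ^ 3
      rw [← k3, Polynomial.C_pow]; ring
    · show (Polynomial.C (κ 1) * PP 1) ^ 3 = _ * (PP 1) ^ 3
      rw [← k4, Polynomial.C_pow]; ring
  have hnu : nu (th K) = fun t => Polynomial.C ((del e o / 2) ^ 9) * nu (th PP) t := by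
    funext t
    simp only [nu, hth]
    rw [show (del e o / 2) ^ 9 = (del e o / 2) ^ 3 * (del e o / 2) ^ 3 * (del e o / 2) ^ 3 by ring,
      Polynomial.C_mul, Polynomial.C_mul]
    ring
  have hEv : Ev K p = Polynomial.C ((del e o / 2) ^ 9) ^ m * Ev PP p := by
    unfold Ev
    rw [hnu, aeval_smul_hom hp]
  rw [hEv] at h1
  have hu : IsUnit (Polynomial.C ((del e o / 2) ^ 9) ^ m : Polynomial ℂ) := by
    refine IsUnit.pow _ (Polynomial.isUnit_C.mpr ?_)
    exact (isUnit_iff_ne_zero.mpr (pow_ne_zero _ (div_ne_zero hd two_ne_zero)))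
  exact (hu.dvd_mul_left).mp h1

end point

end

end Pool.Agent.X94.Stub
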