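import Mathlib
import Pool.Agent.X94.StubB

/-!
The restriction to the conic of every form bounded by the Motzkin type form is a real multiple of a
fixed form (MP_982b0b_ag).
-/

namespace Pool.Agent.X94.Stub

open MvPolynomial

noncomputable section

/-- signs -/
def sg (b : Bool) : ℝ := if b then 1 else -1

/-- the two primitive cube roots of unity -/
def om (b : Bool) : ℂ := (-1 + (sg b : ℂ) * (Complex.I * (Real.sqrt 3 : ℂ))) / 2

lemma sg_sq (b : Bool) : sg b ^ 2 = 1 := by cases b <;> simp [sg]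

lemma sg_inj {a b : Bool} (h : sg a = sg b) : a = b := by
  cases a <;> cases b <;> simp [sg] at h ⊢ <;> norm_num at h

lemma sqrt3_sq : ((Real.sqrt 3 : ℝ) : ℂ) ^ 2 = 3 := by
  rw [← Complex.ofReal_pow, Real.sq_sqrt (by norm_num)]; norm_num

lemma om_eq (b : Bool) : om b ^ 2 + om b + 1 = 0 := by
  have h1 : ((sg b : ℝ) : ℂ) ^ 2 = 1 := by exact_mod_cast sg_sq b
  unfold om
  linear_combination (((sg b : ℝ) : ℂ) ^ 2 * (Real.sqrt 3 : ℂ) ^ 2 / 4) * Complex.I_sq
    - (((sg b : ℝ) : ℂ) ^ 2 / 4) * sqrt3_sq - (3 / 4 : ℂ) * h1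

lemma om_inj {a b : Bool} (h : om a = om b) : a = b := by
  have h3 : (Complex.I * (Real.sqrt 3 : ℂ)) ≠ 0 := by
    refine mul_ne_zero Complex.I_ne_zero ?_
    have : Real.sqrt 3 ≠ 0 := by positivity
    exact_mod_cast this
  unfold om at h
  have h1 : (sg a : ℂ) * (Complex.I * (Real.sqrt 3 : ℂ)) = (sg b : ℂ) * (Complex.I * (Real.sqrt 3 : ℂ)) := by
    linear_combination 2 * h
  have h2 := mul_right_cancel₀ h3 h1
  exact sg_inj (by exact_mod_cast h2)

/-- the eight points of the conic over the four zeros -/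
def tt (j : Bool × Bool × Bool) : ℂ := tau (sg j.1) (sg j.2.1) (om j.2.2)

lemma om3 (b : Bool) : om b ^ 3 = 1 := by linear_combination (om b - 1) * om_eq b

lemma tt_inj : Function.Injective tt := by
  rintro ⟨a, b, c⟩ ⟨a', b', c'⟩ h
  unfold tt at h
  simp only at h
  obtain ⟨u1, u2, u3⟩ := point_val (e := sg a) (f := sg b) (o := om c) (sg_sq a) (sg_sq b) (om_eq c)
  obtain ⟨v1, v2, v3⟩ := point_val (e := sg a') (f := sg b') (o := om c') (sg_sq a') (sg_sq b')
    (om_eq c')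
  rw [h] at u1 u2 u3
  have hne : (1 - tau (sg a') (sg b') (om c') ^ 2) ≠ 0 := by
    intro h0; rw [h0, zero_mul] at u1; norm_num at u1
  have hdel : del (sg a) (om c) = del (sg a') (om c') := by
    apply mul_left_cancel₀ hne
    rw [u1, v1]
  rw [hdel] at u2 u3
  have e1 : (sg a : ℂ) * om c = sg a' * om c' := by
    have := u2.symm.trans v2
    linear_combination (1 / 2 : ℂ) * this
  have e2 : (sg b : ℂ) * om c ^ 2 = sg b' * om c' ^ 2 := by
    have := u3.symm.trans v3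
    linear_combination (1 / 2 : ℂ) * this
  have hs : ∀ x : Bool, ((sg x : ℝ) : ℂ) ^ 2 = 1 := fun x => by exact_mod_cast sg_sq x
  have ea : (sg a : ℂ) = sg a' := by
    have : ((sg a : ℂ) * om c) ^ 3 = (sg a' * om c') ^ 3 := by rw [e1]
    rw [mul_pow, mul_pow, om3, om3, mul_one, mul_one] at this
    linear_combination this - (sg a : ℂ) * hs a + (sg a' : ℂ) * hs a'
  have hsa : (sg a' : ℂ) ≠ 0 := by
    intro h0; have := hs a'; rw [h0] at this; norm_num at this
  have ec : om c = om c' := by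
    rw [ea] at e1
    exact mul_left_cancel₀ hsa e1
  have hoc : om c' ^ 2 ≠ 0 := by
    intro h0
    have := om3 c'
    have h1 : om c' ^ 3 = om c' ^ 2 * om c' := by ring
    rw [h1, h0, zero_mul] at this
    norm_num at this
  have eb : (sg b : ℂ) = sg b' := by
    rw [ec] at e2
    exact mul_right_cancel₀ hoc e2
  have ra := sg_inj (by exact_mod_cast ea : sg a = sg a')
  have rb := sg_inj (by exact_mod_cast eb : sg b = sg b')
  have rc := om_inj ec
  rw [ra, rb, rc]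

/-- multiplicities -/
def mu (j : Bool × Bool × Bool) : ℕ := if j.1 && j.2.1 then 3 else 2

lemma sum_mu : ∑ j, mu j = 18 := by decide

/-- The common divisor. -/
def DD (m : ℕ) : Polynomial ℂ := ∏ j, (Polynomial.X - Polynomial.C (tt j)) ^ (mu j * m)

lemma DD_monic (m : ℕ) : (DD m).Monic :=
  Polynomial.monic_prod_of_monic _ _ fun j _ => (Polynomial.monic_X_sub_C _).pow _

lemma DD_natDegree (m : ℕ) : (DD m).natDegree = 18 * m := by
  unfold DD
  rw [Polynomial.natDegree_prod_of_monic _ _ fun j _ => (Polynomial.monic_X_sub_C _).pow _]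
  simp only [Polynomial.natDegree_pow, Polynomial.natDegree_X_sub_C, mul_one]
  rw [← Finset.sum_mul, sum_mu]

lemma DD_dvd {m : ℕ} {p : MvPolynomial (Fin 64) ℝ} {c : ℝ} (hp : p.IsHomogeneous m)
    (hle : ∀ q : Fin 3 → ℝ, (Ev q p) ^ 2 ≤ c * (BB q) ^ m) : DD m ∣ Ev PP p := by
  unfold DD
  refine Fintype.prod_dvd_of_coprime ?_ ?_
  · intro i j hij
    exact (Polynomial.pairwise_coprime_X_sub_C tt_inj hij).pow
  · rintro ⟨a, b, o⟩
    refine point_dvd hp hle (sg_sq a) (sg_sq b) (om_eq o) ?_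
    intro y
    unfold mu
    cases a <;> cases b
    · exact dvd_BB4 _ y (fun i => by fin_cases i <;> simp [qpt, sg])
    · exact dvd_BB4 _ y (fun i => by fin_cases i <;> simp [qpt, sg])
    · exact dvd_BB4 _ y (fun i => by fin_cases i <;> simp [qpt, sg])
    · exact dvd_BB6 _ y (fun i => by fin_cases i <;> simp [qpt, sg])

lemma natDegree_aeval_le {m D : ℕ} {p : MvPolynomial (Fin 64) ℝ} (hp : p.IsHomogeneous m)
    (f : Fin 64 → Polynomial ℂ) (hf : ∀ t, (f t).natDegree ≤ D) :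
    (aeval f p : Polynomial ℂ).natDegree ≤ D * m := by
  rw [aeval_def, eval₂_eq']
  refine Polynomial.natDegree_sum_le_of_forall_le _ _ fun d hd => ?_
  have hdeg : ∑ i, d i = m := by
    have h1 := hp (mem_support_iff.mp hd)
    rw [← h1, Finsupp.weight_apply, Finsupp.sum_fintype _ _ (by simp)]
    simp
  refine Polynomial.natDegree_mul_le.trans ?_
  rw [Polynomial.algebraMap_apply, Polynomial.natDegree_C, zero_add]
  refine (Polynomial.natDegree_prod_le _ _).trans ?_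
  rw [← hdeg, Finset.mul_sum]
  refine Finset.sum_le_sum fun i _ => ?_
  refine Polynomial.natDegree_pow_le.trans ?_
  rw [mul_comm]
  exact Nat.mul_le_mul_right _ (hf i)

lemma PP_deg (j : Fin 3) : (PP j).natDegree ≤ 2 := by
  fin_cases j
  · show (1 - Polynomial.X ^ 2 : Polynomial ℂ).natDegree ≤ 2
    compute_degree
  · show (Polynomial.C Complex.I * (1 + Polynomial.X ^ 2) : Polynomial ℂ).natDegree ≤ 2
    compute_degree
  · show (2 * Polynomial.X : Polynomial ℂ).natDegree ≤ 2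
    refine Polynomial.natDegree_mul_le.trans ?_
    have : (2 : Polynomial ℂ).natDegree = 0 := Polynomial.natDegree_ofNat 2
    rw [this, Polynomial.natDegree_X]; norm_num

lemma th_deg (i : Fin 4) : (th PP i).natDegree ≤ 6 := by
  have h3 : ∀ j, (PP j ^ 3).natDegree ≤ 6 := fun j =>
    Polynomial.natDegree_pow_le.trans (by have := PP_deg j; omega)
  fin_cases i
  · exact h3 2
  · show (PP 0 * PP 1 * PP 2).natDegree ≤ 6
    refine Polynomial.natDegree_mul_le.trans ?_
    have h1 : (PP 0 * PP 1).natDegree ≤ 4 :=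
      Polynomial.natDegree_mul_le.trans (by have := PP_deg 0; have := PP_deg 1; omega)
    have := PP_deg 2
    omega
  · exact h3 0
  · exact h3 1

lemma nu_deg (t : Fin 64) : (nu (th PP) t).natDegree ≤ 18 := by
  unfold nu
  refine Polynomial.natDegree_mul_le.trans ?_
  have h1 := (Polynomial.natDegree_mul_le (p := th PP (idx.symm t).1)
    (q := th PP (idx.symm t).2.1))
  have a1 := th_deg (idx.symm t).1
  have a2 := th_deg (idx.symm t).2.1
  have a3 := th_deg (idx.symm t).2.2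
  omega

lemma rigid {m : ℕ} {p : MvPolynomial (Fin 64) ℝ} {c : ℝ} (hp : p.IsHomogeneous m)
    (hle : ∀ q : Fin 3 → ℝ, (Ev q p) ^ 2 ≤ c * (BB q) ^ m) :
    ∃ a : ℂ, Ev PP p = Polynomial.C a * DD m := by
  obtain ⟨h, hh⟩ := DD_dvd hp hle
  by_cases h0 : h = 0
  · exact ⟨0, by rw [hh, h0]; simp⟩
  have hd : (Ev PP p).natDegree ≤ 18 * m := natDegree_aeval_le hp _ nu_deg
  rw [hh, (DD_monic m).natDegree_mul' h0, DD_natDegree] at hd
  have hz : h.natDegree = 0 := by omega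
  rw [Polynomial.natDegree_eq_zero] at hz
  obtain ⟨a, ha⟩ := hz
  exact ⟨a, by rw [hh, ← ha, mul_comm]⟩

/-- the point of the conic with parameter `1` -/
def Q1 : Fin 3 → ℂ := ![0, 2 * Complex.I, 2]
/-- the point of the conic with parameter `-1` -/
def Q2 : Fin 3 → ℂ := ![0, 2 * Complex.I, -2]

lemma eval_one (p : MvPolynomial (Fin 64) ℝ) : (Ev PP p).eval 1 = Ev Q1 p := by
  have h := map_Ev ((Polynomial.aeval (R := ℂ) (1 : ℂ)).restrictScalars ℝ) PP p
  simp only [AlgHom.restrictScalars_apply, Polynomial.coe_aeval_eq_eval] at h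
  rw [h]
  congr 1
  funext j
  fin_cases j <;> simp [PP, Q1]
  ring

lemma eval_neg_one (p : MvPolynomial (Fin 64) ℝ) : (Ev PP p).eval (-1) = Ev Q2 p := by
  have h := map_Ev ((Polynomial.aeval (R := ℂ) (-1 : ℂ)).restrictScalars ℝ) PP p
  simp only [AlgHom.restrictScalars_apply, Polynomial.coe_aeval_eq_eval] at h
  rw [h]
  congr 1
  funext j
  fin_cases j <;> simp [PP, Q2]
  ring

lemma Q2_eq {m : ℕ} {p : MvPolynomial (Fin 64) ℝ} (hp : p.IsHomogeneous m) :
    Ev Q2 p = (-1) ^ (9 * m) * (starRingEnd ℂ) (Ev Q1 p) := by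
  have h := map_Ev (Complex.conjAe : ℂ →ₐ[ℝ] ℂ) Q1 p
  have h' : (starRingEnd ℂ) (Ev Q1 p) = Ev (fun j => (starRingEnd ℂ) (Q1 j)) p := h
  rw [h', ← Ev_smul hp]
  have h2 : (starRingEnd ℂ) 2 = 2 := map_ofNat _ 2
  congr 1
  funext j
  fin_cases j <;> simp [Q1, Q2, h2]

/-- linear form in the 64 coordinates with given trilinear coefficients -/
def lin (α β γ : Fin 4 → ℝ) : MvPolynomial (Fin 64) ℝ :=
  ∑ t : Fin 64, C (α (idx.symm t).1 * β (idx.symm t).2.1 * γ (idx.symm t).2.2) * X t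

lemma lin_hom (α β γ : Fin 4 → ℝ) : (lin α β γ).IsHomogeneous 1 := by
  refine IsHomogeneous.sum _ _ _ fun t _ => ?_
  exact (isHomogeneous_X ℝ t).C_mul _

lemma Ev_lin {A : Type} [CommRing A] [Algebra ℝ A] (x : Fin 3 → A) (α β γ : Fin 4 → ℝ) :
    Ev x (lin α β γ) = (∑ i, algebraMap ℝ A (α i) * th x i) * (∑ i, algebraMap ℝ A (β i) * th x i)
      * (∑ i, algebraMap ℝ A (γ i) * th x i) := by
  unfold Ev lin
  rw [map_sum]
  simp only [map_mul, aeval_C, aeval_X]
  rw [← Equiv.sum_comp idx, Fintype.sum_prod_type]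
  simp only [Fintype.sum_prod_type, nu, Equiv.symm_apply_apply]
  rw [Finset.sum_mul_sum, Finset.sum_mul]
  refine Finset.sum_congr rfl fun i _ => ?_
  rw [Finset.sum_mul]
  refine Finset.sum_congr rfl fun j _ => ?_
  rw [Finset.mul_sum]
  refine Finset.sum_congr rfl fun k _ => ?_
  ring

def c1 : Fin 4 → ℝ := ![-1, -1, 1, 1]
def c2 : Fin 4 → ℝ := ![1, -1, -1, 1]
def c3 : Fin 4 → ℝ := ![1, -1, 1, -1]

lemma sum_c1 {A : Type} [CommRing A] [Algebra ℝ A] (x : Fin 3 → A) :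
    ∑ i, algebraMap ℝ A (c1 i) * th x i = A1 x := by
  simp [Fin.sum_univ_four, c1, th, A1]; ring
lemma sum_c2 {A : Type} [CommRing A] [Algebra ℝ A] (x : Fin 3 → A) :
    ∑ i, algebraMap ℝ A (c2 i) * th x i = A2 x := by
  simp [Fin.sum_univ_four, c2, th, A2]; ring
lemma sum_c3 {A : Type} [CommRing A] [Algebra ℝ A] (x : Fin 3 → A) :
    ∑ i, algebraMap ℝ A (c3 i) * th x i = A3 x := by
  simp [Fin.sum_univ_four, c3, th, A3]; ring

/-- the linear form with value `A₁A₂A₃` -/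
def p0 : MvPolynomial (Fin 64) ℝ := lin c1 c2 c3

lemma Ev_p0 {A : Type} [CommRing A] [Algebra ℝ A] (x : Fin 3 → A) :
    Ev x p0 = A1 x * A2 x * A3 x := by
  unfold p0
  rw [Ev_lin, sum_c1, sum_c2, sum_c3]

lemma Ev_pow {A : Type} [CommRing A] [Algebra ℝ A] (x : Fin 3 → A) (p : MvPolynomial (Fin 64) ℝ)
    (k : ℕ) : Ev x (p ^ k) = (Ev x p) ^ k := by unfold Ev; rw [map_pow]

lemma Q1_ne : Ev Q1 p0 ≠ 0 := by
  rw [Ev_p0]
  have hI3 : Complex.I ^ 3 = -Complex.I := by
    rw [show Complex.I ^ 3 = Complex.I ^ 2 * Complex.I by ring, Complex.I_sq]; ring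
  have h1 : A1 Q1 = -8 - 8 * Complex.I := by
    simp [A1, Q1, mul_pow, hI3]; ring
  have h2 : A2 Q1 = 8 - 8 * Complex.I := by
    simp [A2, Q1, mul_pow, hI3]; ring
  have h3 : A3 Q1 = 8 + 8 * Complex.I := by
    simp [A3, Q1, mul_pow, hI3]; ring
  rw [h1, h2, h3]
  refine mul_ne_zero (mul_ne_zero ?_ ?_) ?_ <;>
  · intro h
    have := congrArg Complex.re h
    simp at this

/-- A form of degree `m` bounded by the `m`-th power of the Motzkin type form takes at the point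
`Q1` of the conic a real multiple of the value of `(A₁A₂A₃)^m`. -/
lemma real_ratio {m : ℕ} {p : MvPolynomial (Fin 64) ℝ} {c : ℝ} (hp : p.IsHomogeneous m)
    (hle : ∀ q : Fin 3 → ℝ, (Ev q p) ^ 2 ≤ c * (BB q) ^ m) :
    ∃ γ : ℝ, Ev Q1 p = γ * (Ev Q1 p0) ^ m := by
  obtain ⟨a, ha⟩ := rigid hp hle
  have hL : (p0 ^ m).IsHomogeneous m := by
    have := (lin_hom c1 c2 c3).pow m
    rwa [one_mul] at this
  have hLle : ∀ q : Fin 3 → ℝ, (Ev q (p0 ^ m)) ^ 2 ≤ 3 ^ m * (BB q) ^ m := by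
    intro q
    rw [Ev_pow, ← pow_mul, mul_comm m 2, pow_mul, ← mul_pow, Ev_p0]
    exact pow_le_pow_left₀ (sq_nonneg _) (key_ineq q) m
  obtain ⟨b, hb⟩ := rigid hL hLle
  have e1 := eval_one p
  have e2 := eval_neg_one p
  have e3 := eval_one (p0 ^ m)
  have e4 := eval_neg_one (p0 ^ m)
  rw [ha, Polynomial.eval_mul, Polynomial.eval_C] at e1 e2
  rw [hb, Polynomial.eval_mul, Polynomial.eval_C] at e3 e4
  have hne : Ev Q1 (p0 ^ m) ≠ 0 := by rw [Ev_pow]; exact pow_ne_zero _ Q1_ne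
  have hcross : Ev Q1 p * Ev Q2 (p0 ^ m) = Ev Q1 (p0 ^ m) * Ev Q2 p := by
    rw [← e1, ← e2, ← e3, ← e4]; ring
  rw [Q2_eq hp, Q2_eq hL] at hcross
  set z := Ev Q1 p with hz
  set w := Ev Q1 (p0 ^ m) with hw
  have hs : ((-1 : ℂ) ^ (9 * m)) ≠ 0 := pow_ne_zero _ (by norm_num)
  have hcr : z * (starRingEnd ℂ) w = w * (starRingEnd ℂ) z := by
    apply mul_left_cancel₀ hs
    linear_combination hcross
  have hreal : (starRingEnd ℂ) (z / w) = z / w := by
    rw [map_div₀, div_eq_div_iff ((map_ne_zero _).mpr hne) hne]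
    linear_combination -hcr
  obtain ⟨r, hr⟩ := Complex.conj_eq_iff_real.mp hreal
  refine ⟨r, ?_⟩
  rw [← hr, ← Ev_pow, ← hw, div_mul_cancel₀ _ hne]

end

end Pool.Agent.X94.Stub
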