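import Mathlib
import Pool.Agent.X94.StubC

/-!
Definitions for MP_982b0b_ag and the convex geometry of the face.
-/

namespace Pool.Agent.X94.Stub

open MvPolynomial

noncomputable section

/-- `V ⊆ ℝ^(n+1)` is the set of common real zeros of a family of real homogeneous polynomials of
positive degree, i.e. the affine cone over the real points of a projective variety. The totally real
varieties `X ⊆ ℙ^n` correspond bijectively to such sets `V` (`X` is the Zariski closure of its real
points, and its ideal is the ideal of all polynomials vanishing on `V`). -/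
def IsProjCone {n : ℕ} (V : Set (Fin (n + 1) → ℝ)) : Prop :=
  ∃ S : Set (MvPolynomial (Fin (n + 1)) ℝ), (∀ p ∈ S, ∃ m : ℕ, 0 < m ∧ p.IsHomogeneous m) ∧
    V = {x | ∀ p ∈ S, eval x p = 0}

/-- Restriction of polynomials to functions on `V`. -/
def restr {n : ℕ} (V : Set (Fin (n + 1) → ℝ)) :
    MvPolynomial (Fin (n + 1)) ℝ →ₗ[ℝ] (V → ℝ) where
  toFun p := fun x => eval x.1 p
  map_add' p q := by funext x; simp
  map_smul' c p := by funext x; simp [smul_eval]

/-- The graded piece `ℝ[X]_m` of the homogeneous coordinate ring of the totally real variety `X` with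
real cone `V`: restrictions to `V` of forms of degree `m`. -/
def forms {n : ℕ} (V : Set (Fin (n + 1) → ℝ)) (m : ℕ) : Submodule ℝ (V → ℝ) :=
  (homogeneousSubmodule (Fin (n + 1)) ℝ m).map (restr V)

/-- The cone `P_X ⊆ ℝ[X]_2` of nonnegative quadratic forms. -/
def psdCone {n : ℕ} (V : Set (Fin (n + 1) → ℝ)) : Set (forms V 2) :=
  {f | ∀ x, 0 ≤ (f : V → ℝ) x}

/-- `F ∈ ℝ[X]_{2m}` is a sum of squares of elements of `ℝ[X]_m`. -/
def IsSOS {n : ℕ} (V : Set (Fin (n + 1) → ℝ)) (m : ℕ) (F : V → ℝ) : Prop :=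
  ∃ (r : ℕ) (G : Fin r → V → ℝ), (∀ i, G i ∈ forms V m) ∧ F = ∑ i, (G i) ^ 2

/-- A nonnegative quadratic form `F` is stubborn if no odd power `F^k` is a sum of squares of
elements of `ℝ[X]_k`. -/
def Stubborn {n : ℕ} (V : Set (Fin (n + 1) → ℝ)) (F : V → ℝ) : Prop :=
  ∀ k, Odd k → ¬ IsSOS V k (F ^ k)

/-- Faces of a convex set: nonempty convex extreme subsets. -/
def IsFace {E : Type} [AddCommGroup E] [Module ℝ E] (P F : Set E) : Prop :=
  F.Nonempty ∧ Convex ℝ F ∧ IsExtreme ℝ P F

/-! ### convex geometry -/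

section convex

variable {α : Type} (E : Submodule ℝ (α → ℝ))

/-- The face of functions dominated by a multiple of `B`. -/
def dom (B : E) : Set E :=
  {g | (∀ x, 0 ≤ (g : α → ℝ) x) ∧ ∃ c : ℝ, ∀ x, (g : α → ℝ) x ≤ c * (B : α → ℝ) x}

variable {E}

/-- The subspace of functions dominated in absolute value by a multiple of `B`. -/
def domSub (B : E) : Submodule ℝ E where
  carrier := {g | ∃ c : ℝ, ∀ x, |(g : α → ℝ) x| ≤ c * (B : α → ℝ) x}
  zero_mem' := ⟨0, fun x => by simp⟩
  add_mem' := by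
    rintro g h ⟨c, hc⟩ ⟨d, hd⟩
    refine ⟨c + d, fun x => ?_⟩
    rw [Submodule.coe_add, Pi.add_apply, add_mul]
    exact (abs_add_le _ _).trans (add_le_add (hc x) (hd x))
  smul_mem' := by
    rintro a g ⟨c, hc⟩
    refine ⟨|a| * c, fun x => ?_⟩
    rw [Submodule.coe_smul, Pi.smul_apply, smul_eq_mul, abs_mul, mul_assoc]
    exact mul_le_mul_of_nonneg_left (hc x) (abs_nonneg _)

lemma dom_subset (B : E) :
    dom E B ⊆ (domSub B : Set E) := by
  rintro g ⟨h0, c, hc⟩
  exact ⟨c, fun x => by rw [abs_of_nonneg (h0 x)]; exact hc x⟩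

lemma mem_relint [FiniteDimensional ℝ E] (B f : E) (hB : ∀ x, 0 ≤ (B : α → ℝ) x) {δ : ℝ}
    (hδ : 0 < δ) (hf : ∀ x, δ * (B : α → ℝ) x ≤ (f : α → ℝ) x) {c : ℝ}
    (hc : ∀ x, (f : α → ℝ) x ≤ c * (B : α → ℝ) x) :
    f ∈ intrinsicInterior ℝ (dom E B) := by
  set W := domSub B with hW
  have hfF : f ∈ dom E B := ⟨fun x => (mul_nonneg hδ.le (hB x)).trans (hf x), c, hc⟩
  have hspan : ∀ z ∈ affineSpan ℝ (dom E B), z ∈ W := by
    have h1 : affineSpan ℝ (dom E B) ≤ W.toAffineSubspace :=
      affineSpan_le.mpr (dom_subset B)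
    intro z hz
    exact h1 hz
  have hfW : f ∈ W := dom_subset B hfF
  have : Module.Free ℝ W := Module.Free.of_divisionRing ℝ W
  let b := Module.finBasis ℝ W
  have hb : ∀ i, ∃ ci : ℝ, ∀ x, |((b i : W) : E).1 x| ≤ ci * (B : α → ℝ) x := fun i => (b i).2
  choose ci hci using hb
  let Φ : affineSpan ℝ (dom E B) → W := fun z => ⟨z.1 - f, W.sub_mem (hspan z.1 z.2) hfW⟩
  have hΦ : Continuous Φ := Continuous.subtype_mk (continuous_subtype_val.sub continuous_const) _
  let g : affineSpan ℝ (dom E B) → ℝ := fun z => ∑ i, |ci i| * |b.coord i (Φ z)|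
  have hg : Continuous g := by
    refine continuous_finsetSum _ fun i _ => continuous_const.mul ?_
    exact ((LinearMap.continuous_of_finiteDimensional (b.coord i)).comp hΦ).abs
  rw [mem_intrinsicInterior]
  refine ⟨⟨f, subset_affineSpan ℝ _ hfF⟩, ?_, rfl⟩
  rw [mem_interior]
  refine ⟨{z | g z < δ}, ?_, isOpen_lt hg continuous_const, ?_⟩
  · intro z hz
    have hz' : g z < δ := hz
    have hrep : ∀ x, z.1.1 x - f.1 x = ∑ i, b.coord i (Φ z) * ((b i : W) : E).1 x := by
      intro x
      have h1 : Φ z = ∑ i, b.coord i (Φ z) • b i := by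
        exact (b.sum_repr (Φ z)).symm
      have h2 := congrArg W.subtype h1
      rw [map_sum] at h2
      simp only [map_smul, Submodule.subtype_apply] at h2
      have h3 := congrArg E.subtype h2
      rw [map_sum] at h3
      simp only [map_smul, Submodule.subtype_apply] at h3
      have h4 := congrFun h3 x
      simp only [Finset.sum_apply, Pi.smul_apply, smul_eq_mul] at h4
      rw [← h4]
      rfl
    have hbound : ∀ x, |z.1.1 x - f.1 x| ≤ δ * (B : α → ℝ) x := by
      intro x
      rw [hrep x]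
      refine (Finset.abs_sum_le_sum_abs _ _).trans ?_
      have : ∀ i, |b.coord i (Φ z) * ((b i : W) : E).1 x|
          ≤ |ci i| * |b.coord i (Φ z)| * (B : α → ℝ) x := by
        intro i
        rw [abs_mul]
        have h5 := (hci i x).trans (mul_le_mul_of_nonneg_right (le_abs_self (ci i)) (hB x))
        calc |b.coord i (Φ z)| * |((b i : W) : E).1 x|
            ≤ |b.coord i (Φ z)| * (|ci i| * (B : α → ℝ) x) :=
              mul_le_mul_of_nonneg_left h5 (abs_nonneg _)
          _ = _ := by ring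
      refine (Finset.sum_le_sum fun i _ => this i).trans ?_
      rw [← Finset.sum_mul]
      exact mul_le_mul_of_nonneg_right hz'.le (hB x)
    show z.1 ∈ dom E B
    refine ⟨fun x => ?_, c + δ, fun x => ?_⟩
    · have := (abs_le.mp (hbound x)).1
      have := hf x
      linarith
    · have := (abs_le.mp (hbound x)).2
      have := hc x
      rw [add_mul]; linarith
  · show g ⟨f, _⟩ < δ
    have : Φ ⟨f, subset_affineSpan ℝ _ hfF⟩ = 0 := by
      apply Subtype.ext
      simp [Φ]
    simp only [g, this, map_zero, abs_zero, mul_zero, Finset.sum_const_zero]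
    exact hδ

lemma dom_face (P : Set E) (hP : P = {f : E | ∀ x, 0 ≤ (f : α → ℝ) x}) (B : E) :
    IsFace P (dom E B) := by
  refine ⟨⟨0, fun x => by simp, 0, fun x => by simp⟩, ?_, ?_⟩
  · rintro g ⟨g0, c, hc⟩ h ⟨h0, d, hd⟩ s t hs ht hst
    refine ⟨fun x => ?_, s * c + t * d, fun x => ?_⟩
    · show 0 ≤ s * (g : α → ℝ) x + t * (h : α → ℝ) x
      exact add_nonneg (mul_nonneg hs (g0 x)) (mul_nonneg ht (h0 x))
    · show s * (g : α → ℝ) x + t * (h : α → ℝ) x ≤ _
      have h1 := mul_le_mul_of_nonneg_left (hc x) hs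
      have h2 := mul_le_mul_of_nonneg_left (hd x) ht
      linarith
  · refine ⟨fun g hg => by rw [hP]; exact hg.1, ?_⟩
    rintro g hg h hh z ⟨z0, c, hc⟩ ⟨s, t, hs, ht, hst, rfl⟩
    rw [hP] at hg hh
    refine ⟨hg, c / s, fun x => ?_⟩
    have h1 : s * (g : α → ℝ) x + t * (h : α → ℝ) x ≤ c * (B : α → ℝ) x := hc x
    have h2 : 0 ≤ t * (h : α → ℝ) x := mul_nonneg ht.le (hh x)
    rw [div_mul_eq_mul_div, le_div_iff₀ hs]
    linarith

end convex

end

end Pool.Agent.X94.Stub
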