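import Mathlib
import Pool.Agent.X94.StubD

/-!
The variety, the two quadrics and the stubbornness proof (MP_982b0b_ag).
-/

namespace Pool.Agent.X94.Stub

open MvPolynomial

noncomputable section

/-- Real cone of the third Veronese embedding in `ℙ^63` of the cubic surface `a c d = b³`. -/
def VV : Set (Fin (63 + 1) → ℝ) := Set.range fun q : Fin 3 → ℝ => nu (th q)

lemma cbrt (x : ℝ) : ∃ y : ℝ, y ^ 3 = x := by
  rcases le_total 0 x with h | h
  · exact ⟨x ^ ((3 : ℕ)⁻¹ : ℝ), Real.rpow_inv_natCast_pow h (by norm_num)⟩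
  · refine ⟨-((-x) ^ ((3 : ℕ)⁻¹ : ℝ)), ?_⟩
    have := Real.rpow_inv_natCast_pow (x := -x) (n := 3) (by linarith) (by norm_num)
    rw [Odd.neg_pow (by decide), this, neg_neg]

lemma nu_idx {A : Type} [CommRing A] (θ : Fin 4 → A) (i j k : Fin 4) :
    nu θ (idx (i, j, k)) = θ i * θ j * θ k := by simp [nu]

/-- the equations of `VV` -/
def eqs : Set (MvPolynomial (Fin (63 + 1)) ℝ) :=
  {p | (∃ i j k l : Fin 4, p = X (idx (i, i, j)) * X (idx (i, i, k)) * X (idx (i, i, l)) -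
      X (idx (i, i, i)) ^ 2 * X (idx (j, k, l))) ∨
    (∃ j k l : Fin 4, p = X (idx (j, k, l)) ^ 3 -
      X (idx (j, j, j)) * X (idx (k, k, k)) * X (idx (l, l, l))) ∨
    p = X (idx (0, 2, 3)) - X (idx (1, 1, 1))}

lemma VV_cone : IsProjCone VV := by
  refine ⟨eqs, ?_, ?_⟩
  · rintro p (⟨i, j, k, l, rfl⟩ | ⟨j, k, l, rfl⟩ | rfl)
    · refine ⟨3, by norm_num, IsHomogeneous.sub ?_ ?_⟩
      · exact ((isHomogeneous_X ℝ _).mul (isHomogeneous_X ℝ _)).mul (isHomogeneous_X ℝ _)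
      · exact ((isHomogeneous_X ℝ _).pow 2).mul (isHomogeneous_X ℝ _)
    · refine ⟨3, by norm_num, IsHomogeneous.sub ?_ ?_⟩
      · exact (isHomogeneous_X ℝ _).pow 3
      · exact ((isHomogeneous_X ℝ _).mul (isHomogeneous_X ℝ _)).mul (isHomogeneous_X ℝ _)
    · exact ⟨1, by norm_num, IsHomogeneous.sub (isHomogeneous_X ℝ _) (isHomogeneous_X ℝ _)⟩
  · apply Set.eq_of_subset_of_subset
    · rintro _ ⟨q, rfl⟩ p (⟨i, j, k, l, rfl⟩ | ⟨j, k, l, rfl⟩ | rfl)
      · simp only [map_sub, map_mul, map_pow, eval_X, nu_idx]; ring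
      · simp only [map_sub, map_mul, map_pow, eval_X, nu_idx]; ring
      · simp only [map_sub, eval_X, nu_idx]
        simp [th]; ring
    · intro x hx
      have hx' : ∀ p ∈ eqs, eval x p = 0 := hx
      have R1 : ∀ i j k l : Fin 4, x (idx (i, i, j)) * x (idx (i, i, k)) * x (idx (i, i, l)) =
          x (idx (i, i, i)) ^ 2 * x (idx (j, k, l)) := by
        intro i j k l
        have := hx' _ (Or.inl ⟨i, j, k, l, rfl⟩)
        simp only [map_sub, map_mul, map_pow, eval_X] at this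
        linarith
      have R2 : ∀ j k l : Fin 4, x (idx (j, k, l)) ^ 3 =
          x (idx (j, j, j)) * x (idx (k, k, k)) * x (idx (l, l, l)) := by
        intro j k l
        have := hx' _ (Or.inr (Or.inl ⟨j, k, l, rfl⟩))
        simp only [map_sub, map_mul, map_pow, eval_X] at this
        linarith
      have R3 : x (idx (0, 2, 3)) = x (idx (1, 1, 1)) := by
        have := hx' _ (Or.inr (Or.inr rfl))
        simp only [map_sub, eval_X] at this
        linarith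
      by_cases hz : ∀ i, x (idx (i, i, i)) = 0
      · refine ⟨0, ?_⟩
        funext t
        obtain ⟨⟨j, k, l⟩, rfl⟩ := idx.surjective t
        have h1 := R2 j k l
        rw [hz j, zero_mul, zero_mul] at h1
        have h2 : x (idx (j, k, l)) = 0 := pow_eq_zero_iff (by norm_num) |>.mp h1
        rw [h2]
        show nu (th 0) (idx (j, k, l)) = 0
        rw [nu_idx]
        have : ∀ i, th (0 : Fin 3 → ℝ) i = 0 := by intro i; fin_cases i <;> simp [th]
        rw [this]; simp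
      · push Not at hz
        obtain ⟨i, hi⟩ := hz
        obtain ⟨s, hs⟩ := cbrt (x (idx (i, i, i)))
        have hs0 : s ≠ 0 := by
          rintro rfl; rw [← hs] at hi; norm_num at hi
        set θ : Fin 4 → ℝ := fun j => x (idx (i, i, j)) / s ^ 2 with hθ
        have hν : ∀ j k l, θ j * θ k * θ l = x (idx (j, k, l)) := by
          intro j k l
          have h1 := R1 i j k l
          rw [← hs] at h1
          simp only [hθ]
          rw [div_mul_div_comm, div_mul_div_comm, h1]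
          field_simp
        obtain ⟨u, hu⟩ := cbrt (θ 2)
        obtain ⟨v, hv⟩ := cbrt (θ 3)
        obtain ⟨w, hw⟩ := cbrt (θ 0)
        have huvw : u * v * w = θ 1 := by
          have h3 : (u * v * w) ^ 3 = θ 1 ^ 3 := by
            have e1 := hν 0 2 3
            have e2 := hν 1 1 1
            rw [R3, ← e2] at e1
            calc (u * v * w) ^ 3 = w ^ 3 * u ^ 3 * v ^ 3 := by ring
              _ = θ 0 * θ 2 * θ 3 := by rw [hu, hv, hw]
              _ = θ 1 * θ 1 * θ 1 := e1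
              _ = θ 1 ^ 3 := by ring
          exact (Odd.strictMono_pow (by decide : Odd 3)).injective h3
        refine ⟨![u, v, w], ?_⟩
        have hth : th ![u, v, w] = θ := by
          funext j
          fin_cases j
          · show w ^ 3 = θ 0; exact hw
          · show u * v * w = θ 1; exact huvw
          · show u ^ 3 = θ 2; exact hu
          · show v ^ 3 = θ 3; exact hv
        show nu (th ![u, v, w]) = x
        rw [hth]
        funext t
        obtain ⟨⟨j, k, l⟩, rfl⟩ := idx.surjective t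
        rw [nu_idx]
        exact hν j k l

/-- the point of `VV` with parameters `q` -/
def pt (q : Fin 3 → ℝ) : VV := ⟨nu (th q), q, rfl⟩

lemma pt_surj (x : VV) : ∃ q, x = pt q := by
  obtain ⟨x, q, rfl⟩ := x
  exact ⟨q, rfl⟩

lemma restr_pt (p : MvPolynomial (Fin (63 + 1)) ℝ) (q : Fin 3 → ℝ) :
    restr VV p (pt q) = Ev q p := by
  show eval (nu (th q)) p = aeval (nu (th q)) p
  exact (DFunLike.congr_fun (MvPolynomial.coe_aeval_eq_eval (nu (th q))) p).symm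

/-- `C` times the linear form with coefficients `c` -/
def pC (c : Fin 4 → ℝ) : MvPolynomial (Fin 64) ℝ :=
  lin ![1, 0, 0, 0] ![1, 0, 0, 0] c + lin ![0, 0, 1, 0] ![0, 0, 1, 0] c +
    lin ![0, 0, 0, 1] ![0, 0, 0, 1] c - C 3 * lin ![0, 1, 0, 0] ![0, 1, 0, 0] c

lemma pC_hom (c : Fin 4 → ℝ) : (pC c).IsHomogeneous 1 :=
  (((lin_hom _ _ _).add (lin_hom _ _ _)).add (lin_hom _ _ _)).sub ((lin_hom _ _ _).C_mul 3)

lemma Ev_pC {A : Type} [CommRing A] [Algebra ℝ A] (x : Fin 3 → A) (c : Fin 4 → ℝ) :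
    Ev x (pC c) = Cc x * ∑ i, algebraMap ℝ A (c i) * th x i := by
  have h : Ev x (pC c) = Ev x (lin ![1, 0, 0, 0] ![1, 0, 0, 0] c)
      + Ev x (lin ![0, 0, 1, 0] ![0, 0, 1, 0] c) + Ev x (lin ![0, 0, 0, 1] ![0, 0, 0, 1] c)
      - algebraMap ℝ A 3 * Ev x (lin ![0, 1, 0, 0] ![0, 1, 0, 0] c) := by
    unfold Ev pC
    simp only [map_add, map_sub, map_mul, aeval_C]
  rw [h, Ev_lin, Ev_lin, Ev_lin, Ev_lin]
  have h3 : algebraMap ℝ A 3 = 3 := map_ofNat _ 3
  have s0 : ∑ i, algebraMap ℝ A ((![1, 0, 0, 0] : Fin 4 → ℝ) i) * th x i = x 2 ^ 3 := by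
    simp [Fin.sum_univ_four, th]
  have s1 : ∑ i, algebraMap ℝ A ((![0, 1, 0, 0] : Fin 4 → ℝ) i) * th x i = x 0 * x 1 * x 2 := by
    simp [Fin.sum_univ_four, th]
  have s2 : ∑ i, algebraMap ℝ A ((![0, 0, 1, 0] : Fin 4 → ℝ) i) * th x i = x 0 ^ 3 := by
    simp [Fin.sum_univ_four, th]
  have s3 : ∑ i, algebraMap ℝ A ((![0, 0, 0, 1] : Fin 4 → ℝ) i) * th x i = x 1 ^ 3 := by
    simp [Fin.sum_univ_four, th]
  rw [s0, s1, s2, s3, h3]
  unfold Cc
  ring

/-- the quadratic form with value `C²(A₁²+A₂²+A₃²)` -/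
def pB : MvPolynomial (Fin 64) ℝ := pC c1 ^ 2 + pC c2 ^ 2 + pC c3 ^ 2
/-- the stubborn quadratic form `C²(A₁²+A₂²+A₃²) - (A₁A₂A₃)²/6` -/
def pF : MvPolynomial (Fin 64) ℝ := pB - C (1 / 6) * p0 ^ 2
/-- the sum of squares `C²(A₁²+A₂²+A₃²) + (A₁A₂A₃)²` -/
def pG : MvPolynomial (Fin 64) ℝ := pB + p0 ^ 2

lemma pB_hom : pB.IsHomogeneous 2 := by
  have h : ∀ c, (pC c ^ 2).IsHomogeneous 2 := fun c => by
    have := (pC_hom c).pow 2; rwa [one_mul] at this
  exact ((h _).add (h _)).add (h _)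

lemma p0_hom2 : (p0 ^ 2).IsHomogeneous 2 := by
  have := (lin_hom c1 c2 c3).pow 2; rwa [one_mul] at this

lemma pF_hom : pF.IsHomogeneous 2 := pB_hom.sub (p0_hom2.C_mul _)
lemma pG_hom : pG.IsHomogeneous 2 := pB_hom.add p0_hom2

lemma Ev_pB {A : Type} [CommRing A] [Algebra ℝ A] (x : Fin 3 → A) : Ev x pB = BB x := by
  have h : Ev x pB = (Ev x (pC c1)) ^ 2 + (Ev x (pC c2)) ^ 2 + (Ev x (pC c3)) ^ 2 := by
    unfold Ev pB; simp only [map_add, map_pow]
  rw [h, Ev_pC, Ev_pC, Ev_pC, sum_c1, sum_c2, sum_c3]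
  unfold BB; ring

lemma Ev_pF {A : Type} [CommRing A] [Algebra ℝ A] (x : Fin 3 → A) :
    Ev x pF = BB x - algebraMap ℝ A (1 / 6) * (Ev x p0) ^ 2 := by
  have h : Ev x pF = Ev x pB - algebraMap ℝ A (1 / 6) * (Ev x p0) ^ 2 := by
    unfold Ev pF; simp only [map_sub, map_mul, map_pow, aeval_C]
  rw [h, Ev_pB]

lemma Ev_pG {A : Type} [CommRing A] [Algebra ℝ A] (x : Fin 3 → A) :
    Ev x pG = BB x + (Ev x p0) ^ 2 := by
  have h : Ev x pG = Ev x pB + (Ev x p0) ^ 2 := by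
    unfold Ev pG; simp only [map_add, map_pow]
  rw [h, Ev_pB]

lemma p0_le (q : Fin 3 → ℝ) : (Ev q p0) ^ 2 ≤ 3 * BB q := by rw [Ev_p0]; exact key_ineq q

lemma F_bounds (q : Fin 3 → ℝ) : 1 / 2 * BB q ≤ Ev q pF ∧ Ev q pF ≤ BB q := by
  rw [Ev_pF]
  have h := p0_le q
  have h2 := sq_nonneg (Ev q p0)
  simp only [Algebra.algebraMap_self, RingHom.id_apply]
  constructor <;> linarith

lemma G_bounds (q : Fin 3 → ℝ) : 1 * BB q ≤ Ev q pG ∧ Ev q pG ≤ 4 * BB q := by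
  rw [Ev_pG]
  have h := p0_le q
  have h2 := sq_nonneg (Ev q p0)
  constructor <;> linarith

lemma BB_Q1 : BB Q1 = 0 := by
  have h : Cc Q1 = 0 := by
    have hI : Complex.I ^ 6 = -1 := by
      rw [show Complex.I ^ 6 = (Complex.I ^ 2) ^ 3 by ring, Complex.I_sq]; norm_num
    simp [Cc, Q1, mul_pow, hI]
  unfold BB; rw [h]; ring

lemma stub_F : Stubborn VV (restr VV pF) := by
  rintro k hk ⟨r, G, hG, hsum⟩
  have hp : ∀ i, ∃ p : MvPolynomial (Fin (63 + 1)) ℝ, p.IsHomogeneous k ∧ restr VV p = G i := by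
    intro i
    obtain ⟨p, hp1, hp2⟩ := Submodule.mem_map.mp (hG i)
    exact ⟨p, (mem_homogeneousSubmodule k p).mp hp1, hp2⟩
  choose p hph hpr using hp
  have hval : ∀ q : Fin 3 → ℝ, (Ev q pF) ^ k = ∑ i, (Ev q (p i)) ^ 2 := by
    intro q
    have h1 := congrFun hsum (pt q)
    rw [Pi.pow_apply, restr_pt, Finset.sum_apply] at h1
    rw [h1]
    refine Finset.sum_congr rfl fun i _ => ?_
    rw [Pi.pow_apply, ← hpr i, restr_pt]
  have hle : ∀ i, ∀ q : Fin 3 → ℝ, (Ev q (p i)) ^ 2 ≤ 1 * (BB q) ^ k := by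
    intro i q
    have h1 : (Ev q (p i)) ^ 2 ≤ ∑ j, (Ev q (p j)) ^ 2 :=
      Finset.single_le_sum (f := fun j => (Ev q (p j)) ^ 2) (fun j _ => sq_nonneg _)
        (Finset.mem_univ i)
    rw [← hval q] at h1
    rw [one_mul]
    refine h1.trans (pow_le_pow_left₀ ?_ (F_bounds q).2 k)
    have := (F_bounds q).1
    have := BB_nonneg q
    linarith
  have hγ : ∀ i, ∃ γ : ℝ, Ev Q1 (p i) = γ * (Ev Q1 p0) ^ k := fun i => real_ratio (hph i) (hle i)
  choose γ hγ' using hγ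
  have hpoly : (Ev (X : Fin 3 → MvPolynomial (Fin 3) ℝ) pF) ^ k
      = ∑ i, (Ev (X : Fin 3 → MvPolynomial (Fin 3) ℝ) (p i)) ^ 2 := by
    apply MvPolynomial.funext
    intro y
    have hev : ∀ P : MvPolynomial (Fin 64) ℝ,
        eval y (Ev (X : Fin 3 → MvPolynomial (Fin 3) ℝ) P) = Ev y P := by
      intro P
      have h := map_Ev (aeval y : MvPolynomial (Fin 3) ℝ →ₐ[ℝ] ℝ) X P
      have h' : eval y (Ev (X : Fin 3 → MvPolynomial (Fin 3) ℝ) P)
          = aeval y (Ev (X : Fin 3 → MvPolynomial (Fin 3) ℝ) P) :=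
        (DFunLike.congr_fun (MvPolynomial.coe_aeval_eq_eval y) _).symm
      rw [h', h]
      congr 1
      funext j
      exact aeval_X _ j
    rw [map_pow, map_sum, hev, hval]
    refine Finset.sum_congr rfl fun i _ => ?_
    rw [map_pow, hev]
  have hev1 : ∀ P : MvPolynomial (Fin 64) ℝ,
      aeval Q1 (Ev (X : Fin 3 → MvPolynomial (Fin 3) ℝ) P) = Ev Q1 P := by
    intro P
    rw [map_Ev]
    congr 1
    funext j
    exact aeval_X _ j
  have hC := congrArg (aeval Q1 : MvPolynomial (Fin 3) ℝ →ₐ[ℝ] ℂ) hpoly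
  rw [map_pow, map_sum, hev1, Ev_pF, BB_Q1] at hC
  have hR : ∀ i, aeval Q1 ((Ev (X : Fin 3 → MvPolynomial (Fin 3) ℝ) (p i)) ^ 2)
      = ((γ i : ℂ)) ^ 2 * ((Ev Q1 p0) ^ k) ^ 2 := by
    intro i
    rw [map_pow, hev1, hγ' i]; ring
  simp only [hR] at hC
  rw [← Finset.sum_mul] at hC
  have hL : ((Ev Q1 p0) ^ k) ^ 2 ≠ 0 := pow_ne_zero _ (pow_ne_zero _ Q1_ne)
  have hfin : ((-(1 / 6 : ℝ)) ^ k : ℝ) = ∑ i, (γ i) ^ 2 := by
    have h1 : ((-(1 / 6 : ℂ)) ^ k) * ((Ev Q1 p0) ^ k) ^ 2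
        = (∑ i, ((γ i : ℂ)) ^ 2) * ((Ev Q1 p0) ^ k) ^ 2 := by
      rw [← hC]
      have : (0 - algebraMap ℝ ℂ (1 / 6) * Ev Q1 p0 ^ 2) = (-(1 / 6 : ℂ)) * Ev Q1 p0 ^ 2 := by
        simp
      rw [this, mul_pow]; ring
    have h2 := mul_right_cancel₀ hL h1
    apply Complex.ofReal_injective
    push_cast
    exact h2
  have hneg : ((-(1 / 6 : ℝ)) ^ k : ℝ) < 0 := by
    rw [Odd.neg_pow hk]
    have : (0 : ℝ) < (1 / 6) ^ k := by positivity
    linarith
  have hpos : 0 ≤ ∑ i, (γ i) ^ 2 := Finset.sum_nonneg fun i _ => sq_nonneg _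
  linarith

lemma sos_G' : IsSOS VV 1 (restr VV pG) := by
  refine ⟨4, ![restr VV (pC c1), restr VV (pC c2), restr VV (pC c3), restr VV p0],
    ?_, ?_⟩
  · have hm : ∀ p : MvPolynomial (Fin (63 + 1)) ℝ, p.IsHomogeneous 1 →
        restr VV p ∈ forms VV 1 := fun p hp =>
      Submodule.mem_map.mpr ⟨p, (mem_homogeneousSubmodule 1 p).mpr hp, rfl⟩
    intro i
    fin_cases i
    · exact hm _ (pC_hom _)
    · exact hm _ (pC_hom _)
    · exact hm _ (pC_hom _)
    · exact hm _ (lin_hom _ _ _)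
  · funext x
    obtain ⟨q, rfl⟩ := pt_surj x
    rw [restr_pt, Finset.sum_apply, Fin.sum_univ_four]
    show Ev q pG = restr VV (pC c1) (pt q) ^ 2 + restr VV (pC c2) (pt q) ^ 2 +
      restr VV (pC c3) (pt q) ^ 2 + restr VV p0 (pt q) ^ 2
    rw [restr_pt, restr_pt, restr_pt, restr_pt, Ev_pG, ← Ev_pB]
    have : Ev q pB = (Ev q (pC c1)) ^ 2 + (Ev q (pC c2)) ^ 2 + (Ev q (pC c3)) ^ 2 := by
      unfold Ev pB; simp only [map_add, map_pow]
    rw [this]

lemma sos_G : ¬ Stubborn VV (restr VV pG) := by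
  intro h
  refine h 1 odd_one ?_
  rw [pow_one]
  exact sos_G'

end

end Pool.Agent.X94.Stub
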