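import Mathlib

set_option autoImplicit false

namespace Pool.Agent.X94.LocLie

open NormedSpace Filter Topology

section abstractAlg

variable {E : Type*} [NormedRing E] [NormedAlgebra ℝ E] [CompleteSpace E]

lemma exp_add_smul (X : E) (s t : ℝ) : exp ((s + t) • X) = exp (s • X) * exp (t • X) := by
  letI : NormedAlgebra ℚ E := NormedAlgebra.restrictScalars ℚ ℝ E
  rw [add_smul]
  exact exp_add_of_commute ((Commute.refl X).smul_left s |>.smul_right t)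

lemma exp_neg_mul (X : E) (t : ℝ) : exp ((-t) • X) * exp (t • X) = 1 := by
  rw [← exp_add_smul]
  simp

lemma exp_mul_neg (X : E) (t : ℝ) : exp (t • X) * exp ((-t) • X) = 1 := by
  rw [← exp_add_smul]
  simp

lemma exp_zero_smul (X : E) : exp ((0 : ℝ) • X) = 1 := by rw [zero_smul, exp_zero]

lemma exp_one_smul (X : E) : exp ((1 : ℝ) • X) = exp X := by rw [one_smul]

lemma norm_smul_abs (X : E) (s : ℝ) : ‖s • X‖ = |s| * ‖X‖ := by
  rw [norm_smul, Real.norm_eq_abs]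

lemma norm_smul_le' (X : E) {s : ℝ} (hs : |s| ≤ 1) : ‖s • X‖ ≤ ‖X‖ := by
  rw [norm_smul, Real.norm_eq_abs]
  exact mul_le_of_le_one_left (norm_nonneg _) hs

lemma exp_small {ρ : ℝ} (hρ : 0 < ρ) : ∃ ε : ℝ, 0 < ε ∧ ∀ Y : E, ‖Y‖ < ε → ‖exp Y - 1‖ ≤ ρ := by
  have h1 : ContinuousAt (exp : E → E) 0 := (hasStrictFDerivAt_exp_zero (𝕂 := ℝ)).continuousAt
  rw [Metric.continuousAt_iff] at h1
  obtain ⟨ε, hε, h⟩ := h1 ρ hρ
  refine ⟨ε, hε, fun Y hY => ?_⟩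
  have := h (x := Y) (by rwa [dist_zero_right])
  rw [exp_zero, dist_eq_norm] at this
  exact this.le

lemma exp_onto {ε : ℝ} (hε : 0 < ε) : ∃ δ : ℝ, 0 < δ ∧ ∀ h : E, ‖h - 1‖ < δ →
    ∃ D : E, ‖D‖ < ε ∧ exp D = h := by
  have h1 : HasStrictFDerivAt (exp : E → E) ((ContinuousLinearEquiv.refl ℝ E : E ≃L[ℝ] E) : E →L[ℝ] E) 0 :=
    hasStrictFDerivAt_exp_zero (𝕂 := ℝ)
  have h2 := h1.map_nhds_eq_of_equiv
  rw [exp_zero] at h2
  have h3 : exp '' (Metric.ball (0 : E) ε) ∈ 𝓝 (1 : E) := by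
    rw [← h2]
    exact image_mem_map (Metric.ball_mem_nhds 0 hε)
  obtain ⟨δ, hδ, h4⟩ := Metric.mem_nhds_iff.mp h3
  refine ⟨δ, hδ, fun h hh => ?_⟩
  obtain ⟨D, hD, hD2⟩ := h4 (show h ∈ Metric.ball (1 : E) δ by rwa [Metric.mem_ball, dist_eq_norm])
  exact ⟨D, by simpa using hD, hD2⟩

lemma hasDerivAt_exp (X : E) (t : ℝ) :
    HasDerivAt (fun s : ℝ => exp (s • X)) (exp (t • X) * X) t := hasDerivAt_exp_smul_const X t

lemma hasDerivAt_exp' (X : E) (t : ℝ) :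
    HasDerivAt (fun s : ℝ => exp (s • X)) (X * exp (t • X)) t := hasDerivAt_exp_smul_const' X t

lemma hasDerivAt_exp_neg (X : E) (t : ℝ) :
    HasDerivAt (fun s : ℝ => exp ((-s) • X)) (-(exp ((-t) • X) * X)) t := by
  have h := (hasDerivAt_exp (-X) t)
  simpa [neg_smul, smul_neg] using h

end abstractAlg

end Pool.Agent.X94.LocLie
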