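import Mathlib
import Pool.Agent.X94.LocLieA

set_option autoImplicit false

namespace Pool.Agent.X94.LocLie

open NormedSpace Filter Topology

variable {𝕜 : Type*} [RCLike 𝕜] {A : Type*} [NormedAddCommGroup A] [NormedSpace 𝕜 A]

/-- derivations, operator form -/
def IsDer (μ : A →L[𝕜] A →L[𝕜] A) (D : A →L[𝕜] A) : Prop :=
  ∀ a, D * μ a = μ (D a) + μ a * D

/-- automorphisms, operator form -/
def IsAut (μ : A →L[𝕜] A →L[𝕜] A) (g : A →L[𝕜] A) : Prop :=
  (∃ k : A →L[𝕜] A, g * k = 1 ∧ k * g = 1) ∧ ∀ a, g * μ a = μ (g a) * g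

lemma IsAut.one (μ : A →L[𝕜] A →L[𝕜] A) : IsAut μ 1 :=
  ⟨⟨1, by simp, by simp⟩, fun a => by simp⟩

lemma IsAut.mul {μ : A →L[𝕜] A →L[𝕜] A} {g h : A →L[𝕜] A} (hg : IsAut μ g) (hh : IsAut μ h) :
    IsAut μ (g * h) := by
  obtain ⟨⟨k, k1, k2⟩, g2⟩ := hg
  obtain ⟨⟨l, l1, l2⟩, h2⟩ := hh
  refine ⟨⟨l * k, ?_, ?_⟩, fun a => ?_⟩
  · calc g * h * (l * k) = g * (h * l) * k := by simp only [mul_assoc]
      _ = 1 := by rw [l1, mul_one, k1]
  · calc l * k * (g * h) = l * (k * g) * h := by simp only [mul_assoc]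
      _ = 1 := by rw [k2, mul_one, l2]
  · calc g * h * μ a = g * (μ (h a) * h) := by rw [mul_assoc, h2]
      _ = (g * μ (h a)) * h := by rw [mul_assoc]
      _ = μ (g (h a)) * g * h := by rw [g2]
      _ = μ ((g * h) a) * (g * h) := by rw [mul_assoc]; rfl

lemma IsAut.inv {μ : A →L[𝕜] A →L[𝕜] A} {g k : A →L[𝕜] A} (hg : IsAut μ g) (h1 : g * k = 1)
    (h2 : k * g = 1) : IsAut μ k := by
  refine ⟨⟨g, h2, h1⟩, fun a => ?_⟩
  have h3 : g (k a) = a := by
    have := congrArg (fun f : A →L[𝕜] A => f a) h1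
    simpa using this
  calc k * μ a = k * μ (g (k a)) * (g * k) := by rw [h3, h1, mul_one]
    _ = k * (μ (g (k a)) * g) * k := by simp only [mul_assoc]
    _ = k * (g * μ (k a)) * k := by rw [hg.2]
    _ = (k * g) * μ (k a) * k := by simp only [mul_assoc]
    _ = μ (k a) * k := by rw [h2, one_mul]

lemma IsDer.conj {μ : A →L[𝕜] A →L[𝕜] A} {g k D : A →L[𝕜] A} (hg : IsAut μ g) (h1 : g * k = 1)
    (h2 : k * g = 1) (hD : IsDer μ D) : IsDer μ (g * D * k) := by
  have hk := hg.inv h1 h2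
  intro a
  have h3 : g (k a) = a := by
    have := congrArg (fun f : A →L[𝕜] A => f a) h1
    simpa using this
  calc g * D * k * μ a = g * (D * (k * μ a)) := by simp only [mul_assoc]
    _ = g * (D * (μ (k a) * k)) := by rw [hk.2]
    _ = g * ((D * μ (k a)) * k) := by simp only [mul_assoc]
    _ = g * ((μ (D (k a)) + μ (k a) * D) * k) := by rw [hD]
    _ = (g * μ (D (k a))) * k + (g * μ (k a)) * D * k := by
        simp only [add_mul, mul_add, mul_assoc]
    _ = (μ (g (D (k a))) * g) * k + (μ (g (k a)) * g) * D * k := by rw [hg.2, hg.2]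
    _ = μ (g (D (k a))) * (g * k) + μ (g (k a)) * (g * D * k) := by simp only [mul_assoc]
    _ = μ ((g * D * k) a) + μ a * (g * D * k) := by rw [h1, mul_one, h3]; rfl

/-- the space of derivations -/
def derSub (μ : A →L[𝕜] A →L[𝕜] A) : Submodule 𝕜 (A →L[𝕜] A) where
  carrier := {D | IsDer μ D}
  add_mem' := by
    intro D D' h h' a
    simp only [Set.mem_ofPred_eq] at h h'
    rw [add_mul, h a, h' a, mul_add, add_apply, map_add]
    abel
  zero_mem' := by
    intro a
    simp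
  smul_mem' := by
    intro c D h a
    simp only [Set.mem_ofPred_eq] at h
    rw [smul_mul_assoc, h a, mul_smul_comm, smul_apply, map_smul, smul_add]

lemma exists_section [FiniteDimensional 𝕜 A] (μ : A →L[𝕜] A →L[𝕜] A) (y : A) :
    ∃ S : A →L[𝕜] (A →L[𝕜] A), (∀ v, IsDer μ (S v)) ∧ ∀ D, IsDer μ D → S (D y) y = D y := by
  let ev : derSub μ →ₗ[𝕜] A :=
    { toFun := fun D => D.1 y
      map_add' := fun D D' => by simp
      map_smul' := fun c D => by simp }
  obtain ⟨s, hs⟩ := ev.rangeRestrict.exists_rightInverse_of_surjective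
    (LinearMap.range_rangeRestrict ev)
  obtain ⟨π, hπ⟩ := (ev.range).subtype.exists_leftInverse_of_injective (Submodule.ker_subtype _)
  refine ⟨LinearMap.toContinuousLinearMap ((derSub μ).subtype ∘ₗ s ∘ₗ π), fun v => ?_, ?_⟩
  · exact (s (π v)).2
  · intro D hD
    have h1 : D y ∈ ev.range := ⟨⟨D, hD⟩, rfl⟩
    have h2 : π (D y) = ⟨D y, h1⟩ := by
      have := LinearMap.congr_fun hπ ⟨D y, h1⟩
      simpa using this
    have h3 : ev (s ⟨D y, h1⟩) = D y := by
      have := LinearMap.congr_fun hs ⟨D y, h1⟩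
      exact congrArg Subtype.val this
    show (s (π (D y))).1 y = D y
    rw [h2]
    exact h3

lemma const_of_deriv {E : Type*} [NormedAddCommGroup E] [NormedSpace ℝ E] {f : ℝ → E} {δ : ℝ}
    (hδ : 0 < δ) (h : ∀ t, |t| < δ → HasDerivAt f 0 t) {t : ℝ} (ht : |t| < δ) : f t = f 0 := by
  have hs : IsOpen (Set.Ioo (-δ) δ) := isOpen_Ioo
  refine hs.is_const_of_deriv_eq_zero (isPreconnected_Ioo) ?_ ?_ ?_ ?_
  · intro x hx
    exact (h x (abs_lt.mpr hx)).differentiableAt.differentiableWithinAt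
  · intro x hx
    exact (h x (abs_lt.mpr hx)).deriv
  · exact abs_lt.mp ht
  · exact ⟨by linarith, hδ⟩

lemma local_flow [FiniteDimensional 𝕜 A] [NormedAlgebra ℝ (A →L[𝕜] A)]
    [IsScalarTower ℝ 𝕜 (A →L[𝕜] A)] (μ : A →L[𝕜] A →L[𝕜] A) (X : A →L[𝕜] A)
    (hX : ∀ x, ∃ D, IsDer μ D ∧ X x = D x) (y : A) :
    ∃ δ : ℝ, 0 < δ ∧ ∀ t : ℝ, |t| < δ → ∃ g, IsAut μ g ∧ exp (t • X) y = g y := by
  have : CompleteSpace A := FiniteDimensional.complete 𝕜 A
  by_cases hy : y = 0
  · refine ⟨1, one_pos, fun t _ => ⟨1, IsAut.one μ, ?_⟩⟩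
    rw [hy]; simp
  obtain ⟨S, hS1, hS2⟩ := exists_section μ y
  let Sd : (A →L[𝕜] A) →L[ℝ] (A →L[𝕜] A) :=
    (S.comp (ContinuousLinearMap.apply 𝕜 A y)).restrictScalars ℝ
  have hSd : ∀ h, Sd h = S (h y) := fun h => rfl
  let F : (A →L[𝕜] A) → (A →L[𝕜] A) := fun h => -(Sd (h * X * Ring.inverse h) * h)
  have hF : ContDiffAt ℝ 1 F 1 := by
    have h1 : ContDiffAt ℝ 1 (Ring.inverse : (A →L[𝕜] A) → (A →L[𝕜] A)) 1 := by
      have := contDiffAt_ringInverse (n := 1) ℝ (1 : (A →L[𝕜] A)ˣ)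
      simpa using this
    have h2 : ContDiffAt ℝ 1 (fun h : A →L[𝕜] A => h * X * Ring.inverse h) 1 :=
      (contDiffAt_id.mul contDiffAt_const).mul h1
    exact ((Sd.contDiff.contDiffAt.comp (1 : A →L[𝕜] A) h2).mul contDiffAt_id).neg
  obtain ⟨r, hr, ε, hε, hall⟩ := hF.exists_forall_mem_closedBall_exists_eq_forall_mem_Ioo_hasDerivAt 0
  obtain ⟨α, hα0, hα⟩ := hall 1 (Metric.mem_closedBall_self hr.le)
  have hcont : ContinuousAt α 0 := (hα 0 ⟨by linarith, by linarith⟩).continuousAt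
  have hU : ∀ᶠ t in 𝓝 (0 : ℝ), IsUnit (α t) :=
    hcont.eventually (Units.isOpen.mem_nhds (by rw [hα0]; exact isUnit_one))
  obtain ⟨δ1, hδ1, hU1⟩ := Metric.eventually_nhds_iff.mp hU
  set δ := min δ1 ε with hδ
  have hδ0 : 0 < δ := lt_min hδ1 hε
  have hunit : ∀ t, |t| < δ → IsUnit (α t) := by
    intro t ht
    apply hU1
    rw [dist_zero_right, Real.norm_eq_abs]
    exact ht.trans_le (min_le_left _ _)
  have hder : ∀ t, |t| < δ → HasDerivAt α (F (α t)) t := by
    intro t ht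
    have := abs_lt.mp (ht.trans_le (min_le_right _ _))
    exact hα t ⟨by linarith [this.1], by linarith [this.2]⟩
  let g : ℝ → (A →L[𝕜] A) := fun t => Ring.inverse (α t)
  have hag : ∀ t, |t| < δ → α t * g t = 1 := fun t ht => Ring.mul_inverse_cancel _ (hunit t ht)
  have hga : ∀ t, |t| < δ → g t * α t = 1 := fun t ht => Ring.inverse_mul_cancel _ (hunit t ht)
  let Dt : ℝ → (A →L[𝕜] A) := fun t => Sd (α t * X * g t)
  have hDt : ∀ t, IsDer μ (Dt t) := fun t => hS1 _
  have hα' : ∀ t, |t| < δ → HasDerivAt α (-(Dt t * α t)) t := fun t ht => hder t ht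
  have hg' : ∀ t, |t| < δ → HasDerivAt g (g t * Dt t) t := by
    intro t ht
    obtain ⟨u, hu⟩ := hunit t ht
    have h1 := (hasFDerivAt_ringInverse (𝕜 := ℝ) u)
    rw [hu] at h1
    have h2 := h1.comp_hasDerivAt t (hα' t ht)
    have h3 : ((u⁻¹ : (A →L[𝕜] A)ˣ) : A →L[𝕜] A) = g t := by
      show _ = Ring.inverse (α t)
      rw [← hu, Ring.inverse_unit]
    rw [h3] at h2
    have h4 : (-((ContinuousLinearMap.mulLeftRight ℝ (A →L[𝕜] A)) (g t)) (g t)) (-(Dt t * α t)) =
        g t * Dt t := by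
      rw [neg_apply, ContinuousLinearMap.mulLeftRight_apply]
      calc -(g t * -(Dt t * α t) * g t) = g t * Dt t * (α t * g t) := by noncomm_ring
        _ = g t * Dt t := by rw [hag t ht, mul_one]
    rw [h4] at h2
    exact h2
  -- automorphisms
  have haut : ∀ t, |t| < δ → IsAut μ (α t) := by
    intro t ht
    refine ⟨⟨g t, hag t ht, hga t ht⟩, fun a => ?_⟩
    let La : (A →L[𝕜] A) →L[ℝ] (A →L[𝕜] A) :=
      (μ.comp (ContinuousLinearMap.apply 𝕜 A a)).restrictScalars ℝ
    have hLa : ∀ h, La h = μ (h a) := fun h => rfl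
    have h1 : ∀ s, |s| < δ → HasDerivAt (fun s => g s * La (α s) * α s) 0 s := by
      intro s hs
      have d1 : HasDerivAt (fun s => La (α s)) (La (-(Dt s * α s))) s :=
        La.hasFDerivAt.comp_hasDerivAt s (hα' s hs)
      have d2 := ((hg' s hs).mul d1).mul (hα' s hs)
      refine d2.congr_deriv ?_
      show (g s * Dt s * La (α s) + g s * La (-(Dt s * α s))) * α s +
        g s * La (α s) * -(Dt s * α s) = 0
      have e1 := hDt s (α s a)
      have e2 : La (-(Dt s * α s)) = -μ (Dt s (α s a)) := by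
        rw [hLa, neg_apply, map_neg]; rfl
      rw [e2, hLa]
      have e3 : g s * Dt s * μ (α s a) = g s * (μ (Dt s (α s a)) + μ (α s a) * Dt s) := by
        rw [mul_assoc, e1]
      rw [e3]
      noncomm_ring
    have h2 := const_of_deriv hδ0 h1 ht
    have h3 : g 0 = 1 := by
      show Ring.inverse (α 0) = 1
      rw [hα0]; simp
    simp only [hα0, h3, hLa] at h2
    have h4 : g t * μ (α t a) * α t = μ a := by simpa using h2
    calc α t * μ a = α t * (g t * μ (α t a) * α t) := by rw [h4]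
      _ = (α t * g t) * μ (α t a) * α t := by simp only [mul_assoc]
      _ = μ (α t a) * α t := by rw [hag t ht, one_mul]
  have hgaut : ∀ t, |t| < δ → IsAut μ (g t) := fun t ht =>
    (haut t ht).inv (hag t ht) (hga t ht)
  have hDy : ∀ t, |t| < δ → Dt t y = (α t * X * g t) y := by
    intro t ht
    obtain ⟨D, hD, hD2⟩ := hX (g t y)
    have h1 : (α t * X * g t) y = (α t * D * g t) y := by
      show α t (X (g t y)) = α t (D (g t y))
      rw [hD2]
    show S ((α t * X * g t) y) y = _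
    rw [h1]
    exact hS2 _ (IsDer.conj (haut t ht) (hag t ht) (hga t ht) hD)
  obtain ⟨f, hf⟩ := SeparatingDual.exists_eq_one (R := 𝕜) hy
  let P : A →L[𝕜] A := ContinuousLinearMap.smulRight f y
  have hP : ∀ K : A →L[𝕜] A, K * P = ContinuousLinearMap.smulRight f (K y) := by
    intro K
    ext v
    show K (f v • y) = f v • K y
    rw [map_smul]
  have hR : ∀ s, |s| < δ → HasDerivAt (fun s => exp ((-s) • X) * g s * P) 0 s := by
    intro s hs
    have d := ((hasDerivAt_exp_neg X s).mul (hg' s hs)).mul_const P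
    refine d.congr_deriv ?_
    show (-(exp ((-s) • X) * X) * g s + exp ((-s) • X) * (g s * Dt s)) * P = 0
    have e1 : (-(exp ((-s) • X) * X) * g s + exp ((-s) • X) * (g s * Dt s)) * P =
        exp ((-s) • X) * ((-(X * g s) + g s * Dt s) * P) := by noncomm_ring
    rw [e1, hP]
    have e2 : (-(X * g s) + g s * Dt s) y = 0 := by
      show -(X (g s y)) + g s (Dt s y) = 0
      rw [hDy s hs]
      have e3 : g s ((α s * X * g s) y) = X (g s y) := by
        show (g s * α s) (X (g s y)) = X (g s y)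
        rw [hga s hs]; rfl
      rw [e3]; simp
    rw [e2]
    simp
  refine ⟨δ, hδ0, fun t ht => ⟨g t, hgaut t ht, ?_⟩⟩
  have h1 := const_of_deriv hδ0 hR ht
  have h3 : g 0 = 1 := by
    show Ring.inverse (α 0) = 1
    rw [hα0]; simp
  have h2 : exp ((-t) • X) * g t * P = P := by
    have : exp ((-(0:ℝ)) • X) * g 0 * P = P := by
      rw [h3, neg_zero, exp_zero_smul, one_mul, one_mul]
    rw [this] at h1
    exact h1
  have h4 := congrArg (fun K : A →L[𝕜] A => (exp (t • X) * K) y) h2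
  have h5 : (exp (t • X) * (exp ((-t) • X) * g t * P)) y = g t y := by
    have e : exp (t • X) * (exp ((-t) • X) * g t * P) = (exp (t • X) * exp ((-t) • X)) * g t * P := by
      noncomm_ring
    rw [e, exp_mul_neg, one_mul, hP]
    show f y • g t y = g t y
    rw [hf, one_smul]
  have h6 : (exp (t • X) * P) y = exp (t • X) y := by
    rw [hP]
    show f y • exp (t • X) y = _
    rw [hf, one_smul]
  have h7 : (exp (t • X) * (exp ((-t) • X) * g t * P)) y = (exp (t • X) * P) y := h4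
  rw [h5, h6] at h7
  exact h7.symm

end Pool.Agent.X94.LocLie
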