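import Mathlib
import Pool.Agent.X94.LocLieB

set_option autoImplicit false

namespace Pool.Agent.X94.LocLie

open NormedSpace Filter Topology

variable {𝕜 : Type*} [RCLike 𝕜] {A : Type*} [NormedAddCommGroup A] [NormedSpace 𝕜 A]

section

variable [FiniteDimensional 𝕜 A] [NormedAlgebra ℝ (A →L[𝕜] A)]
    [IsScalarTower ℝ 𝕜 (A →L[𝕜] A)]

lemma flow_global (μ : A →L[𝕜] A →L[𝕜] A) (X : A →L[𝕜] A)
    (hX : ∀ x, ∃ D, IsDer μ D ∧ X x = D x) (y : A) (t : ℝ) :
    ∃ g, IsAut μ g ∧ exp (t • X) y = g y := by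
  have : CompleteSpace A := FiniteDimensional.complete 𝕜 A
  set T : Set ℝ := {t | ∃ g, IsAut μ g ∧ exp (t • X) y = g y} with hT
  have key : ∀ s u : ℝ, exp (u • X) y = exp ((u - s) • X) (exp (s • X) y) := by
    intro s u
    have h := exp_add_smul X (u - s) s
    rw [sub_add_cancel] at h
    rw [h]; rfl
  have hloc : ∀ s : ℝ, ∃ δ : ℝ, 0 < δ ∧ ∀ u, |u - s| < δ → ∃ g, IsAut μ g ∧
      exp (u • X) y = g (exp (s • X) y) := by
    intro s
    obtain ⟨δ, hδ, h⟩ := local_flow μ X hX (exp (s • X) y)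
    refine ⟨δ, hδ, fun u hu => ?_⟩
    obtain ⟨g, hg, h2⟩ := h (u - s) hu
    exact ⟨g, hg, by rw [key s u]; exact h2⟩
  have hopen : IsOpen T := by
    rw [Metric.isOpen_iff]
    intro s hs
    obtain ⟨δ, hδ, h⟩ := hloc s
    refine ⟨δ, hδ, fun u hu => ?_⟩
    rw [Metric.mem_ball, Real.dist_eq] at hu
    obtain ⟨g, hg, h2⟩ := h u hu
    obtain ⟨g', hg', h3⟩ := hs
    refine ⟨g * g', hg.mul hg', ?_⟩
    rw [h2, h3]; rfl
  have hclosed : IsClosed T := by
    rw [← isOpen_compl_iff, Metric.isOpen_iff]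
    intro s hs
    obtain ⟨δ, hδ, h⟩ := hloc s
    refine ⟨δ, hδ, fun u hu hu2 => hs ?_⟩
    rw [Metric.mem_ball, Real.dist_eq] at hu
    obtain ⟨g, hg, h2⟩ := h u hu
    obtain ⟨g', hg', h3⟩ := hu2
    obtain ⟨k, k1, k2⟩ := hg.1
    refine ⟨k * g', (hg.inv k1 k2).mul hg', ?_⟩
    have h4 : k (g (exp (s • X) y)) = exp (s • X) y := by
      have := congrArg (fun f : A →L[𝕜] A => f (exp (s • X) y)) k2
      simpa using this
    rw [← h4, ← h2, h3]; rfl
  have h0 : (0 : ℝ) ∈ T := by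
    refine ⟨1, IsAut.one μ, ?_⟩
    rw [exp_zero_smul]
  have huniv : T = Set.univ := by
    rcases isClopen_iff.mp ⟨hclosed, hopen⟩ with h | h
    · rw [h] at h0; exact absurd h0 (Set.notMem_empty _)
    · exact h
  have : t ∈ T := by rw [huniv]; trivial
  exact this

omit [FiniteDimensional 𝕜 A] [NormedAlgebra ℝ (A →L[𝕜] A)] [IsScalarTower ℝ 𝕜 (A →L[𝕜] A)] in
lemma norm_one_le' : ‖(1 : A →L[𝕜] A)‖ ≤ 1 := ContinuousLinearMap.norm_id_le

lemma log_der (μ : A →L[𝕜] A →L[𝕜] A) : ∃ ε : ℝ, 0 < ε ∧ ∀ D : A →L[𝕜] A, ‖D‖ < ε →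
    (∀ a, exp D * μ a = μ (exp D a) * exp D) → IsDer μ D := by
  have : CompleteSpace A := FiniteDimensional.complete 𝕜 A
  obtain ⟨ε, hε, hsmall⟩ := exp_small (E := A →L[𝕜] A) (ρ := 1/4) (by norm_num)
  refine ⟨ε, hε, fun D hD hmul => ?_⟩
  let W : A →L[𝕜] (A →L[𝕜] A) := ((ContinuousLinearMap.mul 𝕜 (A →L[𝕜] A)) D).comp μ - μ.comp D -
    ((ContinuousLinearMap.mul 𝕜 (A →L[𝕜] A)).flip D).comp μ
  have hW : ∀ a, W a = D * μ a - μ (D a) - μ a * D := fun a => rfl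
  have hbound : ∀ a, ‖W a‖ ≤ 0.96 * ‖W‖ * ‖a‖ := by
    intro a
    let La : (A →L[𝕜] A) →L[ℝ] (A →L[𝕜] A) :=
      (μ.comp (ContinuousLinearMap.apply 𝕜 A a)).restrictScalars ℝ
    have hLa : ∀ h, La h = μ (h a) := fun h => rfl
    let ψ : ℝ → (A →L[𝕜] A) := fun s => exp ((-s) • D) * La (exp (s • D)) * exp (s • D) + s • W a
    have hψ : ∀ s, HasDerivAt ψ (W a - exp ((-s) • D) * W (exp (s • D) a) * exp (s • D)) s := by
      intro s
      have d1 : HasDerivAt (fun s : ℝ => La (exp (s • D))) (La (D * exp (s • D))) s :=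
        La.hasFDerivAt.comp_hasDerivAt s (hasDerivAt_exp' D s)
      have d2 := ((hasDerivAt_exp_neg D s).mul d1).mul (hasDerivAt_exp' D s)
      have d3 : HasDerivAt (fun s : ℝ => s • W a) ((1 : ℝ) • W a) s :=
        (hasDerivAt_id s).smul_const (W a)
      refine (d2.add d3).congr_deriv ?_
      show (-(exp ((-s) • D) * D) * La (exp (s • D)) + exp ((-s) • D) * La (D * exp (s • D))) *
        exp (s • D) + exp ((-s) • D) * La (exp (s • D)) * (D * exp (s • D)) + (1 : ℝ) • W a = _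
      have e1 : La (D * exp (s • D)) = μ (D (exp (s • D) a)) := rfl
      rw [e1, hLa, hW (exp (s • D) a)]
      have e2 : (1 : ℝ) • W a = W a := one_smul ℝ (W a)
      rw [e2]
      noncomm_ring
    have hb : ∀ s ∈ Set.Ico (0 : ℝ) 1,
        ‖W a - exp ((-s) • D) * W (exp (s • D) a) * exp (s • D)‖ ≤ 0.96 * ‖W‖ * ‖a‖ := by
      intro s hs
      have hs1 : |s| ≤ 1 := by rw [abs_of_nonneg hs.1]; exact hs.2.le
      have u1 : ‖exp (s • D) - 1‖ ≤ 1/4 := hsmall _ ((norm_smul_le' D hs1).trans_lt hD)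
      have u2 : ‖exp ((-s) • D) - 1‖ ≤ 1/4 :=
        hsmall _ ((norm_smul_le' D (by rwa [abs_neg])).trans_lt hD)
      set u := exp (s • D) with hu
      set v := exp ((-s) • D) with hv
      have v3 : ‖v‖ ≤ 5/4 := by
        calc ‖v‖ = ‖(v - 1) + 1‖ := by rw [sub_add_cancel]
          _ ≤ ‖v - 1‖ + ‖(1 : A →L[𝕜] A)‖ := norm_add_le _ _
          _ ≤ 1/4 + 1 := add_le_add u2 norm_one_le'
          _ = 5/4 := by norm_num
      have u3 : ‖u‖ ≤ 5/4 := by
        calc ‖u‖ = ‖(u - 1) + 1‖ := by rw [sub_add_cancel]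
          _ ≤ ‖u - 1‖ + ‖(1 : A →L[𝕜] A)‖ := norm_add_le _ _
          _ ≤ 1/4 + 1 := add_le_add u1 norm_one_le'
          _ = 5/4 := by norm_num
      have h1u : ‖1 - u‖ ≤ 1/4 := by rw [norm_sub_rev]; exact u1
      have h1v : ‖1 - v‖ ≤ 1/4 := by rw [norm_sub_rev]; exact u2
      have ea : W (a - u a) = W a - W (u a) := map_sub W _ _
      have e : W a - v * W (u a) * u = (1 - v) * W a + v * W (a - u a) + v * W (u a) * (1 - u) := by
        rw [ea]; noncomm_ring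
      have n1 : ‖a - u a‖ ≤ 1/4 * ‖a‖ := by
        have : a - u a = (1 - u) a := by simp
        rw [this]
        exact (ContinuousLinearMap.le_opNorm _ _).trans
          (mul_le_mul_of_nonneg_right h1u (norm_nonneg _))
      have n2 : ‖u a‖ ≤ 5/4 * ‖a‖ := (ContinuousLinearMap.le_opNorm _ _).trans
          (mul_le_mul_of_nonneg_right u3 (norm_nonneg _))
      have w1 : ‖W a‖ ≤ ‖W‖ * ‖a‖ := W.le_opNorm a
      have w2 : ‖W (a - u a)‖ ≤ ‖W‖ * (1/4 * ‖a‖) := (W.le_opNorm _).trans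
          (mul_le_mul_of_nonneg_left n1 (norm_nonneg _))
      have w3 : ‖W (u a)‖ ≤ ‖W‖ * (5/4 * ‖a‖) := (W.le_opNorm _).trans
          (mul_le_mul_of_nonneg_left n2 (norm_nonneg _))
      have hWa : 0 ≤ ‖W‖ * ‖a‖ := by positivity
      rw [e]
      calc ‖(1 - v) * W a + v * W (a - u a) + v * W (u a) * (1 - u)‖
          ≤ ‖(1 - v) * W a‖ + ‖v * W (a - u a)‖ + ‖v * W (u a) * (1 - u)‖ := norm_add₃_le
        _ ≤ 1/4 * (‖W‖ * ‖a‖) + 5/4 * (‖W‖ * (1/4 * ‖a‖)) + (5/4 * (‖W‖ * (5/4 * ‖a‖))) * (1/4) := by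
            gcongr
            · exact (norm_mul_le _ _).trans (by gcongr)
            · exact (norm_mul_le _ _).trans (by gcongr)
            · refine (norm_mul_le _ _).trans ?_
              gcongr
              exact (norm_mul_le _ _).trans (by gcongr)
        _ ≤ 0.96 * ‖W‖ * ‖a‖ := by nlinarith
    have hfin := norm_image_sub_le_of_norm_deriv_le_segment_01' (f := ψ)
      (fun s _ => (hψ s).hasDerivWithinAt) hb
    have e0 : ψ 0 = μ a := by
      show exp ((-(0:ℝ)) • D) * La (exp ((0:ℝ) • D)) * exp ((0:ℝ) • D) + (0:ℝ) • W a = μ a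
      rw [neg_zero, exp_zero_smul, one_mul, mul_one, hLa]
      have : (0:ℝ) • W a = 0 := zero_smul ℝ (W a)
      rw [this, add_zero]; rfl
    have e1 : ψ 1 = μ a + W a := by
      show exp ((-(1:ℝ)) • D) * La (exp ((1:ℝ) • D)) * exp ((1:ℝ) • D) + (1:ℝ) • W a = μ a + W a
      have h1 : (1:ℝ) • W a = W a := one_smul ℝ (W a)
      have h2 := exp_neg_mul D 1
      rw [exp_one_smul] at h2 ⊢
      rw [h1, hLa, mul_assoc, ← hmul a, ← mul_assoc, h2, one_mul]
    rw [e0, e1, add_sub_cancel_left] at hfin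
    exact hfin
  have hWn : ‖W‖ ≤ 0.96 * ‖W‖ := W.opNorm_le_bound (by positivity) hbound
  have hW0 : ‖W‖ = 0 := by
    have := norm_nonneg W
    linarith
  intro a
  have h1 := hbound a
  rw [hW0, mul_zero, zero_mul] at h1
  have h2 : D * μ a - μ (D a) - μ a * D = 0 := by
    rw [← hW a]
    exact norm_le_zero_iff.mp h1
  have h3 : D * μ a - (μ (D a) + μ a * D) = 0 := by rw [← h2]; abel
  exact sub_eq_zero.mp h3

lemma second_order {κ : ℝ} (hκ : 0 < κ) : ∃ ε : ℝ, 0 < ε ∧ ∀ D : A →L[𝕜] A, ‖D‖ < ε →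
    ∀ y : A, ‖exp D y - y - D y‖ ≤ κ * ‖D y‖ := by
  have : CompleteSpace A := FiniteDimensional.complete 𝕜 A
  obtain ⟨ε, hε, hsmall⟩ := exp_small (E := A →L[𝕜] A) hκ
  refine ⟨ε, hε, fun D hD y => ?_⟩
  by_cases hy : y = 0
  · rw [hy]; simp
  obtain ⟨f, hf1, hf2⟩ := exists_dual_vector 𝕜 y (norm_ne_zero_iff.mpr hy)
  let P : A →L[𝕜] A := ContinuousLinearMap.smulRight f y
  have hP : ∀ K : A →L[𝕜] A, K * P = ContinuousLinearMap.smulRight f (K y) := by
    intro K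
    ext v
    show K (f v • y) = f v • K y
    rw [map_smul]
  let ψ : ℝ → (A →L[𝕜] A) := fun s => (exp (s • D) - s • D) * P
  have hψ : ∀ s, HasDerivAt ψ ((exp (s • D) - 1) * (D * P)) s := by
    intro s
    have d3 : HasDerivAt (fun s : ℝ => s • D) ((1 : ℝ) • D) s :=
        (hasDerivAt_id s).smul_const D
    refine (((hasDerivAt_exp D s).sub d3).mul_const P).congr_deriv ?_
    have e2 : (1 : ℝ) • D = D := one_smul ℝ D
    rw [e2]
    noncomm_ring
  have hb : ∀ s ∈ Set.Ico (0 : ℝ) 1, ‖(exp (s • D) - 1) * (D * P)‖ ≤ κ * ‖D y‖ := by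
    intro s hs
    have hs1 : |s| ≤ 1 := by rw [abs_of_nonneg hs.1]; exact hs.2.le
    have u1 : ‖exp (s • D) - 1‖ ≤ κ := hsmall _ ((norm_smul_le' D hs1).trans_lt hD)
    refine (norm_mul_le _ _).trans ?_
    rw [hP, ContinuousLinearMap.norm_smulRight_apply, hf1, one_mul]
    exact mul_le_mul_of_nonneg_right u1 (norm_nonneg _)
  have hfin := norm_image_sub_le_of_norm_deriv_le_segment_01' (f := ψ)
      (fun s _ => (hψ s).hasDerivWithinAt) hb
  have e0 : ψ 0 = P := by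
    show (exp ((0:ℝ) • D) - (0:ℝ) • D) * P = P
    have : (0:ℝ) • D = 0 := zero_smul ℝ D
    rw [this, exp_zero, sub_zero, one_mul]
  have e1 : ψ 1 = (exp D - D) * P := by
    show (exp ((1:ℝ) • D) - (1:ℝ) • D) * P = (exp D - D) * P
    have : (1:ℝ) • D = D := one_smul ℝ D
    rw [this]
  rw [e0, e1] at hfin
  have h2 : ((exp D - D) * P - P) y = (f y) • (exp D y - y - D y) := by
    rw [hP]
    show f y • ((exp D - D) y) - f y • y = _
    rw [← smul_sub]
    congr 1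
    show exp D y - D y - y = _
    abel
  have h3 := ((exp D - D) * P - P).le_opNorm y
  rw [h2, norm_smul, hf2] at h3
  have hyn : 0 < ‖y‖ := norm_pos_iff.mpr hy
  have h4 : ‖((‖y‖ : ℝ) : 𝕜)‖ = ‖y‖ := by simp
  rw [h4] at h3
  have h5 : ‖y‖ * ‖exp D y - y - D y‖ ≤ (κ * ‖D y‖) * ‖y‖ :=
    h3.trans (mul_le_mul_of_nonneg_right hfin hyn.le)
  nlinarith

end

end Pool.Agent.X94.LocLie
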