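import Mathlib
import Pool.Agent.X94.LocLieC

set_option autoImplicit false

namespace Pool.Agent.X94.LocLie

open NormedSpace Filter Topology

variable {𝕜 : Type*} [RCLike 𝕜] {A : Type*} [NormedAddCommGroup A] [NormedSpace 𝕜 A]

/-- the space `Der · y` -/
noncomputable def V (μ : A →L[𝕜] A →L[𝕜] A) (y : A) : Submodule 𝕜 A :=
  (derSub μ).map (ContinuousLinearMap.apply 𝕜 A y : (A →L[𝕜] A) →L[𝕜] A).toLinearMap

lemma mem_V {μ : A →L[𝕜] A →L[𝕜] A} {y v : A} : v ∈ V μ y ↔ ∃ D, IsDer μ D ∧ D y = v := by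
  unfold V
  rw [Submodule.mem_map]
  rfl

lemma V_aut {μ : A →L[𝕜] A →L[𝕜] A} {g : A →L[𝕜] A} (hg : IsAut μ g) (y : A) :
    V μ (g y) ≤ (V μ y).map (g : A →ₗ[𝕜] A) := by
  intro v hv
  obtain ⟨D, hD, rfl⟩ := mem_V.mp hv
  obtain ⟨k, k1, k2⟩ := hg.1
  rw [Submodule.mem_map]
  have hk := hg.inv k1 k2
  refine ⟨(k * D * g) y, mem_V.mpr ⟨k * D * g, IsDer.conj hk k2 k1 hD, rfl⟩, ?_⟩
  show g (k (D (g y))) = D (g y)
  have := congrArg (fun f : A →L[𝕜] A => f (D (g y))) k1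
  simpa using this

section

variable [FiniteDimensional 𝕜 A] [NormedAlgebra ℝ (A →L[𝕜] A)]
    [IsScalarTower ℝ 𝕜 (A →L[𝕜] A)]

lemma tangent (μ : A →L[𝕜] A →L[𝕜] A) (X : A →L[𝕜] A) (y : A)
    (h : ∀ κ : ℝ, 0 < κ → ∃ τ : ℝ, 0 < τ ∧ τ < κ ∧ ∃ D, IsDer μ D ∧ ‖D‖ < κ ∧
      exp D y = exp (τ • X) y) : X y ∈ V μ y := by
  have : CompleteSpace A := FiniteDimensional.complete 𝕜 A
  have hcl : IsClosed ((V μ y : Submodule 𝕜 A) : Set A) := Submodule.closed_of_finiteDimensional _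
  have hmem : X y ∈ closure ((V μ y : Submodule 𝕜 A) : Set A) := by
    rw [Metric.mem_closure_iff]
    intro e he
    set M : ℝ := 3 * ‖X y‖ + 3 with hM
    have hM0 : 0 < M := by positivity
    set κ : ℝ := min (1/2) (e / (2 * M)) with hκ
    have hκ0 : 0 < κ := by
      rw [hκ]; exact lt_min (by norm_num) (by positivity)
    have hκ1 : κ ≤ 1/2 := min_le_left _ _
    have hκ2 : κ * M ≤ e / 2 := by
      have : κ ≤ e / (2 * M) := min_le_right _ _
      calc κ * M ≤ e / (2 * M) * M := mul_le_mul_of_nonneg_right this hM0.le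
        _ = e / 2 := by field_simp
    obtain ⟨ε, hε, hsec⟩ := second_order (𝕜 := 𝕜) (A := A) hκ0
    have hX0 : 0 < ‖X‖ + 1 := by positivity
    obtain ⟨τ, hτ0, hτ1, D, hD, hD1, hD2⟩ := h (min ε (ε / (‖X‖ + 1))) (lt_min hε (by positivity))
    have hDε : ‖D‖ < ε := hD1.trans_le (min_le_left _ _)
    have hτX : ‖τ • X‖ < ε := by
      have h1 : τ < ε / (‖X‖ + 1) := hτ1.trans_le (min_le_right _ _)
      rw [lt_div_iff₀ hX0] at h1
      have h2 : ‖τ • X‖ = τ * ‖X‖ := by rw [norm_smul_abs, abs_of_pos hτ0]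
      rw [h2]
      nlinarith
    have b1 := hsec D hDε y
    have b2 := hsec (τ • X) hτX y
    rw [← hD2] at b2
    have hsm : (τ • X) y = ((τ : ℝ) : 𝕜) • X y := by
      have h1 : τ • X = ((τ : ℝ) : 𝕜) • X := RCLike.real_smul_eq_coe_smul τ X
      rw [h1]; rfl
    have hn : ‖(((τ : ℝ) : 𝕜)) • X y‖ = τ * ‖X y‖ := by
      rw [norm_smul]; simp [abs_of_pos hτ0]
    rw [hsm, hn] at b2
    have b3 : ‖D y‖ ≤ ‖exp D y - y‖ + κ * ‖D y‖ := by
      calc ‖D y‖ = ‖(exp D y - y) - (exp D y - y - D y)‖ := by congr 1; abel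
        _ ≤ ‖exp D y - y‖ + ‖exp D y - y - D y‖ := norm_sub_le _ _
        _ ≤ _ := by gcongr
    have b4 : ‖exp D y - y‖ ≤ τ * ‖X y‖ + κ * (τ * ‖X y‖) := by
      calc ‖exp D y - y‖ = ‖((τ : ℝ) : 𝕜) • X y + (exp D y - y - ((τ : ℝ) : 𝕜) • X y)‖ := by
            congr 1; abel
        _ ≤ ‖((τ : ℝ) : 𝕜) • X y‖ + ‖exp D y - y - ((τ : ℝ) : 𝕜) • X y‖ := norm_add_le _ _
        _ ≤ _ := by rw [hn]; gcongr
    have hx := norm_nonneg (X y)
    have hdy := norm_nonneg (D y)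
    have hτx : 0 ≤ τ * ‖X y‖ := by positivity
    have b5 : ‖D y‖ ≤ 3 * (τ * ‖X y‖) := by
      have h1 : κ * ‖D y‖ ≤ 1/2 * ‖D y‖ := mul_le_mul_of_nonneg_right hκ1 hdy
      have h2 : κ * (τ * ‖X y‖) ≤ 1/2 * (τ * ‖X y‖) := mul_le_mul_of_nonneg_right hκ1 hτx
      linarith
    have b6 : ‖D y - ((τ : ℝ) : 𝕜) • X y‖ ≤ κ * (4 * (τ * ‖X y‖)) := by
      calc ‖D y - ((τ : ℝ) : 𝕜) • X y‖
          = ‖(exp D y - y - ((τ : ℝ) : 𝕜) • X y) - (exp D y - y - D y)‖ := by congr 1; abel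
        _ ≤ ‖exp D y - y - ((τ : ℝ) : 𝕜) • X y‖ + ‖exp D y - y - D y‖ := norm_sub_le _ _
        _ ≤ κ * (τ * ‖X y‖) + κ * ‖D y‖ := add_le_add b2 b1
        _ ≤ κ * (τ * ‖X y‖) + κ * (3 * (τ * ‖X y‖)) := by gcongr
        _ = _ := by ring
    refine ⟨((τ⁻¹ : ℝ) : 𝕜) • D y, (V μ y).smul_mem _ (mem_V.mpr ⟨D, hD, rfl⟩), ?_⟩
    rw [dist_eq_norm]
    have hτne : ((τ : ℝ) : 𝕜) ≠ 0 := by exact_mod_cast hτ0.ne'
    have e1 : X y - ((τ⁻¹ : ℝ) : 𝕜) • D y = -(((τ⁻¹ : ℝ) : 𝕜) • (D y - ((τ : ℝ) : 𝕜) • X y)) := by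
      rw [smul_sub, smul_smul]
      have : ((τ⁻¹ : ℝ) : 𝕜) * ((τ : ℝ) : 𝕜) = 1 := by
        rw [← RCLike.ofReal_mul, inv_mul_cancel₀ hτ0.ne']; simp
      rw [this, one_smul]; abel
    have e2 : ‖((τ⁻¹ : ℝ) : 𝕜)‖ = τ⁻¹ := by
      rw [RCLike.norm_ofReal, abs_of_pos (inv_pos.mpr hτ0)]
    rw [e1, norm_neg, norm_smul, e2]
    have h5 : τ⁻¹ * ‖D y - ((τ : ℝ) : 𝕜) • X y‖ ≤ κ * (4 * ‖X y‖) := by
      rw [inv_mul_le_iff₀ hτ0]
      calc _ ≤ κ * (4 * (τ * ‖X y‖)) := b6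
        _ = τ * (κ * (4 * ‖X y‖)) := by ring
    have h6 : κ * (4 * ‖X y‖) < e := by
      have : 4 * ‖X y‖ ≤ 4/3 * M := by rw [hM]; linarith
      calc κ * (4 * ‖X y‖) ≤ κ * (4/3 * M) := by gcongr
        _ = 4/3 * (κ * M) := by ring
        _ ≤ 4/3 * (e/2) := by gcongr
        _ < e := by linarith
    exact h5.trans_lt h6
  rwa [hcl.closure_eq] at hmem

lemma continuous_flow (X : A →L[𝕜] A) (x : A) : Continuous (fun t : ℝ => exp (t • X) x) := by
  have : CompleteSpace A := FiniteDimensional.complete 𝕜 A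
  have h1 : Continuous (fun t : ℝ => exp (t • X)) :=
    continuous_iff_continuousAt.mpr fun t => (hasDerivAt_exp X t).continuousAt
  exact (ContinuousLinearMap.apply 𝕜 A x).continuous.comp h1

/-- compact pieces of the automorphism group -/
def K (μ : A →L[𝕜] A →L[𝕜] A) (n : ℕ) : Set ((A →L[𝕜] A) × (A →L[𝕜] A)) :=
  {p | (‖p.1‖ ≤ n ∧ ‖p.2‖ ≤ n) ∧ (p.1 * p.2 = 1 ∧ p.2 * p.1 = 1) ∧ ∀ a, p.1 * μ a = μ (p.1 a) * p.1}

omit [NormedAlgebra ℝ (A →L[𝕜] A)] [IsScalarTower ℝ 𝕜 (A →L[𝕜] A)] in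
lemma K_compact (μ : A →L[𝕜] A →L[𝕜] A) (n : ℕ) : IsCompact (K μ n) := by
  have : ProperSpace (A →L[𝕜] A) := FiniteDimensional.proper_rclike 𝕜 (A →L[𝕜] A)
  have hc : IsClosed (K μ n) := by
    unfold K
    have c1 : Continuous (fun p : (A →L[𝕜] A) × (A →L[𝕜] A) => p.1) := continuous_fst
    have c2 : Continuous (fun p : (A →L[𝕜] A) × (A →L[𝕜] A) => p.2) := continuous_snd
    refine IsClosed.inter ?_ (IsClosed.inter ?_ ?_)
    · exact (isClosed_le c1.norm continuous_const).inter (isClosed_le c2.norm continuous_const)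
    · exact (isClosed_eq (c1.mul c2) continuous_const).inter
        (isClosed_eq (c2.mul c1) continuous_const)
    · have : {p : (A →L[𝕜] A) × (A →L[𝕜] A) | ∀ a, p.1 * μ a = μ (p.1 a) * p.1} =
          ⋂ a, {p | p.1 * μ a = μ (p.1 a) * p.1} := by ext p; simp
      show IsClosed {p : (A →L[𝕜] A) × (A →L[𝕜] A) | ∀ a, p.1 * μ a = μ (p.1 a) * p.1}
      rw [this]
      refine isClosed_iInter fun a => isClosed_eq (c1.mul continuous_const) ?_
      have c3 : Continuous (fun p : (A →L[𝕜] A) × (A →L[𝕜] A) => p.1 a) :=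
        (ContinuousLinearMap.apply 𝕜 A a).continuous.comp c1
      exact (μ.continuous.comp c3).mul c1
  have hb : K μ n ⊆ Metric.closedBall (0 : (A →L[𝕜] A) × (A →L[𝕜] A)) n := by
    intro p hp
    rw [mem_closedBall_zero_iff, Prod.norm_def]
    exact max_le hp.1.1 hp.1.2
  exact (isCompact_closedBall _ _).of_isClosed_subset hc hb

lemma good_time (μ : A →L[𝕜] A →L[𝕜] A) (X : A →L[𝕜] A) (x : A) (n : ℕ) (t0 : ℝ)
    (h : t0 ∈ interior {t : ℝ | ∃ p ∈ K μ n, exp (t • X) x = p.1 x}) :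
    X (exp (t0 • X) x) ∈ V μ (exp (t0 • X) x) := by
  have : CompleteSpace A := FiniteDimensional.complete 𝕜 A
  set y := exp (t0 • X) x with hy
  apply tangent
  intro κ hκ
  rw [mem_interior_iff_mem_nhds, Metric.mem_nhds_iff] at h
  obtain ⟨r, hr, hball⟩ := h
  let t : ℕ → ℝ := fun j => t0 + r / (j + 2)
  have htr : ∀ j : ℕ, 0 < r / ((j : ℝ) + 2) ∧ r / ((j : ℝ) + 2) < r := by
    intro j
    have : (0 : ℝ) ≤ j := Nat.cast_nonneg j
    refine ⟨by positivity, ?_⟩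
    rw [div_lt_iff₀ (by positivity)]
    nlinarith
  have ht : ∀ j, ∃ p ∈ K μ n, exp (t j • X) x = p.1 x := by
    intro j
    apply hball
    rw [Metric.mem_ball, Real.dist_eq]
    show |t0 + r / ((j : ℝ) + 2) - t0| < r
    rw [add_sub_cancel_left, abs_of_pos (htr j).1]
    exact (htr j).2
  choose p hp hpx using ht
  obtain ⟨a, ha, φ, hφ, hlim⟩ := (K_compact μ n).tendsto_subseq hp
  have htlim : Tendsto (fun j => r / ((φ j : ℝ) + 2)) atTop (𝓝 0) := by
    have h1 : Tendsto (fun j : ℕ => r / ((j : ℝ) + 2)) atTop (𝓝 0) := by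
      apply Tendsto.div_atTop tendsto_const_nhds
      exact tendsto_atTop_add_const_right _ _ tendsto_natCast_atTop_atTop
    exact h1.comp hφ.tendsto_atTop
  have hcx : Tendsto (fun j => exp (t (φ j) • X) x) atTop (𝓝 y) := by
    have h1 : Tendsto (fun j => t (φ j)) atTop (𝓝 t0) := by
      have := (tendsto_const_nhds (x := t0)).add htlim
      simpa [t] using this
    exact ((continuous_flow X x).tendsto t0).comp h1
  have hax : y = a.1 x := by
    have h1 : Tendsto (fun j => (p (φ j)).1 x) atTop (𝓝 (a.1 x)) := by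
      have h2 : Tendsto (fun j => (p (φ j)).1) atTop (𝓝 a.1) :=
        (continuous_fst.tendsto a).comp hlim
      exact ((ContinuousLinearMap.apply 𝕜 A x).continuous.tendsto a.1).comp h2
    have h3 : (fun j => exp (t (φ j) • X) x) = fun j => (p (φ j)).1 x := by
      funext j; exact hpx _
    rw [h3] at hcx
    exact tendsto_nhds_unique hcx h1
  have hh : Tendsto (fun j => (p (φ j)).1 * a.2) atTop (𝓝 1) := by
    have h2 : Tendsto (fun j => (p (φ j)).1) atTop (𝓝 a.1) :=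
      (continuous_fst.tendsto a).comp hlim
    have h3 := h2.mul (tendsto_const_nhds (x := a.2))
    rw [ha.2.1.1] at h3
    exact h3
  obtain ⟨ε, hε, hlog⟩ := log_der μ
  obtain ⟨δ, hδ, honto⟩ := exp_onto (E := A →L[𝕜] A) (lt_min hε hκ)
  have ev1 : ∀ᶠ j in atTop, ‖(p (φ j)).1 * a.2 - 1‖ < δ := by
    have := (tendsto_iff_norm_sub_tendsto_zero.mp hh).eventually (gt_mem_nhds hδ)
    exact this
  have ev2 : ∀ᶠ j in atTop, r / ((φ j : ℝ) + 2) < κ := htlim.eventually (gt_mem_nhds hκ)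
  obtain ⟨j, hj1, hj2⟩ := (ev1.and ev2).exists
  obtain ⟨D, hD, hDexp⟩ := honto _ hj1
  have hautp : IsAut μ (p (φ j)).1 := ⟨⟨(p (φ j)).2, (hp (φ j)).2.1.1, (hp (φ j)).2.1.2⟩,
    (hp (φ j)).2.2⟩
  have hauta : IsAut μ a.1 := ⟨⟨a.2, ha.2.1.1, ha.2.1.2⟩, ha.2.2⟩
  have haut : IsAut μ ((p (φ j)).1 * a.2) := hautp.mul (hauta.inv ha.2.1.1 ha.2.1.2)
  refine ⟨r / ((φ j : ℝ) + 2), (htr _).1, hj2, D, ?_, hD.trans_le (min_le_right _ _), ?_⟩
  · apply hlog D (hD.trans_le (min_le_left _ _))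
    intro b
    rw [hDexp]
    exact haut.2 b
  · rw [hDexp]
    have e1 : ((p (φ j)).1 * a.2) y = (p (φ j)).1 x := by
      rw [hax]
      show (p (φ j)).1 ((a.2 * a.1) x) = _
      rw [ha.2.1.2]; rfl
    rw [e1, ← hpx]
    have e2 : t (φ j) = r / ((φ j : ℝ) + 2) + t0 := by
      show t0 + r / ((φ j : ℝ) + 2) = _
      ring
    rw [e2, exp_add_smul]
    rfl

lemma reverse (μ : A →L[𝕜] A →L[𝕜] A) (X : A →L[𝕜] A)
    (h : ∀ (t : ℝ) (x : A), ∃ g, IsAut μ g ∧ exp (t • X) x = g x) (x : A) :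
    X x ∈ V μ x := by
  have : CompleteSpace A := FiniteDimensional.complete 𝕜 A
  by_contra hcon
  let c : ℝ → A := fun t => exp (t • X) x
  have hc0 : c 0 = x := by
    show exp ((0:ℝ) • X) x = x
    rw [exp_zero_smul]; rfl
  have hcc : Continuous c := continuous_flow X x
  let b := Module.finBasis 𝕜 (V μ x)
  have hb : ∀ i, ∃ D, IsDer μ D ∧ D x = (b i : A) := fun i => mem_V.mp (b i).2
  choose D hD hDx using hb
  let w : ℝ → Option (Fin (Module.finrank 𝕜 (V μ x))) → A :=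
    fun t i => Option.casesOn' i (X (c t)) (fun i => D i (c t))
  have hw0 : LinearIndependent 𝕜 (w 0) := by
    have h1 : w 0 = fun i : Option (Fin (Module.finrank 𝕜 (V μ x))) =>
        Option.casesOn' i (X x) (fun i => (b i : A)) := by
      funext i
      cases i with
      | none => show X (c 0) = X x; rw [hc0]
      | some i => show D i (c 0) = b i; rw [hc0, hDx]
    rw [h1]
    have h2 : LinearIndependent 𝕜 (fun i => (b i : A)) :=
      b.linearIndependent.map' (V μ x).subtype (Submodule.ker_subtype _)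
    have h3 : X x ∉ Submodule.span 𝕜 (Set.range (fun i => (b i : A))) := by
      intro h4
      apply hcon
      have : Submodule.span 𝕜 (Set.range (fun i => (b i : A))) ≤ V μ x := by
        rw [Submodule.span_le]
        rintro _ ⟨i, rfl⟩
        exact (b i).2
      exact this h4
    exact linearIndependent_option'.mpr ⟨h2, h3⟩
  have hwc : Continuous w := by
    rw [continuous_pi_iff]
    intro i
    cases i with
    | none => exact X.continuous.comp hcc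
    | some i => exact (D i).continuous.comp hcc
  have hev : ∀ᶠ t in 𝓝 (0 : ℝ), LinearIndependent 𝕜 (w t) :=
    (hwc.tendsto 0).eventually hw0.eventually
  obtain ⟨ε, hε, hev2⟩ := Metric.eventually_nhds_iff_ball.mp hev
  let T : ℕ → Set ℝ := fun n => {t : ℝ | ∃ p ∈ K μ n, exp (t • X) x = p.1 x}
  have hTc : ∀ n, IsClosed (T n) := by
    intro n
    have h1 : IsCompact ((fun p : (A →L[𝕜] A) × (A →L[𝕜] A) => p.1 x) '' (K μ n)) :=
      (K_compact μ n).image ((ContinuousLinearMap.apply 𝕜 A x).continuous.comp continuous_fst)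
    have h2 : T n = c ⁻¹' ((fun p : (A →L[𝕜] A) × (A →L[𝕜] A) => p.1 x) '' (K μ n)) := by
      ext t
      constructor
      · rintro ⟨p, hp, hpx⟩
        exact ⟨p, hp, hpx.symm⟩
      · rintro ⟨p, hp, hpx⟩
        exact ⟨p, hp, hpx.symm⟩
    rw [h2]
    exact h1.isClosed.preimage hcc
  have hTu : ⋃ n, T n = Set.univ := by
    rw [Set.eq_univ_iff_forall]
    intro t
    obtain ⟨g, ⟨⟨k, k1, k2⟩, hg⟩, hgx⟩ := h t x
    obtain ⟨n, hn⟩ := exists_nat_ge (max ‖g‖ ‖k‖)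
    rw [Set.mem_iUnion]
    exact ⟨n, (g, k), ⟨⟨(le_max_left _ _).trans hn, (le_max_right _ _).trans hn⟩, ⟨k1, k2⟩, hg⟩, hgx⟩
  have hdense := dense_iUnion_interior_of_closed hTc hTu
  obtain ⟨t0, ht0, ht1⟩ := hdense.exists_mem_open Metric.isOpen_ball
    (⟨0, Metric.mem_ball_self hε⟩ : (Metric.ball (0 : ℝ) ε).Nonempty)
  obtain ⟨n, hn⟩ := Set.mem_iUnion.mp ht0
  have hgood := good_time μ X x n t0 hn
  have hli := hev2 t0 ht1
  have hmemw : ∀ i, w t0 i ∈ V μ (c t0) := by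
    intro i
    cases i with
    | none => exact hgood
    | some i => exact mem_V.mpr ⟨D i, hD i, rfl⟩
  have hli2 : LinearIndependent 𝕜 (fun i => (⟨w t0 i, hmemw i⟩ : V μ (c t0))) := by
    apply LinearIndependent.of_comp (V μ (c t0)).subtype
    exact hli
  have hcard := hli2.fintype_card_le_finrank
  rw [Fintype.card_option, Fintype.card_fin] at hcard
  obtain ⟨g, hg, hgx⟩ := h t0 x
  have h1 : V μ (c t0) ≤ (V μ x).map (g : A →ₗ[𝕜] A) := by
    have : c t0 = g x := hgx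
    rw [this]
    exact V_aut hg x
  have h2 := Submodule.finrank_mono h1
  have h3 := Submodule.finrank_map_le (g : A →ₗ[𝕜] A) (V μ x)
  omega

end

end Pool.Agent.X94.LocLie
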