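import Mathlib

/-! Orthogonal polynomials from recurrence coefficients: the algebra. -/

namespace Pool.Agent.X94.Freud

open Polynomial

/-- Multiplication by `x` on the coefficients with respect to the orthogonal polynomials. -/
def Jf (b : ℕ → ℝ) (f : ℕ → ℝ) : ℕ → ℝ
  | 0 => b 1 * f 1
  | m + 1 => f m + b (m + 2) * f (m + 2)

/-- The same as a linear map. -/
def J (b : ℕ → ℝ) : Module.End ℝ (ℕ → ℝ) where
  toFun := Jf b
  map_add' f g := by
    funext n
    cases n <;> simp only [Jf, Pi.add_apply] <;> ring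
  map_smul' c f := by
    funext n
    cases n <;> simp only [Jf, Pi.smul_apply, smul_eq_mul, RingHom.id_apply] <;> ring

lemma J_zero (b f : ℕ → ℝ) : J b f 0 = b 1 * f 1 := rfl

lemma J_succ (b f : ℕ → ℝ) (m : ℕ) : J b f (m + 1) = f m + b (m + 2) * f (m + 2) := rfl

/-- The unit vectors. -/
def E (n : ℕ) : ℕ → ℝ := fun m => if m = n then 1 else 0

lemma J_E {b : ℕ → ℝ} (h0 : b 0 = 0) (n : ℕ) : J b (E n) = E (n + 1) + b n • E (n - 1) := by
  funext m
  simp only [Pi.add_apply, Pi.smul_apply, smul_eq_mul]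
  rcases m with _ | m
  · rw [J_zero]
    simp only [E]
    rcases n with _ | n
    · simp [h0]
    · rcases n with _ | n
      · simp
      · rw [if_neg (by omega), if_neg (by omega), if_neg (by omega)]
        ring
  · rw [J_succ]
    simp only [E]
    rcases n with _ | n
    · rw [h0, if_neg (show ¬ m + 2 = 0 by omega)]
      by_cases h : m = 0
      · rw [if_pos h, if_pos (by omega)]; ring
      · rw [if_neg h, if_neg (by omega)]; ring
    · by_cases h1 : m = n + 1
      · rw [if_pos h1, if_neg (by omega), if_pos (by omega), if_neg (by omega)]; ring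
      · by_cases h2 : m + 1 = n
        · rw [if_neg h1, if_pos (by omega), if_neg (by omega), if_pos (by omega), ← h2]
        · rw [if_neg h1, if_neg (by omega), if_neg (by omega), if_neg (by omega)]; ring

/-- The moments. -/
noncomputable def mom (b : ℕ → ℝ) (k : ℕ) : ℝ := ((J b) ^ k) (E 0) 0

/-- The functional. -/
noncomputable def L (b : ℕ → ℝ) : ℝ[X] →ₗ[ℝ] ℝ where
  toFun p := aeval (J b) p (E 0) 0
  map_add' p q := by simp
  map_smul' c p := by simp

lemma L_apply (b : ℕ → ℝ) (p : ℝ[X]) : L b p = aeval (J b) p (E 0) 0 := rfl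

lemma L_X_pow (b : ℕ → ℝ) (k : ℕ) : L b (X ^ k) = mom b k := by
  simp [L_apply, mom]

/-- The monic orthogonal polynomials. -/
noncomputable def P (b : ℕ → ℝ) : ℕ → ℝ[X]
  | 0 => 1
  | 1 => X
  | n + 2 => X * P b (n + 1) - C (b (n + 1)) * P b n

/-- The norms. -/
noncomputable def hn (b : ℕ → ℝ) (n : ℕ) : ℝ := ∏ i ∈ Finset.range n, b (i + 1)

lemma hn_succ (b : ℕ → ℝ) (n : ℕ) : hn b (n + 1) = hn b n * b (n + 1) := by
  unfold hn
  rw [Finset.prod_range_succ]

lemma aeval_P_E {b : ℕ → ℝ} (h0 : b 0 = 0) (n : ℕ) : aeval (J b) (P b n) (E 0) = E n := by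
  induction n using Nat.twoStepInduction with
  | zero => simp [P]
  | one => simp [P, J_E h0, h0]
  | more n ih1 ih2 =>
    simp only [P, map_sub, map_mul, aeval_X, aeval_C, LinearMap.sub_apply, Module.End.mul_apply]
    rw [ih1, ih2, J_E h0]
    simp [Module.algebraMap_end_apply]

lemma aeval_P_zero (b : ℕ → ℝ) (m : ℕ) (f : ℕ → ℝ) :
    aeval (J b) (P b m) f 0 = hn b m * f m := by
  induction m using Nat.twoStepInduction generalizing f with
  | zero => simp [P, hn]
  | one => simp [P, hn, J_zero]
  | more n ih1 ih2 =>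
    have h1 : aeval (J b) (P b (n + 2)) f =
        aeval (J b) (P b (n + 1)) (J b f) - b (n + 1) • aeval (J b) (P b n) f := by
      simp only [P, map_sub, map_mul, aeval_X, aeval_C, LinearMap.sub_apply,
        Module.End.mul_apply, Module.algebraMap_end_apply]
      congr 1
      have h2 : Commute (J b) (aeval (J b) (P b (n + 1))) := by
        have h3 := (Commute.all (X : ℝ[X]) (P b (n + 1))).map (aeval (J b))
        rwa [aeval_X] at h3
      exact congrArg (fun g => g f) h2.eq
    rw [h1, Pi.sub_apply, Pi.smul_apply, ih1, ih2, J_succ, smul_eq_mul, hn_succ b (n + 1),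
      hn_succ b n]
    ring

lemma L_P_mul {b : ℕ → ℝ} (m : ℕ) (q : ℝ[X]) :
    L b (P b m * q) = hn b m * aeval (J b) q (E 0) m := by
  rw [L_apply, map_mul, Module.End.mul_apply, aeval_P_zero]

lemma L_P_P {b : ℕ → ℝ} (h0 : b 0 = 0) (m n : ℕ) :
    L b (P b m * P b n) = if m = n then hn b m else 0 := by
  rw [L_P_mul, aeval_P_E h0]
  simp only [E]
  split_ifs with h <;> simp

/-! ### Triangularity and parity -/

lemma J_pow_E (b : ℕ → ℝ) (k : ℕ) :
    (∀ n, k < n → ((J b) ^ k) (E 0) n = 0) ∧ ((J b) ^ k) (E 0) k = 1 := by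
  induction k with
  | zero =>
    refine ⟨fun n hn => ?_, ?_⟩
    · have : n ≠ 0 := by omega
      simp [E, this]
    · simp [E]
  | succ k ih =>
    refine ⟨fun n hn => ?_, ?_⟩
    · obtain ⟨m, rfl⟩ : ∃ m, n = m + 1 := ⟨n - 1, by omega⟩
      rw [pow_succ', Module.End.mul_apply, J_succ, ih.1 m (by omega), ih.1 (m + 2) (by omega)]
      ring
    · rw [pow_succ', Module.End.mul_apply, J_succ, ih.2, ih.1 (k + 2) (by omega)]
      ring

lemma aeval_coeff (b : ℕ → ℝ) (q : ℝ[X]) (m : ℕ) (hq : q.natDegree ≤ m) :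
    aeval (J b) q (E 0) m = q.coeff m := by
  rw [aeval_eq_sum_range' (Nat.lt_succ_of_le hq)]
  simp only [LinearMap.sum_apply, LinearMap.smul_apply, Finset.sum_apply, Pi.smul_apply,
    smul_eq_mul]
  rw [Finset.sum_range_succ, (J_pow_E b m).2, mul_one]
  have : ∑ x ∈ Finset.range m, q.coeff x * ((J b) ^ x) (E 0) m = 0 := by
    refine Finset.sum_eq_zero fun x hx => ?_
    rw [(J_pow_E b x).1 m (Finset.mem_range.1 hx), mul_zero]
  rw [this, zero_add]

lemma J_pow_parity (b : ℕ → ℝ) (k : ℕ) : ∀ n, (k + n) % 2 = 1 → ((J b) ^ k) (E 0) n = 0 := by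
  induction k with
  | zero =>
    intro n hn
    have : n ≠ 0 := by omega
    simp [E, this]
  | succ k ih =>
    intro n hn
    rw [pow_succ', Module.End.mul_apply]
    rcases n with _ | m
    · rw [J_zero, ih 1 (by omega)]; ring
    · rw [J_succ, ih m (by omega), ih (m + 2) (by omega)]; ring

lemma mom_odd (b : ℕ → ℝ) {k : ℕ} (hk : k % 2 = 1) : mom b k = 0 :=
  J_pow_parity b k 0 (by omega)

lemma P_natDegree (b : ℕ → ℝ) (n : ℕ) : (P b n).natDegree = n ∧ (P b n).Monic := by
  induction n using Nat.twoStepInduction with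
  | zero => simp [P]
  | one => exact ⟨natDegree_X, monic_X⟩
  | more n ih1 ih2 =>
    have h1 : (X * P b (n + 1)).Monic := monic_X.mul ih2.2
    have h2 : (X * P b (n + 1)).natDegree = n + 2 := by
      rw [monic_X.natDegree_mul ih2.2, natDegree_X, ih2.1]; ring
    have h3 : (C (b (n + 1)) * P b n).natDegree < n + 2 := by
      refine lt_of_le_of_lt (natDegree_C_mul_le _ _) ?_
      rw [ih1.1]; omega
    have h4 : (C (b (n + 1)) * P b n).degree < (X * P b (n + 1)).degree := by
      rw [degree_eq_natDegree h1.ne_zero, h2]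
      refine lt_of_le_of_lt degree_le_natDegree ?_
      exact_mod_cast h3
    refine ⟨?_, ?_⟩
    · show (X * P b (n + 1) - C (b (n + 1)) * P b n).natDegree = n + 2
      rw [natDegree_sub_eq_left_of_natDegree_lt (by rw [h2]; exact h3), h2]
    · show (X * P b (n + 1) - C (b (n + 1)) * P b n).Monic
      exact h1.sub_of_left h4

/-! ### The string equation and the Pearson equation -/

/-- The left-hand side of the string equation with index `n + 1`. -/
def stringLHS (τ t : ℝ) (b : ℕ → ℝ) (n : ℕ) : ℝ :=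
  6 * b (n + 1) * (b (n - 1) * b n + b n ^ 2 + 2 * b n * b (n + 1) + b n * b (n + 2) +
    b (n + 1) ^ 2 + 2 * b (n + 1) * b (n + 2) + b (n + 2) ^ 2 + b (n + 2) * b (n + 3)) -
    4 * τ * b (n + 1) * (b n + b (n + 1) + b (n + 2)) - 2 * t * b (n + 1)

/-- The derivative of `x ^ 6 - τ x ^ 4 - t x ^ 2`. -/
noncomputable def dV (τ t : ℝ) : ℝ[X] := C 6 * X ^ 5 - C (4 * τ) * X ^ 3 - C (2 * t) * X

lemma aeval_dV_E {b : ℕ → ℝ} (h0 : b 0 = 0) (τ t : ℝ) (n : ℕ) :
    b (n + 1) * aeval (J b) (dV τ t) (E n) (n + 1) = stringLHS τ t b n := by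
  have hE : ∀ m k, E m k = if k = m then (1 : ℝ) else 0 := fun _ _ => rfl
  simp only [dV, map_sub, map_mul, map_pow, aeval_X, aeval_C, LinearMap.sub_apply,
    Module.End.mul_apply, Module.algebraMap_end_apply, Pi.sub_apply, Pi.smul_apply, smul_eq_mul,
    stringLHS]
  obtain ⟨p3, p5⟩ : (J b ^ 3) (E n) (n + 1) = b n + b (n + 1) + b (n + 2) ∧
      (J b ^ 5) (E n) (n + 1) = b (n - 1) * b n + b n ^ 2 + 2 * b n * b (n + 1) +
      b n * b (n + 2) + b (n + 1) ^ 2 + 2 * b (n + 1) * b (n + 2) + b (n + 2) ^ 2 +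
      b (n + 2) * b (n + 3) := by
    have e3 : J b ^ 3 = J b * (J b * J b) := by rw [pow_succ, pow_two]; rfl
    have e5 : J b ^ 5 = J b * (J b * (J b * (J b * J b))) := by
      rw [pow_succ', pow_succ', e3]
    rw [e3, e5]
    simp only [Module.End.mul_apply]
    rcases n with _ | _ | m
    · simp only [J_succ, J_zero, E, h0, Nat.zero_add]
      norm_num
      ring
    · simp only [J_succ, J_zero, E, h0, Nat.zero_add, Nat.reduceAdd]
      norm_num
      ring
    · set f1 := J b (E (m + 1 + 1)) with hf1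
      have v1a : f1 (m + 3) = 1 := by
        rw [hf1, J_succ, hE, hE, if_pos rfl, if_neg (by omega)]; ring
      have v1b : f1 (m + 1) = b (m + 2) := by
        rw [hf1, J_succ, hE, hE, if_neg (by omega), if_pos rfl]; ring
      have v1c : f1 (m + 5) = 0 := by
        rw [hf1, J_succ, hE, hE, if_neg (by omega), if_neg (by omega)]; ring
      set f2 := J b f1 with hf2
      have v2a : f2 (m + 2) = b (m + 2) + b (m + 3) := by
        rw [hf2, J_succ, v1b, v1a]; ring
      have v2b : f2 (m + 4) = 1 := by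
        rw [hf2, J_succ, v1a, v1c]; ring
      have v2c : f2 m = b (m + 1) * b (m + 2) := by
        rcases m with _ | k
        · rw [hf2, J_zero, v1b]
        · have : f1 k = 0 := by
            rcases k with _ | k
            · rw [hf1, J_zero, hE, if_neg (by omega)]; ring
            · rw [hf1, J_succ, hE, hE, if_neg (by omega), if_neg (by omega)]; ring
          rw [hf2, J_succ, this, v1b]; ring
      have v2d : f2 (m + 6) = 0 := by
        have : f1 (m + 7) = 0 := by
          rw [hf1, J_succ, hE, hE, if_neg (by omega), if_neg (by omega)]; ring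
        rw [hf2, J_succ, v1c, this]; ring
      set f3 := J b f2 with hf3
      have v3a : f3 (m + 3) = b (m + 2) + b (m + 3) + b (m + 4) := by
        rw [hf3, J_succ, v2a, v2b]; ring
      have v3b : f3 (m + 1) = b (m + 1) * b (m + 2) + b (m + 2) * (b (m + 2) + b (m + 3)) := by
        rw [hf3, J_succ, v2c, v2a]
      have v3c : f3 (m + 5) = 1 := by
        rw [hf3, J_succ, v2b, v2d]; ring
      refine ⟨v3a, ?_⟩
      rw [J_succ, J_succ, J_succ, v3a, v3b, v3c]
      simp only [Nat.add_sub_cancel]
      ring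
  have p1 : J b (E n) (n + 1) = 1 := by
    rw [J_E h0, Pi.add_apply, Pi.smul_apply, hE, hE, if_pos rfl, if_neg (by omega)]
    simp
  rw [p3, p5, p1]
  ring

lemma pearson {b : ℕ → ℝ} (h0 : b 0 = 0) {τ t : ℝ} (hs : ∀ n : ℕ, stringLHS τ t b n = n + 1)
    (p : ℝ[X]) : L b (dV τ t * p) = L b (derivative p) := by
  -- the basis
  have hodd : ∀ n : ℕ, L b (dV τ t * (P b n * P b (n + 1))) =
      L b (derivative (P b n * P b (n + 1))) := by
    intro n
    have e1 : L b (dV τ t * (P b n * P b (n + 1))) = hn b n * (n + 1) := by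
      rw [show dV τ t * (P b n * P b (n + 1)) = P b (n + 1) * (dV τ t * P b n) by ring, L_P_mul,
        map_mul, Module.End.mul_apply, aeval_P_E h0, hn_succ, mul_assoc, aeval_dV_E h0, hs n]
    have e2 : L b (derivative (P b n * P b (n + 1))) = hn b n * (n + 1) := by
      rw [derivative_mul, map_add, mul_comm (derivative (P b n)), L_P_mul, L_P_mul]
      have d1 := (P_natDegree b n).1
      have d2 := (P_natDegree b (n + 1)).1
      have m2 := (P_natDegree b (n + 1)).2
      have k1 : (derivative (P b n)).natDegree ≤ n + 1 := by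
        have := natDegree_derivative_le (P b n)
        omega
      have k2 : (derivative (P b (n + 1))).natDegree ≤ n := by
        have := natDegree_derivative_le (P b (n + 1))
        omega
      rw [aeval_coeff b _ _ k1, aeval_coeff b _ _ k2, coeff_derivative, coeff_derivative]
      have c1 : (P b n).coeff (n + 1 + 1) = 0 := coeff_eq_zero_of_natDegree_lt (by omega)
      have c2 : (P b (n + 1)).coeff (n + 1) = 1 := by
        have := m2.coeff_natDegree
        rwa [d2] at this
      rw [c1, c2]
      ring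
    rw [e1, e2]
  have heven : ∀ n : ℕ, L b (dV τ t * X ^ (2 * n)) = L b (derivative (X ^ (2 * n) : ℝ[X])) := by
    intro n
    have e1 : dV τ t * X ^ (2 * n) = (6 : ℝ) • X ^ (2 * n + 5) - (4 * τ) • X ^ (2 * n + 3) -
        (2 * t) • X ^ (2 * n + 1) := by
      simp only [dV, smul_eq_C_mul]
      ring
    rw [e1, map_sub, map_sub, map_smul, map_smul, map_smul, L_X_pow, L_X_pow, L_X_pow,
      mom_odd b (by omega), mom_odd b (by omega), mom_odd b (by omega)]
    rcases n with _ | n
    · simp
    · rw [derivative_X_pow, ← smul_eq_C_mul, map_smul, L_X_pow, mom_odd b (by omega)]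
      simp
  have key : ∀ d : ℕ, ∀ p : ℝ[X], p.natDegree ≤ d → L b (dV τ t * p) = L b (derivative p) := by
    intro d
    induction d with
    | zero =>
      intro p hp
      have : p = C (p.coeff 0) := eq_C_of_natDegree_le_zero hp
      rw [this]
      have h := heven 0
      simp only [mul_zero, pow_zero, mul_one, derivative_one] at h
      rw [mul_comm, ← smul_eq_C_mul, map_smul, h]
      simp
    | succ d ih =>
      intro p hp
      obtain ⟨Q, hQ1, hQ2, hQ3⟩ : ∃ Q : ℝ[X], Q.natDegree = d + 1 ∧ Q.Monic ∧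
          L b (dV τ t * Q) = L b (derivative Q) := by
        rcases Nat.even_or_odd' (d + 1) with ⟨n, hn | hn⟩
        · rw [hn]
          exact ⟨X ^ (2 * n), natDegree_X_pow _, monic_X_pow _, heven n⟩
        · rw [hn]
          refine ⟨P b n * P b (n + 1), ?_, (P_natDegree b n).2.mul (P_natDegree b (n + 1)).2,
            hodd n⟩
          rw [(P_natDegree b n).2.natDegree_mul (P_natDegree b (n + 1)).2, (P_natDegree b n).1,
            (P_natDegree b (n + 1)).1]
          ring
      have hrem : (p - C (p.coeff (d + 1)) * Q).natDegree ≤ d := by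
        rw [natDegree_le_iff_coeff_eq_zero]
        intro N hN
        rw [coeff_sub, coeff_C_mul]
        rcases Nat.lt_or_ge (d + 1) N with h | h
        · rw [coeff_eq_zero_of_natDegree_lt (by omega : p.natDegree < N),
            coeff_eq_zero_of_natDegree_lt (by omega : Q.natDegree < N)]
          ring
        · have hN' : N = d + 1 := by omega
          have hc : Q.coeff (d + 1) = 1 := by
            have := hQ2.coeff_natDegree
            rwa [hQ1] at this
          rw [hN', hc]
          ring
      have h1 := ih _ hrem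
      have h2 : p = (p - C (p.coeff (d + 1)) * Q) + p.coeff (d + 1) • Q := by
        rw [smul_eq_C_mul]; ring
      have h3 : dV τ t * p = dV τ t * (p - C (p.coeff (d + 1)) * Q) +
          p.coeff (d + 1) • (dV τ t * Q) := by
        rw [smul_eq_C_mul]; ring
      rw [h3, map_add, map_smul, h1, hQ3, ← map_smul, ← map_add, ← derivative_smul,
        ← derivative_add, ← h2]
  exact key _ p le_rfl

/-- The Pearson equation for the moments. -/
lemma mom_pearson {b : ℕ → ℝ} (h0 : b 0 = 0) {τ t : ℝ} (hs : ∀ n : ℕ, stringLHS τ t b n = n + 1)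
    (k : ℕ) : 6 * mom b (k + 5) - 4 * τ * mom b (k + 3) - 2 * t * mom b (k + 1) =
      k * mom b (k - 1) := by
  have h := pearson h0 hs (X ^ k)
  have e1 : dV τ t * X ^ k = (6 : ℝ) • X ^ (k + 5) - (4 * τ) • X ^ (k + 3) -
      (2 * t) • X ^ (k + 1) := by
    simp only [dV, smul_eq_C_mul]
    ring
  rw [e1, map_sub, map_sub, map_smul, map_smul, map_smul, L_X_pow, L_X_pow, L_X_pow,
    derivative_X_pow, ← smul_eq_C_mul, map_smul, L_X_pow] at h
  simpa using h

end Pool.Agent.X94.Freud
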