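import Mathlib
import Pool.Agent.X94.FrA

/-! Moments: growth, truncation, Gauss quadrature. -/

namespace Pool.Agent.X94.Freud

open Polynomial Finset

lemma J_pow_nonneg {b : ℕ → ℝ} (hb : ∀ n, 0 ≤ b n) (k n : ℕ) : 0 ≤ ((J b) ^ k) (E 0) n := by
  induction k generalizing n with
  | zero => simp only [pow_zero, Module.End.one_apply, E]; split_ifs <;> norm_num
  | succ k ih =>
    rw [pow_succ', Module.End.mul_apply]
    rcases n with _ | n
    · rw [J_zero]; exact mul_nonneg (hb _) (ih _)
    · rw [J_succ]; exact add_nonneg (ih _) (mul_nonneg (hb _) (ih _))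

lemma J_pow_mono {b b' : ℕ → ℝ} (hb : ∀ n, 0 ≤ b' n) (hbb : ∀ n, b' n ≤ b n) (k n : ℕ) :
    ((J b') ^ k) (E 0) n ≤ ((J b) ^ k) (E 0) n := by
  have hb2 : ∀ n, 0 ≤ b n := fun n => (hb n).trans (hbb n)
  induction k generalizing n with
  | zero => simp
  | succ k ih =>
    rw [pow_succ', Module.End.mul_apply, pow_succ', Module.End.mul_apply]
    rcases n with _ | n
    · rw [J_zero, J_zero]
      exact mul_le_mul (hbb _) (ih _) (J_pow_nonneg hb _ _) (hb2 _)
    · rw [J_succ, J_succ]
      exact add_le_add (ih _) (mul_le_mul (hbb _) (ih _) (J_pow_nonneg hb _ _) (hb2 _))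

lemma J_pow_local {b b' : ℕ → ℝ} (k : ℕ) (h : ∀ i ≤ k, b' i = b i) :
    ((J b') ^ k) (E 0) = ((J b) ^ k) (E 0) := by
  induction k with
  | zero => simp
  | succ k ih =>
    have ih' := ih fun i hi => h i (by omega)
    rw [pow_succ', Module.End.mul_apply, pow_succ', Module.End.mul_apply, ih']
    funext n
    rcases n with _ | n
    · rw [J_zero, J_zero, h 1 (by omega)]
    · rw [J_succ, J_succ]
      rcases Nat.lt_or_ge k (n + 2) with h1 | h1
      · rw [(J_pow_E b k).1 (n + 2) h1]; ring
      · rw [h (n + 2) (by omega)]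

lemma J_pow_growth {b : ℕ → ℝ} {B : ℝ} (hb : ∀ n, 0 ≤ b n) (hB : ∀ n, b (n + 1) ≤ B * (n + 1))
    (k : ℕ) : ∀ n j, k = n + 2 * j →
      ((J b) ^ k) (E 0) n ≤ (B / 2) ^ j * k.factorial / (j.factorial * n.factorial) := by
  have hB0 : 0 ≤ B := by
    have := hB 0
    have := hb 1
    norm_num at *
    linarith
  induction k with
  | zero =>
    intro n j h
    obtain rfl : n = 0 := by omega
    obtain rfl : j = 0 := by omega
    simp [E]
  | succ k ih =>
    intro n j h
    rw [pow_succ', Module.End.mul_apply]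
    rcases n with _ | m
    · obtain ⟨i, rfl⟩ : ∃ i, j = i + 1 := ⟨j - 1, by omega⟩
      rw [J_zero]
      have h1 := ih 1 i (by omega)
      have h2 := hB 0
      norm_num at h2
      have h3 : b 1 * ((J b) ^ k) (E 0) 1 ≤
          B * ((B / 2) ^ i * k.factorial / (i.factorial * Nat.factorial 1)) :=
        mul_le_mul h2 h1 (J_pow_nonneg hb _ _) hB0
      refine h3.trans (le_of_eq ?_)
      have hk : ((k.factorial : ℕ) : ℝ) ≠ 0 := by positivity
      have hi : ((i.factorial : ℕ) : ℝ) ≠ 0 := by positivity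
      rw [Nat.factorial_succ k, Nat.factorial_succ i]
      have hk2 : (k : ℝ) + 1 = 2 * (i + 1) := by
        have : k + 1 = 2 * (i + 1) := by omega
        exact_mod_cast this
      simp only [Nat.factorial_one, Nat.factorial_zero, Nat.cast_one, mul_one]
      push_cast
      rw [hk2]
      field_simp
      ring
    · rw [J_succ]
      have h1 := ih m j (by omega)
      have hm : ((m.factorial : ℕ) : ℝ) ≠ 0 := by positivity
      have hj : ((j.factorial : ℕ) : ℝ) ≠ 0 := by positivity
      have hkf : ((k.factorial : ℕ) : ℝ) ≠ 0 := by positivity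
      rcases j with _ | i
      · rw [(J_pow_E b k).1 (m + 2) (by omega)]
        have hkm : k = m := by omega
        subst hkm
        rw [mul_zero, add_zero]
        refine h1.trans (le_of_eq ?_)
        simp
        field_simp
      · have h2 := ih (m + 2) i (by omega)
        have h3 := hB (m + 1)
        push_cast at h3
        have h4 : b (m + 2) * ((J b) ^ k) (E 0) (m + 2) ≤
            (B * (m + 1 + 1)) * ((B / 2) ^ i * k.factorial / (i.factorial * (m + 2).factorial)) :=
          mul_le_mul h3 h2 (J_pow_nonneg hb _ _) (by positivity)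
        refine (add_le_add h1 h4).trans (le_of_eq ?_)
        have hi : ((i.factorial : ℕ) : ℝ) ≠ 0 := by positivity
        rw [Nat.factorial_succ k, Nat.factorial_succ i, Nat.factorial_succ (m + 1),
          Nat.factorial_succ m]
        have hk2 : (k : ℝ) + 1 = m + 1 + 2 * (i + 1) := by
          have : k + 1 = m + 1 + 2 * (i + 1) := by omega
          exact_mod_cast this
        push_cast
        rw [hk2]
        field_simp
        ring

lemma mom_nonneg {b : ℕ → ℝ} (hb : ∀ n, 0 ≤ b n) (k : ℕ) : 0 ≤ mom b k := J_pow_nonneg hb k 0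

lemma mom_growth {b : ℕ → ℝ} {B : ℝ} (hb : ∀ n, 0 ≤ b n) (hB : ∀ n, b (n + 1) ≤ B * (n + 1))
    (j : ℕ) : mom b (2 * j) / (2 * j).factorial ≤ (B / 2) ^ j / j.factorial := by
  have h := J_pow_growth hb hB (2 * j) 0 j (by omega)
  rw [div_le_iff₀ (by positivity)]
  refine h.trans (le_of_eq ?_)
  simp
  ring

/-- The truncated sequence. -/
def trunc (b : ℕ → ℝ) (N : ℕ) (i : ℕ) : ℝ := if i ≤ N then b i else 0

lemma trunc_nonneg {b : ℕ → ℝ} (hb : ∀ n, 0 ≤ b n) (N n : ℕ) : 0 ≤ trunc b N n := by
  unfold trunc; split_ifs <;> simp [hb]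

lemma trunc_le {b : ℕ → ℝ} (hb : ∀ n, 0 ≤ b n) (N n : ℕ) : trunc b N n ≤ b n := by
  unfold trunc; split_ifs <;> simp [hb]

lemma mom_trunc_le {b : ℕ → ℝ} (hb : ∀ n, 0 ≤ b n) (N k : ℕ) : mom (trunc b N) k ≤ mom b k :=
  J_pow_mono (trunc_nonneg hb N) (trunc_le hb N) k 0

lemma mom_trunc_eq (b : ℕ → ℝ) {N k : ℕ} (h : k ≤ N) : mom (trunc b N) k = mom b k := by
  unfold mom
  rw [J_pow_local k fun i hi => by unfold trunc; rw [if_pos (hi.trans h)]]

/-- **Gauss quadrature.** -/
lemma gauss {b : ℕ → ℝ} (hb : ∀ n, 0 ≤ b n) (N : ℕ) (hN : ∀ n, N < n → b n = 0) :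
    ∃ w lam : Fin (N + 1) → ℝ, (∀ i, 0 ≤ w i) ∧ ∀ k, ∑ i, w i * lam i ^ k = mom b k := by
  set a : ℕ → ℝ := fun i => Real.sqrt (b i) with ha
  obtain ⟨M, hM⟩ : ∃ M : Matrix (Fin (N + 1)) (Fin (N + 1)) ℝ, ∀ i j, M i j =
      (if (j : ℕ) = i + 1 then a (i + 1) else 0) + (if (i : ℕ) = j + 1 then a i else 0) :=
    ⟨fun i j => (if (j : ℕ) = i + 1 then a (i + 1) else 0) + (if (i : ℕ) = j + 1 then a i else 0),
      fun _ _ => rfl⟩
  have hherm : M.IsHermitian := by
    ext i j
    rw [Matrix.conjTranspose_apply, star_trivial, hM, hM, add_comm]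
    congr 1
    · by_cases h : (j : ℕ) = i + 1
      · rw [if_pos h, if_pos h, h]
      · rw [if_neg h, if_neg h]
    · by_cases h : (i : ℕ) = j + 1
      · rw [if_pos h, if_pos h, h]
      · rw [if_neg h, if_neg h]
  set G : ℕ → ℕ → ℝ := fun k n => Real.sqrt (hn b n) * ((J b) ^ k) (E 0) n with hG
  have hsq : ∀ n, Real.sqrt (hn b (n + 1)) = Real.sqrt (hn b n) * a (n + 1) := by
    intro n
    rw [hn_succ, Real.sqrt_mul (show 0 ≤ hn b n from prod_nonneg fun i _ => hb _)]
  have haa : ∀ n, a n * a n = b n := fun n => Real.mul_self_sqrt (hb n)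
  have hpow : ∀ k, (M ^ k).mulVec (fun i : Fin (N + 1) => G 0 (i : ℕ)) =
      fun i : Fin (N + 1) => G k (i : ℕ) := by
    intro k
    induction k with
    | zero => simp
    | succ k ih =>
      rw [pow_succ', ← Matrix.mulVec_mulVec, ih]
      funext i
      simp only [Matrix.mulVec, dotProduct, hM, add_mul, sum_add_distrib, ite_mul, zero_mul]
      rw [Fin.sum_univ_eq_sum_range (fun j => if j = (i : ℕ) + 1 then a (i + 1) * G k j else 0),
        Fin.sum_univ_eq_sum_range (fun j => if (i : ℕ) = j + 1 then a i * G k j else 0),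
        sum_ite_eq']
      have hfirst : (if (i : ℕ) + 1 ∈ range (N + 1) then a (i + 1) * G k (i + 1) else 0) =
          a (i + 1) * G k (i + 1) := by
        split_ifs with h
        · rfl
        · rw [mem_range, not_lt] at h
          have : a ((i : ℕ) + 1) = 0 := by
            rw [ha]
            simp only
            rw [hN _ (by omega), Real.sqrt_zero]
          rw [this, zero_mul]
      rw [hfirst]
      obtain ⟨m, hm⟩ := i
      simp only
      rcases m with _ | m
      · have : ∑ j ∈ range (N + 1), (if 0 = j + 1 then a 0 * G k j else 0) = 0 :=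
          sum_eq_zero fun j _ => if_neg (by omega)
        rw [this, add_zero]
        simp only [hG]
        rw [pow_succ', Module.End.mul_apply, J_zero, hsq, Nat.zero_add]
        rw [show a 1 * (Real.sqrt (hn b 0) * a 1 * ((J b) ^ k) (E 0) 1) =
          Real.sqrt (hn b 0) * ((a 1 * a 1) * ((J b) ^ k) (E 0) 1) by ring, haa]
      · have : ∑ j ∈ range (N + 1), (if m + 1 = j + 1 then a (m + 1) * G k j else 0) =
            a (m + 1) * G k m := by
          have e : ∀ j, (if m + 1 = j + 1 then a (m + 1) * G k j else 0) =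
              if m = j then a (m + 1) * G k j else 0 := by
            intro j
            by_cases h : m = j
            · rw [if_pos h, if_pos (by omega)]
            · rw [if_neg h, if_neg (by omega)]
          rw [sum_congr rfl fun j _ => e j, sum_ite_eq, if_pos (by rw [mem_range]; omega)]
        rw [this]
        simp only [hG]
        rw [pow_succ', Module.End.mul_apply, J_succ, hsq (m + 1), hsq m]
        rw [show a (m + 1 + 1) * (Real.sqrt (hn b m) * a (m + 1) * a (m + 1 + 1) *
            ((J b) ^ k) (E 0) (m + 1 + 1)) + a (m + 1) * (Real.sqrt (hn b m) *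
            ((J b) ^ k) (E 0) m) = Real.sqrt (hn b m) * a (m + 1) * (((J b) ^ k) (E 0) m +
            (a (m + 1 + 1) * a (m + 1 + 1)) * ((J b) ^ k) (E 0) (m + 1 + 1)) by ring, haa]
  -- the spectral decomposition
  set v := hherm.eigenvectorBasis with hv
  refine ⟨fun i => (v i 0) ^ 2, hherm.eigenvalues, fun i => sq_nonneg _, fun k => ?_⟩
  have hev : ∀ i, (M ^ k).mulVec (v i).ofLp = hherm.eigenvalues i ^ k • (v i).ofLp := by
    intro i
    induction k with
    | zero => simp
    | succ k ih =>
      rw [pow_succ', ← Matrix.mulVec_mulVec, ih, Matrix.mulVec_smul, hherm.mulVec_eigenvectorBasis,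
        smul_smul, pow_succ]
  have hG0 : ∀ n, G 0 n = if n = 0 then 1 else 0 := by
    intro n
    simp only [hG, pow_zero, Module.End.one_apply, E]
    split_ifs with h
    · rw [h]; simp [hn]
    · ring
  set e : EuclideanSpace ℝ (Fin (N + 1)) := WithLp.toLp 2 (fun i => G 0 (i : ℕ)) with he
  have hinner : ∀ i, inner ℝ (v i) e = v i 0 := by
    intro i
    rw [PiLp.inner_apply]
    rw [Finset.sum_eq_single (0 : Fin (N + 1))]
    · simp [he, hG0]
    · intro j _ hj
      have : (j : ℕ) ≠ 0 := fun h => hj (Fin.ext h)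
      simp [he, hG0, hj]
    · simp
  have hsum : ∑ i, (v i 0) • v i = e := by
    rw [← v.sum_repr' e]
    exact sum_congr rfl fun i _ => by rw [hinner]
  have hsum2 : (fun i : Fin (N + 1) => G 0 (i : ℕ)) = ∑ i, (v i 0) • (v i).ofLp := by
    have := congrArg WithLp.ofLp hsum
    rw [he] at this
    simp only [WithLp.ofLp_sum, WithLp.ofLp_smul] at this
    exact this.symm
  have h1 := congrFun (hpow k) 0
  rw [hsum2, Matrix.mulVec_sum] at h1
  simp only [Matrix.mulVec_smul, hev, Finset.sum_apply, Pi.smul_apply, smul_eq_mul] at h1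
  have h2 : G k ((0 : Fin (N + 1)) : ℕ) = mom b k := by
    simp [hG, mom, hn]
  rw [h2] at h1
  rw [← h1]
  exact sum_congr rfl fun i _ => by ring

end Pool.Agent.X94.Freud
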