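import Mathlib
import Pool.Agent.X94.FrB

/-! The limit of the Gauss quadratures on Schwartz functions. -/

namespace Pool.Agent.X94.Freud

open Finset Filter Topology MeasureTheory FourierTransform SchwartzMap

/-- The quadrature sums. -/
noncomputable def T (w lam : (N : ℕ) → Fin (N + 1) → ℝ) (N : ℕ) (F : ℝ → ℂ) : ℂ :=
  ∑ i, (w N i : ℂ) * F (lam N i)

/-- The data of the quadrature formulas. -/
structure Quad (b : ℕ → ℝ) (w lam : (N : ℕ) → Fin (N + 1) → ℝ) : Prop where
  nn : ∀ N i, 0 ≤ w N i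
  eq : ∀ N k, ∑ i, w N i * lam N i ^ k = mom (trunc b N) k

lemma exists_quad {b : ℕ → ℝ} (hb : ∀ n, 0 ≤ b n) : ∃ w lam, Quad b w lam := by
  have h : ∀ N, ∃ w lam : Fin (N + 1) → ℝ, (∀ i, 0 ≤ w i) ∧
      ∀ k, ∑ i, w i * lam i ^ k = mom (trunc b N) k := fun N =>
    gauss (trunc_nonneg hb N) N fun n hn => by unfold trunc; rw [if_neg (by omega)]
  choose w lam h1 h2 using h
  exact ⟨w, lam, h1, h2⟩

/-- The growth hypothesis. -/
def Growth (b : ℕ → ℝ) (B : ℝ) : Prop := (∀ n, 0 ≤ b n) ∧ ∀ n, b (n + 1) ≤ B * (n + 1)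

lemma Growth.nonneg {b : ℕ → ℝ} {B : ℝ} (h : Growth b B) : 0 ≤ B := by
  have h1 := h.1 1
  have h2 := h.2 0
  norm_num at h2
  linarith

lemma summable_mom {b : ℕ → ℝ} {B : ℝ} (h : Growth b B) {R : ℝ} (hR : 0 ≤ R) :
    Summable fun k => R ^ k * (mom b k / k.factorial) := by
  have hi : Function.Injective (fun j : ℕ => 2 * j) := fun a c hac => by
    simp only at hac; omega
  rw [← hi.summable_iff]
  · refine Summable.of_nonneg_of_le (fun j => ?_) (fun j => ?_)
      (Real.summable_pow_div_factorial (R ^ 2 * (B / 2)))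
    · have := mom_nonneg h.1 (2 * j)
      simp only [Function.comp]
      positivity
    · simp only [Function.comp]
      have h1 := mom_growth h.1 h.2 j
      rw [pow_mul, mul_pow, mul_div_assoc]
      exact mul_le_mul_of_nonneg_left h1 (by positivity)
  · intro k hk
    have : k % 2 = 1 := by
      by_contra hc
      exact hk ⟨k / 2, by simp only; omega⟩
    rw [mom_odd b this]
    ring

lemma summable_shift {b : ℕ → ℝ} {B : ℝ} (h : Growth b B) (j : ℕ) (s : ℝ) :
    Summable fun k => |s| ^ k / k.factorial * mom b (k + j) := by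
  have h1 := summable_mom h (R := 2 * (|s| + 1)) (by positivity)
  have h2 := ((summable_nat_add_iff j).2 h1).mul_left (j.factorial : ℝ)
  refine Summable.of_nonneg_of_le (fun k => ?_) (fun k => ?_) h2
  · have := mom_nonneg h.1 (k + j)
    positivity
  · have hm := mom_nonneg h.1 (k + j)
    have hk : (0 : ℝ) < k.factorial := by positivity
    have hkj : (0 : ℝ) < (k + j).factorial := by positivity
    have hj : (0 : ℝ) < j.factorial := by positivity
    have e1 : ((k + j).factorial : ℝ) ≤ 2 ^ (k + j) * (k.factorial * j.factorial) := by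
      have := Nat.add_choose_mul_factorial_mul_factorial k j
      have h3 : (k + j).choose j ≤ 2 ^ (k + j) := Nat.choose_le_two_pow _ _
      have h4 : (k + j).factorial ≤ 2 ^ (k + j) * (k.factorial * j.factorial) := by
        rw [← this, mul_assoc]
        exact Nat.mul_le_mul_right _ h3
      exact_mod_cast h4
    have e2 : |s| ^ k ≤ (|s| + 1) ^ (k + j) := by
      have h5 : |s| ^ k ≤ (|s| + 1) ^ k := pow_le_pow_left₀ (abs_nonneg s) (by linarith) k
      refine h5.trans (pow_le_pow_right₀ ?_ (by omega))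
      linarith [abs_nonneg s]
    have e3 : |s| ^ k / k.factorial ≤
        j.factorial * ((2 * (|s| + 1)) ^ (k + j) / (k + j).factorial) := by
      rw [mul_pow, ← mul_div_assoc, div_le_div_iff₀ hk hkj]
      calc |s| ^ k * (k + j).factorial ≤ (|s| + 1) ^ (k + j) *
            (2 ^ (k + j) * (k.factorial * j.factorial)) :=
            mul_le_mul e2 e1 hkj.le (by positivity)
        _ = j.factorial * (2 ^ (k + j) * (|s| + 1) ^ (k + j)) * k.factorial := by ring
    calc |s| ^ k / k.factorial * mom b (k + j) ≤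
          (j.factorial * ((2 * (|s| + 1)) ^ (k + j) / (k + j).factorial)) * mom b (k + j) :=
          mul_le_mul_of_nonneg_right e3 hm
      _ = _ := by ring

/-- The power series. -/
noncomputable def Phi (b : ℕ → ℝ) (j : ℕ) (s : ℝ) : ℂ :=
  ∑' k : ℕ, (s * Complex.I) ^ k / k.factorial * (mom b (k + j) : ℂ)

lemma norm_term (b : ℕ → ℝ) (j k : ℕ) (s : ℝ) (hm : 0 ≤ mom b (k + j)) :
    ‖((s : ℂ) * Complex.I) ^ k / k.factorial * (mom b (k + j) : ℂ)‖ =
      |s| ^ k / k.factorial * mom b (k + j) := by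
  rw [norm_mul, norm_div, norm_pow, norm_mul, Complex.norm_I, mul_one, Complex.norm_real,
    Complex.norm_real, Complex.norm_natCast, Real.norm_eq_abs, Real.norm_eq_abs, abs_of_nonneg hm]

lemma summable_term {b : ℕ → ℝ} {B : ℝ} (h : Growth b B) (j : ℕ) (s : ℝ) :
    Summable fun k : ℕ => ((s : ℂ) * Complex.I) ^ k / k.factorial * (mom b (k + j) : ℂ) := by
  refine Summable.of_norm ?_
  refine (summable_shift h j s).congr fun k => ?_
  rw [norm_term b j k s (mom_nonneg h.1 _)]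

/-- Exponentials. -/
noncomputable def ex (j : ℕ) (s : ℝ) (x : ℝ) : ℂ := (x : ℂ) ^ j * Complex.exp (s * x * Complex.I)

lemma T_ex {b : ℕ → ℝ} {w lam : (N : ℕ) → Fin (N + 1) → ℝ} (q : Quad b w lam) (N j : ℕ) (s : ℝ) :
    T w lam N (ex j s) =
      ∑' k : ℕ, ((s : ℂ) * Complex.I) ^ k / k.factorial * (mom (trunc b N) (k + j) : ℂ) := by
  have h1 : ∀ i : Fin (N + 1), HasSum (fun k : ℕ => (w N i : ℂ) * ((lam N i : ℂ) ^ j *
      (((s : ℂ) * (lam N i) * Complex.I) ^ k / k.factorial)))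
      ((w N i : ℂ) * ex j s (lam N i)) := by
    intro i
    unfold ex
    refine HasSum.mul_left _ (HasSum.mul_left _ ?_)
    have := NormedSpace.expSeries_div_hasSum_exp ((s : ℂ) * (lam N i) * Complex.I)
    rwa [← Complex.exp_eq_exp_ℂ] at this
  have h2 := hasSum_sum (s := univ) fun i _ => h1 i
  unfold T
  rw [← h2.tsum_eq]
  refine tsum_congr fun k => ?_
  rw [← q.eq N (k + j)]
  push_cast
  rw [mul_sum]
  refine sum_congr rfl fun i _ => ?_
  rw [mul_pow, mul_pow, mul_pow, pow_add]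
  ring

lemma tendsto_T_ex {b : ℕ → ℝ} {B : ℝ} (h : Growth b B) {w lam : (N : ℕ) → Fin (N + 1) → ℝ}
    (q : Quad b w lam) (j : ℕ) (s : ℝ) :
    Tendsto (fun N => T w lam N (ex j s)) atTop (𝓝 (Phi b j s)) := by
  simp only [T_ex q]
  refine tendsto_tsum_of_dominated_convergence (summable_shift h j s) (fun k => ?_) ?_
  · refine tendsto_const_nhds.congr' ?_
    filter_upwards [eventually_ge_atTop (k + j)] with N hN
    rw [mom_trunc_eq b hN]
  · filter_upwards with N k
    have h1 := mom_nonneg (trunc_nonneg h.1 N) (k + j)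
    rw [norm_term (trunc b N) j k s h1]
    exact mul_le_mul_of_nonneg_left (mom_trunc_le h.1 N _) (by positivity)

lemma norm_T_le {b : ℕ → ℝ} {w lam : (N : ℕ) → Fin (N + 1) → ℝ} (q : Quad b w lam) (N : ℕ)
    (F : ℝ → ℂ) : ‖T w lam N F‖ ≤ ∑ i, w N i * ‖F (lam N i)‖ := by
  unfold T
  refine (norm_sum_le _ _).trans (le_of_eq (sum_congr rfl fun i _ => ?_))
  rw [norm_mul, Complex.norm_real, Real.norm_eq_abs, abs_of_nonneg (q.nn N i)]

lemma T_ex_bound {b : ℕ → ℝ} {B : ℝ} (h : Growth b B) {w lam : (N : ℕ) → Fin (N + 1) → ℝ}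
    (q : Quad b w lam) (N j : ℕ) (s : ℝ) : ‖T w lam N (ex j s)‖ ≤ mom b 0 + mom b (2 * j) := by
  refine (norm_T_le q N _).trans ?_
  have h1 : ∀ x : ℝ, ‖ex j s x‖ ≤ x ^ 0 + x ^ (2 * j) := by
    intro x
    unfold ex
    rw [norm_mul, norm_pow, Complex.norm_real, Real.norm_eq_abs]
    have : ‖Complex.exp (s * x * Complex.I)‖ = 1 := by
      rw [← Complex.ofReal_mul]; exact Complex.norm_exp_ofReal_mul_I _
    rw [this, mul_one, pow_zero, pow_mul, ← sq_abs x, ← pow_mul, mul_comm, pow_mul]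
    nlinarith [sq_nonneg (|x| ^ j - 1), sq_nonneg (|x| ^ j)]
  calc ∑ i, w N i * ‖ex j s (lam N i)‖ ≤ ∑ i, w N i * (lam N i ^ 0 + lam N i ^ (2 * j)) :=
        sum_le_sum fun i _ => mul_le_mul_of_nonneg_left (h1 _) (q.nn N i)
    _ = mom (trunc b N) 0 + mom (trunc b N) (2 * j) := by
        rw [← q.eq N 0, ← q.eq N (2 * j), ← sum_add_distrib]
        exact sum_congr rfl fun i _ => by ring
    _ ≤ _ := add_le_add (mom_trunc_le h.1 N _) (mom_trunc_le h.1 N _)

/-- The inversion formula. -/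
lemma schwartz_repr (f : 𝓢(ℝ, ℂ)) (x : ℝ) :
    f x = ∫ ξ : ℝ, (𝓕 f) ξ * Complex.exp (((2 * Real.pi * ξ : ℝ) : ℂ) * x * Complex.I) := by
  have h1 : 𝓕⁻ (𝓕 f) = f := FourierTransform.fourierInv_fourier_eq f
  have h2 : f x = (𝓕⁻ (𝓕 f) : 𝓢(ℝ, ℂ)) x := by rw [h1]
  rw [h2, SchwartzMap.fourierInv_coe, Real.fourierInv_eq']
  refine integral_congr_ae (Eventually.of_forall fun ξ => ?_)
  simp only [smul_eq_mul, RCLike.inner_apply, conj_trivial]
  rw [mul_comm]
  congr 2
  push_cast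
  ring

lemma T_schwartz (w lam : (N : ℕ) → Fin (N + 1) → ℝ) (N j : ℕ) (f : 𝓢(ℝ, ℂ)) :
    T w lam N (fun x => (x : ℂ) ^ j * f x) =
      ∫ ξ : ℝ, (𝓕 f) ξ * T w lam N (ex j (2 * Real.pi * ξ)) := by
  unfold T
  simp only [mul_sum]
  rw [integral_finsetSum]
  · refine sum_congr rfl fun i _ => ?_
    rw [schwartz_repr f (lam N i), ← integral_const_mul, ← integral_const_mul]
    refine integral_congr_ae (Eventually.of_forall fun ξ => ?_)
    simp only [ex]
    ring
  · intro i _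
    have h1 : Integrable (fun ξ : ℝ => (𝓕 f) ξ) := (𝓕 f).integrable
    have h2 : (fun ξ : ℝ => (𝓕 f) ξ * ((w N i : ℂ) * ex j (2 * Real.pi * ξ) (lam N i))) =
        fun ξ => ((w N i : ℂ) * ex j (2 * Real.pi * ξ) (lam N i)) * (𝓕 f) ξ := by
      funext ξ; ring
    rw [h2]
    refine h1.bdd_mul (c := ‖(w N i : ℂ)‖ * ‖(lam N i : ℂ) ^ j‖) ?_ ?_
    · refine Continuous.aestronglyMeasurable ?_
      unfold ex
      fun_prop
    · refine Eventually.of_forall fun ξ => ?_
      unfold ex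
      rw [norm_mul, norm_mul, ← Complex.ofReal_mul, Complex.norm_exp_ofReal_mul_I, mul_one]

lemma tendsto_T_schwartz {b : ℕ → ℝ} {B : ℝ} (h : Growth b B)
    {w lam : (N : ℕ) → Fin (N + 1) → ℝ} (q : Quad b w lam) (j : ℕ) (f : 𝓢(ℝ, ℂ)) :
    Tendsto (fun N => T w lam N (fun x => (x : ℂ) ^ j * f x)) atTop
      (𝓝 (∫ ξ : ℝ, (𝓕 f) ξ * Phi b j (2 * Real.pi * ξ))) ∧
    Integrable (fun ξ : ℝ => (𝓕 f) ξ * Phi b j (2 * Real.pi * ξ)) := by
  have hint : Integrable (fun ξ : ℝ => ‖(𝓕 f) ξ‖ * (mom b 0 + mom b (2 * j))) :=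
    (𝓕 f).integrable.norm.mul_const _
  have hmeas : ∀ N, AEStronglyMeasurable
      (fun ξ : ℝ => (𝓕 f) ξ * T w lam N (ex j (2 * Real.pi * ξ))) volume := by
    intro N
    refine Continuous.aestronglyMeasurable ?_
    have h1 : Continuous fun ξ : ℝ => (𝓕 f) ξ := (𝓕 f).continuous
    refine h1.mul ?_
    unfold T ex
    fun_prop
  have hlim : ∀ ξ : ℝ, Tendsto (fun N => (𝓕 f) ξ * T w lam N (ex j (2 * Real.pi * ξ))) atTop
      (𝓝 ((𝓕 f) ξ * Phi b j (2 * Real.pi * ξ))) := fun ξ =>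
    (tendsto_T_ex h q j _).const_mul _
  have hbd : ∀ N, ∀ ξ : ℝ, ‖(𝓕 f) ξ * T w lam N (ex j (2 * Real.pi * ξ))‖ ≤
      ‖(𝓕 f) ξ‖ * (mom b 0 + mom b (2 * j)) := by
    intro N ξ
    rw [norm_mul]
    exact mul_le_mul_of_nonneg_left (T_ex_bound h q N j _) (norm_nonneg _)
  refine ⟨?_, ?_⟩
  · simp only [T_schwartz]
    exact tendsto_integral_of_dominated_convergence _ hmeas hint
      (fun N => Eventually.of_forall (hbd N)) (Eventually.of_forall hlim)
  · refine hint.mono ?_ ?_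
    · exact aestronglyMeasurable_of_tendsto_ae atTop hmeas (Eventually.of_forall hlim)
    · refine Eventually.of_forall fun ξ => ?_
      rw [Real.norm_eq_abs, abs_of_nonneg]
      · exact le_of_tendsto (hlim ξ).norm (Eventually.of_forall fun N => hbd N ξ)
      · have := mom_nonneg h.1 0
        have := mom_nonneg h.1 (2 * j)
        positivity

end Pool.Agent.X94.Freud
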