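import Mathlib
import Pool.Agent.X94.FrC

/-! The Pearson equation in the limit. -/

namespace Pool.Agent.X94.Freud

open Finset Filter Topology MeasureTheory FourierTransform SchwartzMap

lemma Phi_pearson {b : ℕ → ℝ} {B : ℝ} (h : Growth b B) (h0 : b 0 = 0) {τ t : ℝ}
    (hs : ∀ n : ℕ, stringLHS τ t b n = n + 1) (s : ℝ) :
    6 * Phi b 5 s - 4 * τ * Phi b 3 s - 2 * t * Phi b 1 s = s * Complex.I * Phi b 0 s := by
  have H : ∀ j, HasSum (fun k : ℕ => ((s : ℂ) * Complex.I) ^ k / k.factorial *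
      (mom b (k + j) : ℂ)) (Phi b j s) := fun j => (summable_term h j s).hasSum
  have H1 := (((H 5).mul_left 6).sub ((H 3).mul_left (4 * (τ : ℂ)))).sub
    ((H 1).mul_left (2 * (t : ℂ)))
  have H2 := (H 0).mul_left ((s : ℂ) * Complex.I)
  rw [← H1.tsum_eq, ← H2.tsum_eq, H1.summable.tsum_eq_zero_add]
  have e0 : 6 * (((s : ℂ) * Complex.I) ^ 0 / (Nat.factorial 0 : ℂ) * (mom b (0 + 5) : ℂ)) -
      4 * (τ : ℂ) * (((s : ℂ) * Complex.I) ^ 0 / (Nat.factorial 0 : ℂ) * (mom b (0 + 3) : ℂ)) -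
      2 * (t : ℂ) * (((s : ℂ) * Complex.I) ^ 0 / (Nat.factorial 0 : ℂ) * (mom b (0 + 1) : ℂ))
      = 0 := by
    rw [mom_odd b (by norm_num), mom_odd b (by norm_num), mom_odd b (by norm_num)]
    push_cast
    ring
  rw [e0, zero_add]
  refine tsum_congr fun k => ?_
  have hp := mom_pearson h0 hs (k + 1)
  have hp' : (6 : ℂ) * (mom b (k + 1 + 5) : ℂ) - 4 * (τ : ℂ) * (mom b (k + 1 + 3) : ℂ) -
      2 * (t : ℂ) * (mom b (k + 1 + 1) : ℂ) = ((k : ℂ) + 1) * (mom b k : ℂ) := by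
    have := congrArg (fun x : ℝ => (x : ℂ)) hp
    push_cast at this
    simpa using this
  have hk : ((k : ℂ) + 1) ≠ 0 := by exact_mod_cast Nat.succ_ne_zero k
  have hf : ((k.factorial : ℕ) : ℂ) ≠ 0 := by exact_mod_cast Nat.factorial_ne_zero k
  calc _ = ((s : ℂ) * Complex.I) ^ (k + 1) / ((k + 1).factorial : ℂ) *
        ((6 : ℂ) * (mom b (k + 1 + 5) : ℂ) - 4 * (τ : ℂ) * (mom b (k + 1 + 3) : ℂ) -
      2 * (t : ℂ) * (mom b (k + 1 + 1) : ℂ)) := by ring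
    _ = ((s : ℂ) * Complex.I) ^ (k + 1) / ((k + 1).factorial : ℂ) *
        (((k : ℂ) + 1) * (mom b k : ℂ)) := by rw [hp']
    _ = _ := by
        rw [Nat.factorial_succ]
        push_cast
        rw [add_zero]
        field_simp
        try ring

lemma T_lin (w lam : (N : ℕ) → Fin (N + 1) → ℝ) (N : ℕ) (τ t : ℝ) (f g : ℝ → ℂ) :
    T w lam N (fun x => ((6 * x ^ 5 - 4 * τ * x ^ 3 - 2 * t * x : ℝ) : ℂ) * f x - g x) =
      6 * T w lam N (fun x => (x : ℂ) ^ 5 * f x) - 4 * τ * T w lam N (fun x => (x : ℂ) ^ 3 * f x) -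
      2 * t * T w lam N (fun x => (x : ℂ) ^ 1 * f x) -
      T w lam N (fun x => (x : ℂ) ^ 0 * g x) := by
  unfold T
  simp only [mul_sum, ← sum_sub_distrib]
  refine sum_congr rfl fun i _ => ?_
  push_cast
  ring

lemma integral_four {F5 F3 F1 F0 : ℝ → ℂ} (h5 : Integrable F5) (h3 : Integrable F3)
    (h1 : Integrable F1) (h0 : Integrable F0) (a c d : ℂ)
    (h : ∀ ξ, a * F5 ξ - c * F3 ξ - d * F1 ξ - F0 ξ = 0) :
    (a * ∫ ξ, F5 ξ) - (c * ∫ ξ, F3 ξ) - (d * ∫ ξ, F1 ξ) - ∫ ξ, F0 ξ = 0 := by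
  have e : F0 = fun ξ => (a * F5 ξ - c * F3 ξ) - d * F1 ξ := by
    funext ξ
    linear_combination -(h ξ)
  have i1 := integral_sub ((h5.const_mul a).sub (h3.const_mul c)) (h1.const_mul d)
  have i2 := integral_sub (h5.const_mul a) (h3.const_mul c)
  simp only [Pi.sub_apply] at i1
  rw [e, i1, i2, integral_const_mul, integral_const_mul, integral_const_mul]
  ring

lemma tendsto_pearson {b : ℕ → ℝ} {B : ℝ} (h : Growth b B) (h0 : b 0 = 0) {τ t : ℝ}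
    (hs : ∀ n : ℕ, stringLHS τ t b n = n + 1)
    {w lam : (N : ℕ) → Fin (N + 1) → ℝ} (q : Quad b w lam) (f : 𝓢(ℝ, ℂ)) :
    Tendsto (fun N => T w lam N (fun x =>
      ((6 * x ^ 5 - 4 * τ * x ^ 3 - 2 * t * x : ℝ) : ℂ) * f x - deriv f x)) atTop (𝓝 0) := by
  have a5 := tendsto_T_schwartz h q 5 f
  have a3 := tendsto_T_schwartz h q 3 f
  have a1 := tendsto_T_schwartz h q 1 f
  have a0 := tendsto_T_schwartz h q 0 (SchwartzMap.derivCLM ℂ ℂ f)
  have hd : ∀ ξ : ℝ, (𝓕 (SchwartzMap.derivCLM ℂ ℂ f)) ξ = (2 * Real.pi * Complex.I * ξ) * (𝓕 f) ξ := by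
    intro ξ
    have e1 : ((SchwartzMap.derivCLM ℂ ℂ f : 𝓢(ℝ, ℂ)) : ℝ → ℂ) = deriv f := by
      funext x; exact SchwartzMap.derivCLM_apply ℂ f x
    have hi : Integrable (deriv (f : ℝ → ℂ)) := by
      rw [← e1]; exact (SchwartzMap.derivCLM ℂ ℂ f).integrable
    have e2 := Real.fourier_deriv (f := (f : ℝ → ℂ)) f.integrable f.differentiable hi
    rw [SchwartzMap.fourier_coe, SchwartzMap.fourier_coe, e1, e2]
    rfl
  simp only [T_lin, ← SchwartzMap.derivCLM_apply ℂ f]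
  have hlim := (((a5.1.const_mul 6).sub (a3.1.const_mul (4 * (τ : ℂ)))).sub
    (a1.1.const_mul (2 * (t : ℂ)))).sub a0.1
  convert hlim using 2
  have h3 := integral_four a5.2 a3.2 a1.2 a0.2 6 (4 * (τ : ℂ)) (2 * (t : ℂ)) fun ξ => by
    have hP := Phi_pearson h h0 hs (2 * Real.pi * ξ)
    rw [hd]
    push_cast at hP
    linear_combination (𝓕 f) ξ * hP
  rw [h3]

end Pool.Agent.X94.Freud
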