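import Mathlib
import Pool.Agent.X94.FrD

/-! Test functions and the identification of the functional with the integral against the
weight. -/

namespace Pool.Agent.X94.Freud

open Finset Filter Topology MeasureTheory FourierTransform SchwartzMap ContDiff

/-- The potential. -/
def V (τ t x : ℝ) : ℝ := x ^ 6 - τ * x ^ 4 - t * x ^ 2

/-- The weight. -/
noncomputable def W (τ t x : ℝ) : ℝ := Real.exp (-V τ t x)

lemma W_pos (τ t x : ℝ) : 0 < W τ t x := Real.exp_pos _

lemma V_hasDerivAt (τ t x : ℝ) :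
    HasDerivAt (V τ t) (6 * x ^ 5 - 4 * τ * x ^ 3 - 2 * t * x) x := by
  have h := (((hasDerivAt_pow 6 x).sub ((hasDerivAt_pow 4 x).const_mul τ)).sub
    ((hasDerivAt_pow 2 x).const_mul t))
  refine (h.congr_deriv ?_)
  norm_num
  ring

lemma V_contDiff (τ t : ℝ) : ContDiff ℝ ∞ (V τ t) := by
  unfold V
  fun_prop

lemma W_contDiff (τ t : ℝ) : ContDiff ℝ ∞ (W τ t) := by
  unfold W
  exact Real.contDiff_exp.comp (V_contDiff τ t).neg

/-- The real version of the quadrature sums. -/
noncomputable def TR (w lam : (N : ℕ) → Fin (N + 1) → ℝ) (N : ℕ) (F : ℝ → ℝ) : ℝ :=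
  ∑ i, w N i * F (lam N i)

lemma T_ofReal (w lam : (N : ℕ) → Fin (N + 1) → ℝ) (N : ℕ) (F : ℝ → ℝ) :
    T w lam N (fun x => (F x : ℂ)) = (TR w lam N F : ℂ) := by
  unfold T TR
  push_cast
  rfl

lemma tendsto_zero {b : ℕ → ℝ} {B : ℝ} (h : Growth b B) (h0 : b 0 = 0) {τ t : ℝ}
    (hs : ∀ n : ℕ, stringLHS τ t b n = n + 1)
    {w lam : (N : ℕ) → Fin (N + 1) → ℝ} (q : Quad b w lam) {u : ℝ → ℝ}
    (hu : ContDiff ℝ ∞ u) (hc : HasCompactSupport u) (hz : ∫ x, u x * W τ t x = 0) :
    Tendsto (fun N => TR w lam N u) atTop (𝓝 0) := by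
  obtain ⟨R, hR⟩ : ∃ R : ℝ, ∀ x, R ≤ |x| → u x = 0 := by
    obtain ⟨R, hR⟩ := hc.isCompact.isBounded.subset_closedBall (0 : ℝ)
    refine ⟨R + 1, fun x hx => ?_⟩
    by_contra hne
    have h1 := hR (subset_tsupport u hne)
    rw [Metric.mem_closedBall, Real.dist_eq, sub_zero] at h1
    linarith
  have hcont : Continuous fun y => u y * W τ t y := hu.continuous.mul (W_contDiff τ t).continuous
  set G : ℝ → ℝ := fun x => ∫ y in (-R)..x, u y * W τ t y with hG
  have hGd : ∀ x, HasDerivAt G (u x * W τ t x) x := fun x =>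
    intervalIntegral.integral_hasDerivAt_right (hcont.intervalIntegrable _ _)
      hcont.stronglyMeasurable.stronglyMeasurableAtFilter hcont.continuousAt
  have hGs : ContDiff ℝ ∞ G := by
    rw [contDiff_infty_iff_deriv]
    refine ⟨fun x => (hGd x).differentiableAt, ?_⟩
    have : deriv G = fun x => u x * W τ t x := funext fun x => (hGd x).deriv
    rw [this]
    exact hu.mul (W_contDiff τ t)
  have hGneg : ∀ x, x ≤ -R → G x = 0 := by
    intro x hx
    rw [hG]
    simp only
    refine intervalIntegral.integral_zero_ae (Eventually.of_forall fun y hy => ?_)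
    rw [Set.uIoc_of_ge hx] at hy
    rcases lt_or_ge 0 R with hRp | hRn
    · rw [hR y (by rw [abs_of_nonpos (by linarith [hy.2])]; linarith [hy.2]), zero_mul]
    · rw [hR y (hRn.trans (abs_nonneg y)), zero_mul]
  have hGpos : ∀ x, R ≤ x → G x = 0 := by
    intro x hx
    rcases lt_or_ge 0 R with hRp | hRn
    · have e1 : G x = ∫ y, u y * W τ t y := by
        rw [hG]
        simp only
        rw [intervalIntegral.integral_of_le (by linarith)]
        refine setIntegral_eq_integral_of_forall_compl_eq_zero fun y hy => ?_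
        rw [Set.mem_Ioc, not_and_or, not_lt, not_le] at hy
        rw [hR y, zero_mul]
        rcases hy with hy | hy
        · rw [abs_of_nonpos (by linarith)]; linarith
        · rw [abs_of_nonneg (by linarith)]; linarith
      rw [e1, hz]
    · rw [hG]
      simp only
      refine intervalIntegral.integral_zero_ae (Eventually.of_forall fun y _ => ?_)
      rw [hR y (hRn.trans (abs_nonneg y)), zero_mul]
  set g : ℝ → ℝ := fun x => Real.exp (V τ t x) * G x with hg
  have hgs : ContDiff ℝ ∞ g := (Real.contDiff_exp.comp (V_contDiff τ t)).mul hGs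
  have hgd : ∀ x, HasDerivAt g ((6 * x ^ 5 - 4 * τ * x ^ 3 - 2 * t * x) * g x + u x) x := by
    intro x
    have h1 := ((V_hasDerivAt τ t x).exp).mul (hGd x)
    refine h1.congr_deriv ?_
    have h2 : Real.exp (V τ t x) * W τ t x = 1 := by
      rw [W, ← Real.exp_add]; simp
    rw [hg]
    simp only
    linear_combination (u x) * h2
  have hgc : HasCompactSupport g := by
    refine HasCompactSupport.of_support_subset_isCompact (isCompact_Icc (a := -R) (b := R)) ?_
    intro x hx
    rw [Function.mem_support] at hx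
    rw [Set.mem_Icc]
    refine ⟨?_, ?_⟩
    · by_contra hlt
      exact hx (by rw [hg]; simp only; rw [hGneg x (by linarith), mul_zero])
    · by_contra hlt
      exact hx (by rw [hg]; simp only; rw [hGpos x (by linarith), mul_zero])
  have hGc : HasCompactSupport (fun x => (g x : ℂ)) :=
    hgc.comp_left (g := fun x : ℝ => (x : ℂ)) Complex.ofReal_zero
  have hGS : ContDiff ℝ ∞ (fun x => (g x : ℂ)) := Complex.ofRealCLM.contDiff.comp hgs
  have key := tendsto_pearson h h0 hs q (hGc.toSchwartzMap hGS)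
  have e2 : ∀ x : ℝ, ((6 * x ^ 5 - 4 * τ * x ^ 3 - 2 * t * x : ℝ) : ℂ) *
      (hGc.toSchwartzMap hGS) x - deriv (hGc.toSchwartzMap hGS) x = ((-u x : ℝ) : ℂ) := by
    intro x
    have h3 : HasDerivAt (fun x => (g x : ℂ))
        (((6 * x ^ 5 - 4 * τ * x ^ 3 - 2 * t * x) * g x + u x : ℝ) : ℂ) x :=
      (hgd x).ofReal_comp
    have h4 : ((hGc.toSchwartzMap hGS : 𝓢(ℝ, ℂ)) : ℝ → ℂ) = fun x => (g x : ℂ) := rfl
    rw [h4, h3.deriv]
    push_cast
    ring
  simp only [e2, T_ofReal] at key
  have key2 : Tendsto (fun N => TR w lam N fun x => -u x) atTop (𝓝 0) := by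
    have := (Complex.continuous_re.tendsto 0).comp key
    rw [Complex.zero_re] at this
    exact this.congr fun N => Complex.ofReal_re _
  have e3 : ∀ N, TR w lam N u = -TR w lam N fun x => -u x := by
    intro N
    unfold TR
    rw [← Finset.sum_neg_distrib]
    exact Finset.sum_congr rfl fun i _ => by ring
  simp only [e3]
  simpa using key2.neg

/-- Weight bound. -/
lemma W_le (τ t : ℝ) : ∃ C : ℝ, ∀ x, W τ t x ≤ Real.exp C * Real.exp (-1 * x ^ 2) := by
  set M : ℝ := |τ| + |t + 1| + 1 with hM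
  refine ⟨|τ| * M ^ 2 + |t + 1| * M, fun x => ?_⟩
  rw [W, ← Real.exp_add]
  refine Real.exp_le_exp.2 ?_
  unfold V
  set y := x ^ 2 with hy
  have hy0 : 0 ≤ y := sq_nonneg x
  have e1 : x ^ 6 = y ^ 3 := by rw [hy]; ring
  have e2 : x ^ 4 = y ^ 2 := by rw [hy]; ring
  rw [e1, e2]
  have a1 : τ * y ^ 2 ≤ |τ| * y ^ 2 := mul_le_mul_of_nonneg_right (le_abs_self τ) (by positivity)
  have a2 : (t + 1) * y ≤ |t + 1| * y := mul_le_mul_of_nonneg_right (le_abs_self _) hy0
  have b1 := abs_nonneg τ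
  have b2 := abs_nonneg (t + 1)
  rcases le_or_gt M y with h | h
  · have hy1 : 1 ≤ y := by linarith
    have c1 : M * y ^ 2 ≤ y * y ^ 2 := mul_le_mul_of_nonneg_right h (by positivity)
    have c2 : |t + 1| * y ≤ |t + 1| * y ^ 2 := mul_le_mul_of_nonneg_left (by nlinarith) b2
    have c3 : 0 ≤ |τ| * M ^ 2 + |t + 1| * M := by positivity
    nlinarith [sq_nonneg y]
  · have c1 : |τ| * y ^ 2 ≤ |τ| * M ^ 2 :=
      mul_le_mul_of_nonneg_left (pow_le_pow_left₀ hy0 h.le 2) b1
    have c2 : |t + 1| * y ≤ |t + 1| * M := mul_le_mul_of_nonneg_left h.le b2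
    have c3 : 0 ≤ y ^ 3 := by positivity
    nlinarith

lemma integrable_pow_W (τ t : ℝ) (k : ℕ) : Integrable fun x : ℝ => x ^ k * W τ t x := by
  obtain ⟨C, hC⟩ := W_le τ t
  have h1 := (integrable_rpow_mul_exp_neg_mul_sq (b := 1) one_pos (s := (k : ℝ))
    (by have : (0 : ℝ) ≤ k := by positivity
        linarith)).norm.const_mul (Real.exp C)
  refine h1.mono' ?_ (Eventually.of_forall fun x => ?_)
  · exact ((continuous_pow k).mul (W_contDiff τ t).continuous).aestronglyMeasurable
  · rw [Real.rpow_natCast, norm_mul, norm_mul, Real.norm_of_nonneg (W_pos τ t x).le,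
      Real.norm_of_nonneg (Real.exp_pos (-1 * x ^ 2)).le]
    calc ‖x ^ k‖ * W τ t x ≤ ‖x ^ k‖ * (Real.exp C * Real.exp (-1 * x ^ 2)) :=
          mul_le_mul_of_nonneg_left (hC x) (norm_nonneg _)
      _ = _ := by ring

lemma mom_zero (b : ℕ → ℝ) : mom b 0 = 1 := by simp [mom, E]

lemma TR_pow {b : ℕ → ℝ} {w lam : (N : ℕ) → Fin (N + 1) → ℝ} (q : Quad b w lam) (N k : ℕ) :
    TR w lam N (fun x => x ^ k) = mom (trunc b N) k := q.eq N k

lemma TR_mono {b : ℕ → ℝ} {w lam : (N : ℕ) → Fin (N + 1) → ℝ} (q : Quad b w lam) (N : ℕ)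
    {F G : ℝ → ℝ} (h : ∀ x, F x ≤ G x) : TR w lam N F ≤ TR w lam N G :=
  Finset.sum_le_sum fun i _ => mul_le_mul_of_nonneg_left (h _) (q.nn N i)

lemma TR_sub (w lam : (N : ℕ) → Fin (N + 1) → ℝ) (N : ℕ) (F G : ℝ → ℝ) :
    TR w lam N (fun x => F x - G x) = TR w lam N F - TR w lam N G := by
  unfold TR
  rw [← Finset.sum_sub_distrib]
  exact Finset.sum_congr rfl fun i _ => by ring

lemma TR_smul (w lam : (N : ℕ) → Fin (N + 1) → ℝ) (N : ℕ) (c : ℝ) (F : ℝ → ℝ) :
    TR w lam N (fun x => c * F x) = c * TR w lam N F := by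
  unfold TR
  rw [Finset.mul_sum]
  exact Finset.sum_congr rfl fun i _ => by ring

/-- The bump function of radius `R`. -/
noncomputable def chi (n : ℕ) : ContDiffBump (0 : ℝ) :=
  ⟨(n : ℝ) + 1, (n : ℝ) + 2, by positivity, by linarith⟩

lemma integrable_bump (τ t : ℝ) {u : ℝ → ℝ} (hu : ContDiff ℝ ∞ u) (hc : HasCompactSupport u) :
    Integrable fun x => u x * W τ t x :=
  (hu.continuous.mul (W_contDiff τ t).continuous).integrable_of_hasCompactSupport
    hc.mul_right

lemma exists_kappa {b : ℕ → ℝ} {B : ℝ} (h : Growth b B) (h0 : b 0 = 0) {τ t : ℝ}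
    (hs : ∀ n : ℕ, stringLHS τ t b n = n + 1)
    {w lam : (N : ℕ) → Fin (N + 1) → ℝ} (q : Quad b w lam) :
    ∃ (U : Ultrafilter ℕ) (κ : ℝ), (U : Filter ℕ) ≤ atTop ∧ ∀ u : ℝ → ℝ, ContDiff ℝ ∞ u →
      HasCompactSupport u → Tendsto (fun N => TR w lam N u) U (𝓝 (κ * ∫ x, u x * W τ t x)) := by
  have hb0 : ∀ N, TR w lam N (chi 0) ∈ Set.Icc (0 : ℝ) 1 := by
    intro N
    refine ⟨Finset.sum_nonneg fun i _ => mul_nonneg (q.nn N i) (chi 0).nonneg, ?_⟩
    have h1 := TR_mono q N (F := chi 0) (G := fun x => x ^ 0) fun x => by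
      rw [pow_zero]; exact (chi 0).le_one
    rwa [TR_pow q, mom_zero] at h1
  have hc0 : 0 < ∫ x, chi 0 x * W τ t x := by
    have hcont : Continuous fun x => chi 0 x * W τ t x :=
      (chi 0).continuous.mul (W_contDiff τ t).continuous
    rw [integral_pos_iff_support_of_nonneg
      (fun x => mul_nonneg (chi 0).nonneg (W_pos τ t x).le)
      (integrable_bump τ t (chi 0).contDiff (chi 0).hasCompactSupport)]
    refine hcont.isOpen_support.measure_pos _ ⟨0, ?_⟩
    rw [Function.mem_support]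
    have : (chi 0) (0 : ℝ) = 1 := (chi 0).one_of_mem_closedBall
      (Metric.mem_closedBall_self (by simp [chi]))
    rw [this, one_mul]
    exact (W_pos τ t 0).ne'
  set c0 := ∫ x, chi 0 x * W τ t x with hc0def
  set U : Ultrafilter ℕ := Ultrafilter.of atTop with hU
  have hUle : (U : Filter ℕ) ≤ atTop := Ultrafilter.of_le _
  obtain ⟨k0, _, hk0⟩ := isCompact_Icc.ultrafilter_le_nhds'
    (U.map fun N => TR w lam N (chi 0)) (by
      rw [Ultrafilter.mem_map]
      exact Filter.univ_mem' (f := (U : Filter ℕ)) hb0)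
  refine ⟨U, k0 / c0, hUle, fun u hu hcu => ?_⟩
  set c := ∫ x, u x * W τ t x with hcdef
  have hz : ∫ x, (u x - c / c0 * chi 0 x) * W τ t x = 0 := by
    have e : (fun x => (u x - c / c0 * chi 0 x) * W τ t x) =
        fun x => u x * W τ t x - c / c0 * (chi 0 x * W τ t x) := by
      funext x; ring
    rw [e, integral_sub (integrable_bump τ t hu hcu)
      ((integrable_bump τ t (chi 0).contDiff (chi 0).hasCompactSupport).const_mul _),
      integral_const_mul, ← hc0def, ← hcdef]
    field_simp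
    ring
  have h1 := tendsto_zero h h0 hs q (u := fun x => u x - c / c0 * chi 0 x)
    (hu.sub (contDiff_const.mul (chi 0).contDiff))
    (hcu.sub (chi 0).hasCompactSupport.mul_left) hz
  have h2 : Tendsto (fun N => TR w lam N (chi 0)) U (𝓝 k0) := hk0
  have h3 := (h1.mono_left hUle).add (h2.const_mul (c / c0))
  have e4 : k0 / c0 * c = 0 + c / c0 * k0 := by ring
  rw [e4]
  refine h3.congr fun N => ?_
  rw [TR_sub, TR_smul]
  ring

lemma even_moment {b : ℕ → ℝ} {B : ℝ} (h : Growth b B) {τ t : ℝ}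
    {w lam : (N : ℕ) → Fin (N + 1) → ℝ} (q : Quad b w lam) {U : Ultrafilter ℕ} {κ : ℝ}
    (hU : (U : Filter ℕ) ≤ atTop) (hk : ∀ u : ℝ → ℝ, ContDiff ℝ ∞ u →
      HasCompactSupport u → Tendsto (fun N => TR w lam N u) U (𝓝 (κ * ∫ x, u x * W τ t x)))
    (l : ℕ) : mom b (2 * l) = κ * ∫ x, x ^ (2 * l) * W τ t x := by
  have hlim : Tendsto (fun N => TR w lam N fun x => x ^ (2 * l)) U (𝓝 (mom b (2 * l))) := by
    refine (tendsto_const_nhds.congr' ?_).mono_left hU
    filter_upwards [eventually_ge_atTop (2 * l)] with N hN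
    rw [TR_pow q, mom_trunc_eq b hN]
  have hbound : ∀ n : ℕ, mom b (2 * l) - κ * ∫ x, (x ^ (2 * l) * chi n x) * W τ t x ∈
      Set.Icc (0 : ℝ) (mom b (2 * l + 2) / ((n : ℝ) + 1) ^ 2) := by
    intro n
    have h1 := hk (fun x => x ^ (2 * l) * chi n x) ((contDiff_id.pow _).mul (chi n).contDiff)
      (chi n).hasCompactSupport.mul_left
    have h2 := hlim.sub h1
    refine isClosed_Icc.mem_of_tendsto h2 (Eventually.of_forall fun N => ?_)
    rw [← TR_sub]
    have hn : (0 : ℝ) < (n : ℝ) + 1 := by positivity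
    refine ⟨Finset.sum_nonneg fun i _ => mul_nonneg (q.nn N i) ?_, ?_⟩
    · have a1 := (chi n).le_one (x := lam N i)
      have a2 : 0 ≤ lam N i ^ (2 * l) := by rw [pow_mul]; positivity
      nlinarith
    · have h3 : TR w lam N (fun x => x ^ (2 * l) - x ^ (2 * l) * chi n x) ≤
          TR w lam N (fun x => 1 / ((n : ℝ) + 1) ^ 2 * x ^ (2 * l + 2)) := by
        refine TR_mono q N fun x => ?_
        have a2 : 0 ≤ x ^ (2 * l) := by rw [pow_mul]; positivity
        have a3 : x ^ (2 * l + 2) = x ^ (2 * l) * x ^ 2 := by ring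
        rcases le_or_gt |x| ((n : ℝ) + 1) with hx | hx
        · have : chi n x = 1 := (chi n).one_of_mem_closedBall (by
            rw [Metric.mem_closedBall, Real.dist_eq, sub_zero]; exact hx)
          rw [this, a3]
          have : 0 ≤ 1 / ((n : ℝ) + 1) ^ 2 * (x ^ (2 * l) * x ^ 2) := by positivity
          linarith
        · have a4 := (chi n).nonneg (x := x)
          have a5 : 1 ≤ 1 / ((n : ℝ) + 1) ^ 2 * x ^ 2 := by
            rw [← sq_abs x, one_div, ← div_eq_inv_mul, le_div_iff₀ (by positivity), one_mul]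
            exact pow_le_pow_left₀ hn.le hx.le 2
          rw [a3]
          nlinarith [mul_nonneg a2 a4, mul_nonneg a2 (sub_nonneg.2 a5)]
      rw [TR_smul, TR_pow q] at h3
      have h4 := mom_trunc_le h.1 N (2 * l + 2)
      calc _ ≤ _ := h3
        _ ≤ 1 / ((n : ℝ) + 1) ^ 2 * mom b (2 * l + 2) :=
          mul_le_mul_of_nonneg_left h4 (by positivity)
        _ = _ := by ring
  have hint : Tendsto (fun n : ℕ => ∫ x, (x ^ (2 * l) * chi n x) * W τ t x) atTop
      (𝓝 (∫ x, x ^ (2 * l) * W τ t x)) := by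
    refine tendsto_integral_of_dominated_convergence (fun x => x ^ (2 * l) * W τ t x)
      (fun n => ?_) (integrable_pow_W τ t _) (fun n => Eventually.of_forall fun x => ?_)
      (Eventually.of_forall fun x => ?_)
    · exact (((continuous_pow _).mul (chi n).continuous).mul
        (W_contDiff τ t).continuous).aestronglyMeasurable
    · have a1 := (chi n).le_one (x := x)
      have a4 := (chi n).nonneg (x := x)
      have a2 : 0 ≤ x ^ (2 * l) := by rw [pow_mul]; positivity
      have a6 := W_pos τ t x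
      rw [Real.norm_of_nonneg (by positivity)]
      refine mul_le_mul_of_nonneg_right ?_ a6.le
      nlinarith
    · refine tendsto_const_nhds.congr' ?_
      filter_upwards [eventually_ge_atTop ⌈|x|⌉₊] with n hn
      have : chi n x = 1 := (chi n).one_of_mem_closedBall (by
        rw [Metric.mem_closedBall, Real.dist_eq, sub_zero]
        have h1 : |x| ≤ n := (Nat.le_ceil _).trans (by exact_mod_cast hn)
        show |x| ≤ (n : ℝ) + 1
        linarith)
      rw [this, mul_one]
  have h5 := (tendsto_const_nhds (x := mom b (2 * l))).sub (hint.const_mul κ)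
  have h6 : Tendsto (fun n : ℕ => mom b (2 * l + 2) / ((n : ℝ) + 1) ^ 2) atTop (𝓝 0) := by
    have h7 : Tendsto (fun n : ℕ => 1 / ((n : ℝ) + 1)) atTop (𝓝 0) :=
      tendsto_one_div_add_atTop_nhds_zero_nat
    have h8 := (h7.pow 2).const_mul (mom b (2 * l + 2))
    simp only [ne_eq, OfNat.ofNat_ne_zero, not_false_eq_true, zero_pow, mul_zero] at h8
    refine h8.congr fun n => ?_
    rw [one_div, inv_pow, div_eq_mul_inv]
  have h9 : mom b (2 * l) - κ * ∫ x, x ^ (2 * l) * W τ t x = 0 := by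
    refine le_antisymm ?_ ?_
    · exact le_of_tendsto_of_tendsto' h5 h6 fun n => (hbound n).2
    · exact ge_of_tendsto' h5 fun n => (hbound n).1
  linarith

/-- The moments of the weight. -/
noncomputable def mu (τ t : ℝ) (k : ℕ) : ℝ := ∫ x, x ^ k * W τ t x

lemma mu_pos (τ t : ℝ) (l : ℕ) : 0 < mu τ t (2 * l) := by
  unfold mu
  rw [integral_pos_iff_support_of_nonneg (fun x => ?_) (integrable_pow_W τ t _)]
  · have hcont : Continuous fun x => x ^ (2 * l) * W τ t x :=
      (continuous_pow _).mul (W_contDiff τ t).continuous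
    refine hcont.isOpen_support.measure_pos _ ⟨1, ?_⟩
    rw [Function.mem_support, one_pow, one_mul]
    exact (W_pos τ t 1).ne'
  · have := W_pos τ t x
    have a2 : 0 ≤ x ^ (2 * l) := by rw [pow_mul]; positivity
    positivity

/-- All even moments of a solution are the normalised moments of the weight. -/
theorem moments {b : ℕ → ℝ} {B : ℝ} (h : Growth b B) (h0 : b 0 = 0) {τ t : ℝ}
    (hs : ∀ n : ℕ, stringLHS τ t b n = n + 1) (l : ℕ) :
    mom b (2 * l) = mu τ t (2 * l) / mu τ t 0 := by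
  obtain ⟨w, lam, q⟩ := exists_quad h.1
  obtain ⟨U, κ, hU, hk⟩ := exists_kappa h h0 hs q
  have h1 := even_moment h q hU hk l
  have h2 := even_moment h q hU hk 0
  rw [mul_zero, mom_zero] at h2
  have h3 : mu τ t 0 ≠ 0 := (mu_pos τ t 0).ne'
  change 1 = κ * mu τ t 0 at h2
  change mom b (2 * l) = κ * mu τ t (2 * l) at h1
  rw [h1, eq_div_iff h3]
  linear_combination (-mu τ t (2 * l)) * h2

end Pool.Agent.X94.Freud
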