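import Mathlib
import Pool.Agent.X94.FrE

/-! Uniqueness of the positive solution. -/

namespace Pool.Agent.X94.Freud

open Finset Filter Topology MeasureTheory Polynomial

/-- A positive solution of the string equation. -/
def PosSol (τ t : ℝ) (b : ℕ → ℝ) : Prop :=
  b 0 = 0 ∧ (∀ n : ℕ, 0 < b (n + 1)) ∧ ∀ n : ℕ, stringLHS τ t b n = n + 1

lemma PosSol.growth {τ t : ℝ} {b : ℕ → ℝ} (h : PosSol τ t b) : ∃ B, Growth b B := by
  obtain ⟨h0, hp, hs⟩ := h
  have hnn : ∀ n, 0 ≤ b n := by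
    intro n
    rcases n with _ | n
    · exact h0.ge
    · exact (hp n).le
  refine ⟨|τ| + |t| + 2, hnn, fun n => ?_⟩
  have e := hs n
  unfold stringLHS at e
  have c0 := hnn (n - 1)
  have c1 := hnn n
  have c2 := hp n
  have c3 := hnn (n + 2)
  have c4 := hnn (n + 3)
  have n0 : (0 : ℝ) ≤ n := Nat.cast_nonneg n
  have a1 := abs_nonneg τ
  have a2 := abs_nonneg t
  set x := b (n + 1) with hx
  set p := b n with hpdef
  set r := b (n + 2) with hr
  set S := p + x + r with hS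
  have hxS : x ≤ S := by rw [hS]; linarith
  have hS0 : 0 < S := lt_of_lt_of_le c2 hxS
  by_contra hcon
  push Not at hcon
  have hx1 : |τ| + |t| + 2 ≤ x := by
    have : (|τ| + |t| + 2) * 1 ≤ (|τ| + |t| + 2) * ((n : ℝ) + 1) :=
      mul_le_mul_of_nonneg_left (by linarith) (by positivity)
    linarith
  have hx2 : (n : ℝ) + 1 < x := by
    have : 1 * ((n : ℝ) + 1) ≤ (|τ| + |t| + 2) * ((n : ℝ) + 1) :=
      mul_le_mul_of_nonneg_right (by linarith) (by positivity)
    linarith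
  have hSb : |τ| + |t| + 2 ≤ S := hx1.trans hxS
  -- the bracket
  have k1 : (3 / 4) * S ^ 2 ≤ b (n - 1) * p + p ^ 2 + 2 * p * x + p * r + x ^ 2 + 2 * x * r +
      r ^ 2 + r * b (n + 3) := by
    rw [hS]
    nlinarith [mul_nonneg c0 c1, mul_nonneg c3 c4, sq_nonneg (p - r), mul_nonneg c1 c2.le,
      mul_nonneg c2.le c3, sq_nonneg x, mul_nonneg c1 c3]
  have k2 : τ * S ≤ |τ| * S := mul_le_mul_of_nonneg_right (le_abs_self τ) hS0.le
  have k3 : t ≤ |t| := le_abs_self t
  have k4 : 1 ≤ 6 * ((3 / 4) * S ^ 2) - 4 * (|τ| * S) - 2 * |t| := by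
    have m1 : (|τ| + |t| + 2) * S ≤ S * S := mul_le_mul_of_nonneg_right hSb hS0.le
    have m2 : 0 ≤ |t| * S := by positivity
    have m3 : |t| * 2 ≤ |t| * S := mul_le_mul_of_nonneg_left (by linarith) a2
    have m4 : 0 ≤ |τ| * S := by positivity
    nlinarith
  have k5 : x * 1 ≤ x * (6 * (b (n - 1) * p + p ^ 2 + 2 * p * x + p * r + x ^ 2 + 2 * x * r +
      r ^ 2 + r * b (n + 3)) - 4 * (τ * S) - 2 * t) := by
    refine mul_le_mul_of_nonneg_left ?_ c2.le
    linarith
  have k6 : x * (6 * (b (n - 1) * p + p ^ 2 + 2 * p * x + p * r + x ^ 2 + 2 * x * r +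
      r ^ 2 + r * b (n + 3)) - 4 * (τ * S) - 2 * t) = n + 1 := by
    rw [← e, hS]; ring
  linarith

lemma mom_two (b : ℕ → ℝ) : mom b 2 = b 1 := by
  have : (J b ^ 2) = J b * J b := pow_two _
  rw [mom, this, Module.End.mul_apply, J_zero, J_succ]
  simp [E]

lemma mom_four (b : ℕ → ℝ) : mom b 4 = b 1 * (b 1 + b 2) := by
  have : (J b ^ 4) = J b * (J b * (J b * J b)) := by
    rw [pow_succ', pow_succ', pow_two]
  rw [mom, this]
  simp only [Module.End.mul_apply, J_zero, J_succ, E]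
  norm_num

lemma PosSol.init {τ t : ℝ} {b : ℕ → ℝ} (h : PosSol τ t b) :
    b 1 = mu τ t 2 / mu τ t 0 ∧ b 2 = mu τ t 4 / mu τ t 2 - mu τ t 2 / mu τ t 0 := by
  obtain ⟨B, hB⟩ := h.growth
  have m1 := moments hB h.1 h.2.2 1
  have m2 := moments hB h.1 h.2.2 2
  rw [show 2 * 1 = 2 from rfl, mom_two] at m1
  rw [show 2 * 2 = 4 from rfl, mom_four] at m2
  have p0 := mu_pos τ t 0
  have p1 := mu_pos τ t 1
  rw [mul_zero] at p0
  rw [show 2 * 1 = 2 from rfl] at p1
  refine ⟨m1, ?_⟩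
  rw [m1] at m2
  have h3 : mu τ t 2 / mu τ t 0 + b 2 = mu τ t 4 / mu τ t 2 := by
    field_simp at m2 ⊢
    linarith
  linarith

lemma PosSol.unique {τ t : ℝ} {b c : ℕ → ℝ} (hb : PosSol τ t b) (hc : PosSol τ t c) : b = c := by
  have h1 : b 1 = c 1 := by rw [hb.init.1, hc.init.1]
  have h2 : b 2 = c 2 := by rw [hb.init.2, hc.init.2]
  have h0 : b 0 = c 0 := by rw [hb.1, hc.1]
  have key : ∀ n : ℕ, b n = c n ∧ b (n + 1) = c (n + 1) ∧ b (n + 2) = c (n + 2) := by
    intro n
    induction n using Nat.strong_induction_on with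
    | _ n ih =>
      rcases n with _ | n
      · exact ⟨h0, h1, h2⟩
      · obtain ⟨i0, i1, i2⟩ := ih n (by omega)
        refine ⟨i1, i2, ?_⟩
        have ip : b (n - 1) = c (n - 1) := by
          rcases n with _ | n
          · exact h0
          · exact (ih n (by omega)).1
        have eb := hb.2.2 n
        have ec := hc.2.2 n
        unfold stringLHS at eb ec
        rw [i0, i1, i2, ip] at eb
        have hpos : 0 < c (n + 1) * c (n + 2) := mul_pos (hc.2.1 n) (hc.2.1 (n + 1))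
        have hmul : (6 * (c (n + 1) * c (n + 2))) * b (n + 3) =
            (6 * (c (n + 1) * c (n + 2))) * c (n + 3) := by
          linear_combination eb - ec
        exact mul_left_cancel₀ (by positivity) hmul
  exact funext fun n => (key n).1

end Pool.Agent.X94.Freud
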