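import Mathlib
import Pool.Agent.X94.FrF

/-! Existence: the recurrence coefficients of the weight are a positive solution. -/

namespace Pool.Agent.X94.Freud

open Finset Filter Topology MeasureTheory Polynomial

lemma integrable_poly_W (τ t : ℝ) (p : ℝ[X]) : Integrable fun x : ℝ => p.eval x * W τ t x := by
  induction p using Polynomial.induction_on' with
  | add p q hp hq =>
    refine (hp.add hq).congr (Eventually.of_forall fun x => ?_)
    simp only [Pi.add_apply, eval_add]
    ring
  | monomial n a =>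
    refine ((integrable_pow_W τ t n).const_mul a).congr (Eventually.of_forall fun x => ?_)
    simp only [eval_monomial]
    ring

/-- The functional of the weight. -/
noncomputable def Lam (τ t : ℝ) : ℝ[X] →ₗ[ℝ] ℝ where
  toFun p := ∫ x, p.eval x * W τ t x
  map_add' p q := by
    rw [← integral_add (integrable_poly_W τ t p) (integrable_poly_W τ t q)]
    refine integral_congr_ae (Eventually.of_forall fun x => ?_)
    simp only [eval_add]
    ring
  map_smul' c p := by
    rw [RingHom.id_apply, smul_eq_mul, ← integral_const_mul]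
    refine integral_congr_ae (Eventually.of_forall fun x => ?_)
    simp only [eval_smul, smul_eq_mul]
    ring

lemma Lam_apply (τ t : ℝ) (p : ℝ[X]) : Lam τ t p = ∫ x, p.eval x * W τ t x := rfl

lemma Lam_dV (τ t : ℝ) (p : ℝ[X]) : Lam τ t (dV τ t * p) = Lam τ t (derivative p) := by
  have hd : ∀ x : ℝ, HasDerivAt (fun x => p.eval x * W τ t x)
      ((derivative p - dV τ t * p).eval x * W τ t x) x := by
    intro x
    have h1 : HasDerivAt (W τ t) (W τ t x * -(6 * x ^ 5 - 4 * τ * x ^ 3 - 2 * t * x)) x :=
      (V_hasDerivAt τ t x).neg.exp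
    have h2 := (p.hasDerivAt x).mul h1
    refine h2.congr_deriv ?_
    simp only [dV, eval_sub, eval_mul, eval_C, eval_pow, eval_X]
    ring
  have h3 := integral_eq_zero_of_hasDerivAt_of_integrable hd
    (integrable_poly_W τ t _) (integrable_poly_W τ t p)
  have h4 : Lam τ t (derivative p - dV τ t * p) = 0 := h3
  rw [map_sub] at h4
  linarith

lemma Lam_sq_pos (τ t : ℝ) {p : ℝ[X]} (hp : p ≠ 0) : 0 < Lam τ t (p * p) := by
  rw [Lam_apply, integral_pos_iff_support_of_nonneg (fun x => ?_) (integrable_poly_W τ t _)]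
  · have hcont : Continuous fun x => (p * p).eval x * W τ t x :=
      (p * p).continuous.mul (W_contDiff τ t).continuous
    refine hcont.isOpen_support.measure_pos _ ?_
    obtain ⟨x, hx⟩ : ∃ x, p.eval x ≠ 0 := by
      by_contra hcon
      push Not at hcon
      exact hp (Polynomial.funext fun x => by rw [hcon x, eval_zero])
    refine ⟨x, ?_⟩
    rw [Function.mem_support, eval_mul]
    exact mul_ne_zero (mul_ne_zero hx hx) (W_pos τ t x).ne'
  · have := W_pos τ t x
    simp only [Pi.zero_apply, eval_mul]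
    have h2 := mul_self_nonneg (p.eval x)
    positivity

/-- The monic orthogonal polynomials of the weight. -/
noncomputable def Q (τ t : ℝ) : ℕ → ℝ[X]
  | 0 => 1
  | 1 => X
  | n + 2 => X * Q τ t (n + 1) -
      C (Lam τ t (Q τ t (n + 1) * Q τ t (n + 1)) / Lam τ t (Q τ t n * Q τ t n)) * Q τ t n

/-- The recurrence coefficients of the weight. -/
noncomputable def beta (τ t : ℝ) : ℕ → ℝ
  | 0 => 0
  | n + 1 => Lam τ t (Q τ t (n + 1) * Q τ t (n + 1)) / Lam τ t (Q τ t n * Q τ t n)

lemma Q_eq (τ t : ℝ) (n : ℕ) : Q τ t n = P (beta τ t) n := by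
  induction n using Nat.twoStepInduction with
  | zero => rfl
  | one => rfl
  | more n ih1 ih2 =>
    show X * Q τ t (n + 1) - C (beta τ t (n + 1)) * Q τ t n =
      X * P (beta τ t) (n + 1) - C (beta τ t (n + 1)) * P (beta τ t) n
    rw [ih1, ih2]

lemma P_ne_zero (b : ℕ → ℝ) (n : ℕ) : P b n ≠ 0 := (P_natDegree b n).2.ne_zero

lemma beta_pos (τ t : ℝ) (n : ℕ) : 0 < beta τ t (n + 1) := by
  have h : ∀ m, Q τ t m ≠ 0 := fun m => by rw [Q_eq]; exact P_ne_zero _ m
  exact div_pos (Lam_sq_pos τ t (h _)) (Lam_sq_pos τ t (h _))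

/-- Parity. -/
lemma P_neg (b : ℕ → ℝ) (n : ℕ) (x : ℝ) : (P b n).eval (-x) = (-1) ^ n * (P b n).eval x := by
  induction n using Nat.twoStepInduction with
  | zero => simp [P]
  | one => simp [P]
  | more n ih1 ih2 =>
    simp only [P, eval_sub, eval_mul, eval_X, eval_C]
    rw [ih1, ih2]
    ring

lemma W_neg (τ t x : ℝ) : W τ t (-x) = W τ t x := by
  unfold W V
  congr 1
  ring

lemma Lam_odd (τ t : ℝ) {p : ℝ[X]} (h : ∀ x, p.eval (-x) = -p.eval x) : Lam τ t p = 0 := by
  have h1 := integral_neg_eq_self (fun x => p.eval x * W τ t x) volume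
  simp only [h, W_neg, neg_mul, integral_neg] at h1
  rw [Lam_apply]
  linarith

lemma X_mul_P {b : ℕ → ℝ} (h0 : b 0 = 0) (n : ℕ) :
    X * P b n = P b (n + 1) + C (b n) * P b (n - 1) := by
  rcases n with _ | n
  · simp [P, h0]
  · simp only [P, Nat.add_sub_cancel]
    ring

lemma orth_step {b : ℕ → ℝ} (h0 : b 0 = 0) (Λ : ℝ[X] →ₗ[ℝ] ℝ)
    (hpar : ∀ n, Λ (P b n * P b (n + 1)) = 0)
    (hb : ∀ n, Λ (P b (n + 1) * P b (n + 1)) = b (n + 1) * Λ (P b n * P b n)) :
    ∀ n m, m < n → Λ (P b m * P b n) = 0 := by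
  intro n
  induction n using Nat.strong_induction_on with
  | _ n ih =>
    intro m hm
    rcases n with _ | _ | n
    · omega
    · obtain rfl : m = 0 := by omega
      exact hpar 0
    · have e : P b m * P b (n + 2) = (X * P b m) * P b (n + 1) - C (b (n + 1)) * (P b m * P b n) := by
        simp only [P]
        ring
      have e2 : (X * P b m) * P b (n + 1) = P b (m + 1) * P b (n + 1) +
          C (b m) * (P b (m - 1) * P b (n + 1)) := by
        rw [X_mul_P h0]; ring
      show Λ (P b m * P b (n + 2)) = 0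
      rw [e, e2, map_sub, map_add, ← smul_eq_C_mul, ← smul_eq_C_mul, map_smul, map_smul]
      rcases Nat.lt_trichotomy m n with h | h | h
      · rw [ih (n + 1) (by omega) (m + 1) (by omega), ih (n + 1) (by omega) (m - 1) (by omega),
          ih n (by omega) m h]
        simp
      · subst h
        have e3 : b m • Λ (P b (m - 1) * P b (m + 1)) = 0 := by
          rcases m with _ | m
          · rw [h0, zero_smul]
          · rw [ih (m + 1 + 1) (by omega) (m + 1 - 1) (by omega), smul_zero]
        rw [e3, hb, smul_eq_mul]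
        ring
      · obtain rfl : m = n + 1 := by omega
        have e3 := hpar (n + 1)
        have e4 := ih (n + 1) (by omega) n (by omega)
        rw [mul_comm] at e3
        rw [e3, Nat.add_sub_cancel, e4, mul_comm, e4]
        simp

lemma functional_eq {b : ℕ → ℝ} (h0 : b 0 = 0) (Λ : ℝ[X] →ₗ[ℝ] ℝ)
    (h : ∀ n, Λ (P b (n + 1)) = 0) (p : ℝ[X]) : Λ p = Λ 1 * L b p := by
  have key : ∀ d : ℕ, ∀ p : ℝ[X], p.natDegree ≤ d → Λ p = Λ 1 * L b p := by
    intro d
    induction d with
    | zero =>
      intro p hp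
      have : p = p.coeff 0 • (1 : ℝ[X]) := by
        rw [smul_eq_C_mul, mul_one]
        exact eq_C_of_natDegree_le_zero hp
      rw [this, map_smul, map_smul]
      have : L b 1 = 1 := by
        have := L_X_pow b 0
        rwa [pow_zero, mom_zero] at this
      rw [this]
      simp only [smul_eq_mul]
      ring
    | succ d ih =>
      intro p hp
      have hrem : (p - C (p.coeff (d + 1)) * P b (d + 1)).natDegree ≤ d := by
        rw [natDegree_le_iff_coeff_eq_zero]
        intro N hN
        rw [coeff_sub, coeff_C_mul]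
        have hdeg := (P_natDegree b (d + 1)).1
        rcases Nat.lt_or_ge (d + 1) N with h | h
        · rw [coeff_eq_zero_of_natDegree_lt (by omega : p.natDegree < N),
            coeff_eq_zero_of_natDegree_lt (by omega : (P b (d + 1)).natDegree < N)]
          ring
        · have hN' : N = d + 1 := by omega
          have hc : (P b (d + 1)).coeff (d + 1) = 1 := by
            have := (P_natDegree b (d + 1)).2.coeff_natDegree
            rwa [hdeg] at this
          rw [hN', hc]
          ring
      have h1 := ih _ hrem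
      have hL : L b (P b (d + 1)) = 0 := by
        have := L_P_P h0 0 (d + 1)
        rw [if_neg (by omega)] at this
        simpa [P] using this
      have h2 : p = (p - C (p.coeff (d + 1)) * P b (d + 1)) + p.coeff (d + 1) • P b (d + 1) := by
        rw [smul_eq_C_mul]; ring
      rw [h2, map_add, map_add, h1, map_smul, map_smul, h d, hL]
      simp
  exact key _ p le_rfl

lemma L_dV_PP {b : ℕ → ℝ} (h0 : b 0 = 0) (τ t : ℝ) (n : ℕ) :
    L b (dV τ t * (P b n * P b (n + 1))) = hn b n * stringLHS τ t b n := by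
  rw [show dV τ t * (P b n * P b (n + 1)) = P b (n + 1) * (dV τ t * P b n) by ring, L_P_mul,
    map_mul, Module.End.mul_apply, aeval_P_E h0, hn_succ, mul_assoc, aeval_dV_E h0]

lemma L_deriv_PP {b : ℕ → ℝ} (n : ℕ) :
    L b (derivative (P b n * P b (n + 1))) = hn b n * (n + 1) := by
  rw [derivative_mul, map_add, mul_comm (derivative (P b n)), L_P_mul, L_P_mul]
  have d1 := (P_natDegree b n).1
  have d2 := (P_natDegree b (n + 1)).1
  have m2 := (P_natDegree b (n + 1)).2
  have k1 : (derivative (P b n)).natDegree ≤ n + 1 := by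
    have := natDegree_derivative_le (P b n)
    omega
  have k2 : (derivative (P b (n + 1))).natDegree ≤ n := by
    have := natDegree_derivative_le (P b (n + 1))
    omega
  rw [aeval_coeff b _ _ k1, aeval_coeff b _ _ k2, coeff_derivative, coeff_derivative]
  have c1 : (P b n).coeff (n + 1 + 1) = 0 := coeff_eq_zero_of_natDegree_lt (by omega)
  have c2 : (P b (n + 1)).coeff (n + 1) = 1 := by
    have := m2.coeff_natDegree
    rwa [d2] at this
  rw [c1, c2]
  ring

lemma beta_orth (τ t : ℝ) {m n : ℕ} (h : m < n) :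
    Lam τ t (P (beta τ t) m * P (beta τ t) n) = 0 := by
  refine orth_step rfl (Lam τ t) (fun n => ?_) (fun n => ?_) n m h
  · refine Lam_odd τ t fun x => ?_
    rw [eval_mul, eval_mul, P_neg, P_neg, pow_succ]
    have : ((-1 : ℝ) ^ n) * ((-1 : ℝ) ^ n) = 1 := by
      rw [← mul_pow]; norm_num
    linear_combination (-(eval x (P (beta τ t) n) * eval x (P (beta τ t) (n + 1)))) * this
  · have h1 : 0 < Lam τ t (P (beta τ t) n * P (beta τ t) n) := Lam_sq_pos τ t (P_ne_zero _ n)
    have h2 : beta τ t (n + 1) = Lam τ t (P (beta τ t) (n + 1) * P (beta τ t) (n + 1)) /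
        Lam τ t (P (beta τ t) n * P (beta τ t) n) := by
      rw [← Q_eq, ← Q_eq]; rfl
    rw [h2]
    field_simp

theorem beta_sol (τ t : ℝ) : PosSol τ t (beta τ t) := by
  refine ⟨rfl, beta_pos τ t, fun n => ?_⟩
  have hΛ : ∀ p, Lam τ t p = Lam τ t 1 * L (beta τ t) p :=
    functional_eq rfl (Lam τ t) fun n => by
      have := beta_orth τ t (m := 0) (n := n + 1) (by omega)
      simpa [P] using this
  have h1 := Lam_dV τ t (P (beta τ t) n * P (beta τ t) (n + 1))
  have hpos : 0 < Lam τ t 1 := by
    have := Lam_sq_pos τ t (p := 1) one_ne_zero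
    rwa [mul_one] at this
  rw [hΛ, hΛ (derivative _)] at h1
  have h2 := mul_left_cancel₀ hpos.ne' h1
  rw [L_dV_PP rfl, L_deriv_PP] at h2
  have h3 : hn (beta τ t) n ≠ 0 := (Finset.prod_pos fun i _ => beta_pos τ t i).ne'
  exact mul_left_cancel₀ h3 h2

end Pool.Agent.X94.Freud
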