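import Mathlib

/-! Full limiting sequences of a bounded real sequence along ultrafilters. -/

namespace Pool.Agent.X94.Lim

open Filter Topology

/-- The limsup of a bounded sequence is a cluster point. -/
lemma cluster_limsup {x : ℕ → ℝ} {c C : ℝ} (h0 : ∀ n, c ≤ x n) (hC : ∀ n, x n ≤ C) :
    MapClusterPt (limsup x atTop) atTop x := by
  have hb1 : IsBoundedUnder (· ≤ ·) atTop x := isBoundedUnder_of ⟨C, hC⟩
  have hb2 : IsBoundedUnder (· ≥ ·) atTop x := isBoundedUnder_of ⟨c, h0⟩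
  rw [mapClusterPt_iff_frequently]
  intro s hs
  obtain ⟨ε, hε, hεs⟩ := Metric.mem_nhds_iff.mp hs
  have h1 : ∃ᶠ n in atTop, limsup x atTop - ε < x n :=
    frequently_lt_of_lt_limsup hb2.isCoboundedUnder_le (by linarith)
  have h2 : ∀ᶠ n in atTop, x n < limsup x atTop + ε :=
    eventually_lt_of_limsup_lt (by linarith) hb1
  refine (h1.and_eventually h2).mono ?_
  rintro n ⟨h3, h4⟩
  apply hεs
  rw [Metric.mem_ball, Real.dist_eq, abs_lt]
  constructor <;> linarith

/-- The liminf of a bounded sequence is a cluster point. -/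
lemma cluster_liminf {x : ℕ → ℝ} {c C : ℝ} (h0 : ∀ n, c ≤ x n) (hC : ∀ n, x n ≤ C) :
    MapClusterPt (liminf x atTop) atTop x := by
  have hb1 : IsBoundedUnder (· ≤ ·) atTop x := isBoundedUnder_of ⟨C, hC⟩
  have hb2 : IsBoundedUnder (· ≥ ·) atTop x := isBoundedUnder_of ⟨c, h0⟩
  rw [mapClusterPt_iff_frequently]
  intro s hs
  obtain ⟨ε, hε, hεs⟩ := Metric.mem_nhds_iff.mp hs
  have h1 : ∃ᶠ n in atTop, x n < liminf x atTop + ε :=
    frequently_lt_of_liminf_lt hb1.isCoboundedUnder_ge (by linarith)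
  have h2 : ∀ᶠ n in atTop, liminf x atTop - ε < x n :=
    eventually_lt_of_lt_liminf (by linarith) hb2
  refine (h1.and_eventually h2).mono ?_
  rintro n ⟨h3, h4⟩
  apply hεs
  rw [Metric.mem_ball, Real.dist_eq, abs_lt]
  constructor <;> linarith

/-- Along a suitable ultrafilter all backward shifts converge, the `0`-th one to a prescribed
cluster point, and all limits lie between the liminf and the limsup. -/
lemma exists_lims {x : ℕ → ℝ} {c C : ℝ} (h0 : ∀ n, c ≤ x n) (hC : ∀ n, x n ≤ C) {L : ℝ}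
    (hL : MapClusterPt L atTop x) :
    ∃ (U : Ultrafilter ℕ) (l : ℕ → ℝ), (U : Filter ℕ) ≤ atTop ∧
      (∀ j, Tendsto (fun n => x (n - j)) U (𝓝 (l j))) ∧ l 0 = L ∧
      (∀ j, liminf x atTop ≤ l j) ∧ ∀ j, l j ≤ limsup x atTop := by
  have hb1 : IsBoundedUnder (· ≤ ·) atTop x := isBoundedUnder_of ⟨C, hC⟩
  have hb2 : IsBoundedUnder (· ≥ ·) atTop x := isBoundedUnder_of ⟨c, h0⟩
  obtain ⟨U, hU, hUM⟩ := mapClusterPt_iff_ultrafilter.mp hL
  have hex : ∀ s : ℕ, ∃ a, Tendsto (fun n => x (n - s)) U (𝓝 a) := by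
    intro s
    obtain ⟨a, -, ha⟩ := (isCompact_Icc (a := c) (b := C)).ultrafilter_le_nhds
      (U.map (fun n => x (n - s))) (by
        rw [le_principal_iff, Ultrafilter.coe_map, Filter.mem_map]
        filter_upwards with n using ⟨h0 _, hC _⟩)
    exact ⟨a, ha⟩
  choose l hl using hex
  refine ⟨U, l, hU, hl, tendsto_nhds_unique (hl 0) (by simpa using hUM), ?_, ?_⟩
  · intro s
    refine le_of_forall_sub_le fun ε hε => ?_
    have h2 : ∀ᶠ n in atTop, liminf x atTop - ε < x n :=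
      eventually_lt_of_lt_liminf (by linarith) hb2
    have h3 : ∀ᶠ n in (U : Filter ℕ), liminf x atTop - ε < x (n - s) :=
      ((tendsto_sub_atTop_nat s).eventually h2).filter_mono hU
    exact ge_of_tendsto (hl s) (h3.mono fun n hn => hn.le)
  · intro s
    refine le_of_forall_pos_le_add fun ε hε => ?_
    have h2 : ∀ᶠ n in atTop, x n < limsup x atTop + ε :=
      eventually_lt_of_limsup_lt (by linarith) hb1
    have h3 : ∀ᶠ n in (U : Filter ℕ), x (n - s) < limsup x atTop + ε :=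
      ((tendsto_sub_atTop_nat s).eventually h2).filter_mono hU
    exact le_of_tendsto (hl s) (h3.mono fun n hn => hn.le)

/-- A bounded sequence with equal liminf and limsup converges. -/
lemma tendsto_of_eq {x : ℕ → ℝ} {c C : ℝ} (h0 : ∀ n, c ≤ x n) (hC : ∀ n, x n ≤ C)
    (h : limsup x atTop ≤ liminf x atTop) : Tendsto x atTop (𝓝 (liminf x atTop)) :=
  tendsto_of_le_liminf_of_limsup_le le_rfl h (isBoundedUnder_of ⟨C, hC⟩)
    (isBoundedUnder_of ⟨c, h0⟩)

lemma le_liminf {x : ℕ → ℝ} {c C : ℝ} (h0 : ∀ n, c ≤ x n) (hC : ∀ n, x n ≤ C) :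
    c ≤ liminf x atTop :=
  le_liminf_of_le (isBoundedUnder_of ⟨C, hC⟩ : IsBoundedUnder (· ≤ ·) atTop x).isCoboundedUnder_ge
    (Eventually.of_forall h0)

lemma liminf_le {x : ℕ → ℝ} {c C : ℝ} (h0 : ∀ n, c ≤ x n) (hC : ∀ n, x n ≤ C) :
    liminf x atTop ≤ limsup x atTop :=
  liminf_le_limsup (isBoundedUnder_of ⟨C, hC⟩) (isBoundedUnder_of ⟨c, h0⟩)

end Pool.Agent.X94.Lim
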