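import Mathlib

/-!
Boundedness of all positive solutions of `x_{n+1} = γ + x_{n-2m}/x_{n-1}`, `0 < γ < 1`.

At a record time the residue classes modulo `2m+1`, ordered by steps of `2`, have to be alternately
huge and close to `γ` during a long stretch of the past, which is impossible on an odd ring.
-/

namespace Pool.Agent.X94.BdA

open Finset

/-- The array `X i r = x (b + 2 i + r N)` of a solution seen from a record time. -/
structure Arr (γ : ℝ) (N R₀ : ℕ) (H : ℝ) (X : ℕ → ℕ → ℝ) : Prop where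
  low : ∀ i r, γ < X i r
  step : ∀ i r, X (i + 1) (r + 1) = γ + X (i + 1) r / X i (r + 1)
  wrap : ∀ r, X N r = X 0 (r + 2)
  bd : ∀ i r, 2 * i + r * N < R₀ * N → X i r ≤ H

theorem small_of_large {γ : ℝ} {N R₀ : ℕ} {H : ℝ} {X : ℕ → ℕ → ℝ} (h : Arr γ N R₀ H X)
    (hγ : 0 < γ) (hN : 3 ≤ N) (hH : 0 ≤ H) (i r0 : ℕ) (Λ g : ℝ) (hΛ : 1 ≤ Λ)
    (hg0 : 0 ≤ g) (hg : γ + g / Λ ≤ g)
    (hlarge : ∀ r, r0 ≤ r → r + (i + 1) ≤ R₀ → Λ ≤ X i r) :
    ∀ n, r0 + n + (i + 1) ≤ R₀ → X (i + 1) (r0 + n) ≤ g + H / Λ ^ n := by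
  have hΛ0 : 0 < Λ := by linarith
  intro n
  induction n with
  | zero =>
    intro hn
    have h1 : X (i + 1) (r0 + 0) ≤ H := by
      apply h.bd
      have h2 : (r0 + (i + 1)) * N ≤ R₀ * N := Nat.mul_le_mul_right N (by omega)
      have h3 : 3 * (i + 1) ≤ N * (i + 1) := Nat.mul_le_mul_right _ hN
      nlinarith
    rw [pow_zero, div_one]
    linarith
  | succ n ih =>
    intro hn
    have h1 := ih (by omega)
    have h2 := hlarge (r0 + n + 1) (by omega) (by omega)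
    have h3 := h.low (i + 1) (r0 + n)
    rw [← add_assoc, h.step]
    have h4 : X (i + 1) (r0 + n) / X i (r0 + n + 1) ≤ (g + H / Λ ^ n) / Λ := by
      apply div_le_div₀ _ h1 hΛ0 h2
      have : 0 ≤ H / Λ ^ n := by positivity
      linarith
    have h5 : (g + H / Λ ^ n) / Λ = g / Λ + H / Λ ^ (n + 1) := by
      rw [pow_succ]; field_simp
    linarith

theorem large_of_small {γ : ℝ} {N R₀ : ℕ} {H : ℝ} {X : ℕ → ℕ → ℝ} (h : Arr γ N R₀ H X)
    (hγ : 0 < γ) (i r1 : ℕ) (R : ℝ) (hR : 1 ≤ R)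
    (hsmall : ∀ r, r1 ≤ r → r + (i + 1) ≤ R₀ → X i r ≤ 1 / R) :
    ∀ n, r1 + n + (i + 1) ≤ R₀ → γ * R ^ n ≤ X (i + 1) (r1 + n) := by
  have hR0 : 0 < R := by linarith
  intro n
  induction n with
  | zero =>
    intro _
    have := (h.low (i + 1) (r1 + 0)).le
    simpa using this
  | succ n ih =>
    intro hn
    have h1 := ih (by omega)
    have h2 := hsmall (r1 + n + 1) (by omega) (by omega)
    have h3 := h.low i (r1 + n + 1)
    have h3' : 0 < X i (r1 + n + 1) := by linarith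
    rw [← add_assoc, h.step]
    have h4 : γ * R ^ n * R ≤ X (i + 1) (r1 + n) / X i (r1 + n + 1) := by
      rw [le_div_iff₀ h3']
      have h5 : R * X i (r1 + n + 1) ≤ 1 := by
        calc R * X i (r1 + n + 1) ≤ R * (1 / R) := mul_le_mul_of_nonneg_left h2 hR0.le
          _ = 1 := by field_simp
      calc γ * R ^ n * R * X i (r1 + n + 1) = γ * R ^ n * (R * X i (r1 + n + 1)) := by ring
        _ ≤ γ * R ^ n * 1 := mul_le_mul_of_nonneg_left h5 (by positivity)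
        _ ≤ X (i + 1) (r1 + n) := by rw [mul_one]; exact h1
    have h6 : γ * R ^ (n + 1) = γ * R ^ n * R := by rw [pow_succ]; ring
    rw [h6]
    linarith

/-- One stage: large on a long stretch forces the next class to be small on a long stretch. -/
theorem small_stage {γ R : ℝ} (hγ : 0 < γ) (hR1 : 1 < R) (hγR : γ < 1 / R) (C D : ℕ)
    (hD : 0 < D) :
    ∃ e₀ : ℕ, ∀ K e : ℕ, e₀ ≤ e → e = K / D → ∀ (N R₀ : ℕ) (H : ℝ) (X : ℕ → ℕ → ℝ), 3 ≤ N →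
      0 ≤ H → Arr γ N R₀ H X → e ≤ R₀ → H ≤ R ^ (C * K) → ∀ i,
      (∀ r, R₀ ≤ r + e → r + (i + 1) ≤ R₀ → R ^ e ≤ X i r) →
      ∀ r, R₀ + (2 * C * D + 1) ≤ r + e → r + (i + 1) ≤ R₀ → X (i + 1) r ≤ 1 / R := by
  obtain ⟨g, hg⟩ : ∃ g, g = (γ + 1 / R) / 2 := ⟨_, rfl⟩
  obtain ⟨ε, hε⟩ : ∃ ε, ε = (1 / R - γ) / 2 := ⟨_, rfl⟩
  have hε0 : 0 < ε := by rw [hε]; linarith
  have hg0 : 0 < g := by rw [hg]; positivity
  have hgγ : g = γ + ε := by rw [hg, hε]; ring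
  have hgR : g + ε = 1 / R := by rw [hg, hε]; ring
  obtain ⟨e₁, he₁⟩ := pow_unbounded_of_one_lt ((g + 1) / ε) hR1
  refine ⟨max e₁ 1, ?_⟩
  intro K e he heK N R₀ H X hN hH h heR hHR i hlarge r hr1 hr2
  have he1 : 1 ≤ e := le_trans (le_max_right _ _) he
  have hΛ : (g + 1) / ε ≤ R ^ e :=
    he₁.le.trans (pow_le_pow_right₀ hR1.le (le_trans (le_max_left _ _) he))
  have hΛ1 : 1 ≤ R ^ e := one_le_pow₀ hR1.le
  have hΛ0 : 0 < R ^ e := by positivity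
  have h1 : (g + 1) ≤ ε * R ^ e := by
    rw [div_le_iff₀ hε0] at hΛ; linarith
  have h2 : g / R ^ e ≤ ε := by
    rw [div_le_iff₀ hΛ0]; linarith
  have h3 : 1 / R ^ e ≤ ε := by
    rw [div_le_iff₀ hΛ0]; linarith
  have hst := small_of_large h hγ hN hH i (R₀ - e) (R ^ e) g hΛ1 hg0.le (by linarith)
    (fun r' h1 h2 => hlarge r' (by omega) h2) (r - (R₀ - e)) (by omega)
  rw [show R₀ - e + (r - (R₀ - e)) = r by omega] at hst
  refine hst.trans ?_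
  have hn : 2 * C * D + 1 ≤ r - (R₀ - e) := by omega
  have h4 : H ≤ (R ^ e) ^ (2 * C * D) := by
    refine hHR.trans ?_
    rw [← pow_mul]
    apply pow_le_pow_right₀ hR1.le
    have h5 : K < D * (e + 1) := by
      rw [heK]
      have := Nat.lt_mul_div_succ K hD
      simpa using this
    have h6 : D * (e + 1) ≤ 2 * D * e := by nlinarith
    calc C * K ≤ C * (2 * D * e) := Nat.mul_le_mul_left _ (by omega)
      _ = e * (2 * C * D) := by ring
  have h5 : H / (R ^ e) ^ (r - (R₀ - e)) ≤ 1 / R ^ e := by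
    rw [div_le_div_iff₀ (by positivity) hΛ0, one_mul]
    calc H * R ^ e ≤ (R ^ e) ^ (2 * C * D) * R ^ e := mul_le_mul_of_nonneg_right h4 hΛ0.le
      _ = (R ^ e) ^ (2 * C * D + 1) := by rw [pow_succ]
      _ ≤ (R ^ e) ^ (r - (R₀ - e)) := pow_le_pow_right₀ hΛ1 hn
  rw [← hgR]
  linarith

/-- The chain of alternating stages. -/
theorem chain {γ R : ℝ} (hγ : 0 < γ) (hR1 : 1 < R) (hγR : γ < 1 / R) (C : ℕ) :
    ∀ l : ℕ, ∃ K₁ : ℕ, ∀ K, K₁ ≤ K → ∀ (N R₀ : ℕ) (H : ℝ) (X : ℕ → ℕ → ℝ), 3 ≤ N → 0 ≤ H →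
      Arr γ N R₀ H X → K ≤ R₀ → H ≤ R ^ (C * K) →
      (∀ r, R₀ ≤ r + K → r ≤ R₀ → R ^ K ≤ X 0 r) →
      ∀ r, R₀ ≤ r + K / 8 ^ l → r + (2 * l + 1) ≤ R₀ → R ^ (K / 8 ^ l) ≤ X (2 * l) r := by
  intro l
  induction l with
  | zero =>
    refine ⟨0, ?_⟩
    intro K _ N R₀ H X _ _ _ _ _ h0 r h1 h2
    simp only [pow_zero, Nat.div_one, Nat.mul_zero] at h1 h2 ⊢
    exact h0 r h1 (by omega)
  | succ l ih =>
    obtain ⟨K₁, hK₁⟩ := ih
    obtain ⟨e₀, he₀⟩ := small_stage hγ hR1 hγR C (8 ^ l) (by positivity)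
    obtain ⟨nγ, hnγ⟩ := pow_unbounded_of_one_lt (1 / γ) hR1
    have hγn : 1 ≤ γ * R ^ nγ := by
      rw [div_lt_iff₀ hγ] at hnγ; linarith
    set s := 2 * C * 8 ^ l + 1 with hs
    refine ⟨max K₁ (8 ^ l * (max e₀ (2 * (s + nγ)))), ?_⟩
    intro K hK N R₀ H X hN hH h hKR hHR h0 r hr1 hr2
    have hK1 : K₁ ≤ K := (le_max_left _ _).trans hK
    have hK2 : max e₀ (2 * (s + nγ)) ≤ K / 8 ^ l := by
      rw [Nat.le_div_iff_mul_le (by positivity), mul_comm]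
      exact (le_max_right _ _).trans hK
    obtain ⟨e, he⟩ : ∃ e, e = K / 8 ^ l := ⟨_, rfl⟩
    rw [← he] at hK2
    have heK : e ≤ K := by rw [he]; exact Nat.div_le_self _ _
    have hlarge := hK₁ K hK1 N R₀ H X hN hH h hKR hHR h0
    rw [← he] at hlarge
    have hsmall := he₀ K e ((le_max_left _ _).trans hK2) he N R₀ H X hN hH h (by omega) hHR (2 * l)
      hlarge
    have he2 : 2 * (s + nγ) ≤ e := (le_max_right _ _).trans hK2
    have hdiv : K / 8 ^ (l + 1) = e / 8 := by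
      rw [he, pow_succ, Nat.div_div_eq_div_mul]
    rw [hdiv] at hr1 ⊢
    have hl := large_of_small h hγ (2 * l + 1) (R₀ + s - e) R hR1.le
      (fun r' h1 h2 => hsmall r' (by omega) (by omega)) (r - (R₀ + s - e)) (by omega)
    rw [show R₀ + s - e + (r - (R₀ + s - e)) = r by omega,
      show 2 * l + 1 + 1 = 2 * (l + 1) by ring] at hl
    refine le_trans ?_ hl
    have hn : e / 8 + nγ ≤ r - (R₀ + s - e) := by omega
    calc R ^ (e / 8) = 1 * R ^ (e / 8) := by ring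
      _ ≤ (γ * R ^ nγ) * R ^ (e / 8) := mul_le_mul_of_nonneg_right hγn (by positivity)
      _ = γ * R ^ (e / 8 + nγ) := by rw [pow_add]; ring
      _ ≤ γ * R ^ (r - (R₀ + s - e)) :=
        mul_le_mul_of_nonneg_left (pow_le_pow_right₀ hR1.le hn) hγ.le

/-- No record at a high level. -/
theorem no_record {γ R : ℝ} (hγ : 0 < γ) (hR1 : 1 < R) (hγR : γ < 1 / R) (C m : ℕ) (hm : 1 ≤ m) :
    ∃ K₁ : ℕ, ∀ K, K₁ ≤ K → ∀ (R₀ : ℕ) (H : ℝ) (X : ℕ → ℕ → ℝ), 0 ≤ H →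
      Arr γ (2 * m + 1) R₀ H X → K ≤ R₀ → H ≤ R ^ (C * K) →
      (∀ r, R₀ ≤ r + K → r ≤ R₀ → R ^ K ≤ X 0 r) → False := by
  obtain ⟨K₁, hK₁⟩ := chain hγ hR1 hγR C m
  obtain ⟨e₀, he₀⟩ := small_stage hγ hR1 hγR C (8 ^ m) (by positivity)
  set s := 2 * C * 8 ^ m + 1 with hs
  refine ⟨max K₁ (8 ^ m * (max e₀ (s + (2 * m + 1)))), ?_⟩
  intro K hK R₀ H X hH h hKR hHR h0
  have hK1 : K₁ ≤ K := (le_max_left _ _).trans hK
  have hK2 : max e₀ (s + (2 * m + 1)) ≤ K / 8 ^ m := by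
    rw [Nat.le_div_iff_mul_le (by positivity), mul_comm]
    exact (le_max_right _ _).trans hK
  obtain ⟨e, he⟩ : ∃ e, e = K / 8 ^ m := ⟨_, rfl⟩
  rw [← he] at hK2
  have heK : e ≤ K := by rw [he]; exact Nat.div_le_self _ _
  have he2 : s + (2 * m + 1) ≤ e := (le_max_right _ _).trans hK2
  have hlarge := hK₁ K hK1 (2 * m + 1) R₀ H X (by omega) hH h hKR hHR h0
  rw [← he] at hlarge
  have hsmall := he₀ K e ((le_max_left _ _).trans hK2) he (2 * m + 1) R₀ H X (by omega) hH h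
    (by omega) hHR (2 * m) hlarge (R₀ - (2 * m + 1)) (by omega) (by omega)
  rw [h.wrap] at hsmall
  have h1 := h0 (R₀ - (2 * m + 1) + 2) (by omega) (by omega)
  have h2 : 1 ≤ R ^ K := one_le_pow₀ hR1.le
  have h3 : 1 / R < 1 := by
    rw [div_lt_one (by linarith)]; exact hR1
  linarith

end Pool.Agent.X94.BdA
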