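import Pool.Agent.X94.BdA

/-!
Boundedness of all positive solutions of `x_{n+1} = γ + x_{n-2m}/x_{n-1}`.
-/

namespace Pool.Agent.X94.BdB

open Finset Pool.Agent.X94.BdA

/-- The data: a positive solution, indices shifted to start at `0`. -/
structure Sol (γ : ℝ) (m : ℕ) (x : ℕ → ℝ) : Prop where
  pos : ∀ n, 0 < x n
  eqn : ∀ n, x (n + (2 * m + 1)) = γ + x n / x (n + (2 * m - 1))

theorem gt_gamma {γ : ℝ} {m : ℕ} {x : ℕ → ℝ} (h : Sol γ m x) (n : ℕ) (hn : 2 * m + 1 ≤ n) :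
    γ < x n := by
  obtain ⟨k, rfl⟩ := Nat.exists_eq_add_of_le' hn
  rw [h.eqn]
  have := div_pos (h.pos k) (h.pos (k + (2 * m - 1)))
  linarith

theorem exists_bound (x : ℕ → ℝ) (n : ℕ) : ∃ M : ℝ, 0 < M ∧ ∀ i, i < n → x i ≤ M := by
  induction n with
  | zero => exact ⟨1, one_pos, fun i hi => absurd hi (Nat.not_lt_zero i)⟩
  | succ n ih =>
    obtain ⟨M, hM0, hM⟩ := ih
    refine ⟨max M (x n), lt_max_of_lt_left hM0, fun i hi => ?_⟩
    rcases Nat.lt_succ_iff_lt_or_eq.1 hi with h | h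
    · exact (hM i h).trans (le_max_left _ _)
    · rw [h]; exact le_max_right _ _

theorem exists_gap (γ : ℝ) (x : ℕ → ℝ) (a n : ℕ) (h : ∀ i, a ≤ i → γ < x i) :
    ∃ ε : ℝ, 0 < ε ∧ ∀ i, a ≤ i → i < n → γ + ε ≤ x i := by
  induction n with
  | zero => exact ⟨1, one_pos, fun i _ hi => absurd hi (Nat.not_lt_zero i)⟩
  | succ n ih =>
    obtain ⟨ε, hε0, hε⟩ := ih
    by_cases han : a ≤ n
    · refine ⟨min ε (x n - γ), lt_min hε0 (by linarith [h n han]), fun i hi1 hi2 => ?_⟩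
      rcases Nat.lt_succ_iff_lt_or_eq.1 hi2 with h' | h'
      · linarith [hε i hi1 h', min_le_left ε (x n - γ)]
      · rw [h']; linarith [min_le_right ε (x n - γ)]
    · exact ⟨ε, hε0, fun i hi1 hi2 => by omega⟩

/-- The case `γ ≥ 1`. -/
theorem bounded_ge_one {γ : ℝ} (hγ : 1 ≤ γ) {m : ℕ} (hm : 1 ≤ m) {x : ℕ → ℝ} (h : Sol γ m x) :
    ∃ M : ℝ, ∀ n, x n ≤ M := by
  obtain ⟨M, hM0, hM⟩ := exists_bound x (2 * (2 * m + 1))
  obtain ⟨ε₀, hε₀, hgap⟩ := exists_gap γ x (2 * m + 1) (2 * (2 * m + 1)) (fun i hi => gt_gamma h i hi)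
  obtain ⟨ε, hε⟩ : ∃ ε, ε = min (min ε₀ 1) (1 / M) := ⟨_, rfl⟩
  have hεpos : 0 < ε := by rw [hε]; positivity
  have hε1 : ε ≤ 1 := by rw [hε]; exact (min_le_left _ _).trans (min_le_right _ _)
  have hεε₀ : ε ≤ ε₀ := by rw [hε]; exact (min_le_left _ _).trans (min_le_left _ _)
  have hεM : ε * M ≤ 1 := by
    have : ε ≤ 1 / M := by rw [hε]; exact min_le_right _ _
    rw [le_div_iff₀ hM0] at this; exact this
  have hU : ∀ n, 2 * m + 1 ≤ n → γ + ε ≤ x n ∧ x n * ε ≤ γ + ε := by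
    intro n
    induction n using Nat.strong_induction_on with
    | _ n ih =>
      intro hn
      by_cases hn2 : n < 2 * (2 * m + 1)
      · refine ⟨by linarith [hgap n hn hn2], ?_⟩
        have h1 := hM n hn2
        have h2 : x n * ε ≤ M * ε := mul_le_mul_of_nonneg_right h1 hεpos.le
        linarith
      · obtain ⟨k, rfl⟩ := Nat.exists_eq_add_of_le' hn
        have ih1 := ih k (by omega) (by omega)
        have ih2 := ih (k + (2 * m - 1)) (by omega) (by omega)
        rw [h.eqn]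
        have hx1 := h.pos k
        have hx2 := h.pos (k + (2 * m - 1))
        constructor
        · have : ε ≤ x k / x (k + (2 * m - 1)) := by
            rw [le_div_iff₀ hx2]
            linarith [ih1.1, ih2.2]
          linarith
        · have h3 : x k / x (k + (2 * m - 1)) * ε ≤ 1 := by
            rw [div_mul_eq_mul_div, div_le_one hx2]
            linarith [ih1.2, ih2.1]
          nlinarith
  refine ⟨max M ((γ + ε) / ε), fun n => ?_⟩
  by_cases hn : 2 * m + 1 ≤ n
  · refine le_trans ?_ (le_max_right _ _)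
    rw [le_div_iff₀ hεpos]
    exact (hU n hn).2
  · exact (hM n (by omega)).trans (le_max_left _ _)

/-- The case `0 < γ < 1`. -/
theorem bounded_lt_one {γ : ℝ} (hγ0 : 0 < γ) (hγ1 : γ < 1) {m : ℕ} (hm : 1 ≤ m) {x : ℕ → ℝ}
    (h : Sol γ m x) : ∃ M : ℝ, ∀ n, x n ≤ M := by
  obtain ⟨N, hN⟩ : ∃ N, N = 2 * m + 1 := ⟨_, rfl⟩
  have hN3 : 3 ≤ N := by omega
  have hrec : ∀ n, x (n + N) = γ + x n / x (n + (N - 2)) := by
    intro n
    have := h.eqn n
    rw [hN, show 2 * m + 1 - 2 = 2 * m - 1 by omega]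
    exact this
  have hlow : ∀ n, N ≤ n → γ < x n := fun n hn => gt_gamma h n (by omega)
  obtain ⟨q, hq⟩ : ∃ q, q = 1 / γ := ⟨_, rfl⟩
  have hqγ : q * γ = 1 := by rw [hq]; field_simp
  have hq1 : 1 < q := by rw [hq, lt_div_iff₀ hγ0]; linarith
  have hq0 : 0 < q := by linarith
  obtain ⟨c, hc⟩ : ∃ c, c = γ ^ 2 / (1 - γ) := ⟨_, rfl⟩
  have h1γ : 0 < 1 - γ := by linarith
  have hc0 : 0 < c := by rw [hc]; positivity
  have hcγ : c * (1 - γ) = γ ^ 2 := by rw [hc]; field_simp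
  -- upper growth
  have hup : ∀ n, 2 ≤ n → x (n + N) + c ≤ q * (x n + c) := by
    intro n hn
    rw [hrec]
    have h1 := hlow (n + (N - 2)) (by omega)
    have h2 : x n / x (n + (N - 2)) ≤ x n / γ := by
      apply div_le_div_of_nonneg_left (h.pos n).le hγ0 h1.le
    have h3 : x n / γ = q * x n := by rw [hq]; field_simp
    have h4 : q * c = γ + c := by
      have : q * (c * (1 - γ)) = q * γ ^ 2 := by rw [hcγ]
      have h5 : q * γ ^ 2 = γ := by
        calc q * γ ^ 2 = (q * γ) * γ := by ring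
          _ = γ := by rw [hqγ, one_mul]
      have h6 : q * (c * (1 - γ)) = q * c - (q * γ) * c := by ring
      rw [hqγ] at h6
      linarith
    have h7 : q * (x n + c) = q * x n + (γ + c) := by rw [mul_add, h4]
    rw [h7]; linarith
  have hupk : ∀ k n, 2 ≤ n → x (n + k * N) + c ≤ q ^ k * (x n + c) := by
    intro k
    induction k with
    | zero => intro n _; simp
    | succ k ih =>
      intro n hn
      have h1 := hup (n + k * N) (by omega)
      have h2 := ih n hn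
      rw [show n + (k + 1) * N = n + k * N + N by ring]
      calc x (n + k * N + N) + c ≤ q * (x (n + k * N) + c) := h1
        _ ≤ q * (q ^ k * (x n + c)) := mul_le_mul_of_nonneg_left h2 hq0.le
        _ = q ^ (k + 1) * (x n + c) := by rw [pow_succ]; ring
  obtain ⟨M, hM0, hM⟩ := exists_bound x (N + 2)
  -- the constant R
  obtain ⟨R, hR⟩ : ∃ R, R = 2 / (1 + γ) := ⟨_, rfl⟩
  have hR1 : 1 < R := by rw [hR, lt_div_iff₀ (by linarith)]; linarith
  have hR0 : 0 < R := by linarith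
  have hRinv : 1 / R = (1 + γ) / 2 := by rw [hR]; field_simp
  have hγR : γ < 1 / R := by rw [hRinv]; linarith
  have hRq : R < q := by
    rw [hR, hq, div_lt_div_iff₀ (by linarith) hγ0]; linarith
  obtain ⟨C, hC⟩ := pow_unbounded_of_one_lt (q ^ 4) hR1
  obtain ⟨K₁, hK₁⟩ := no_record hγ0 hR1 hγR C m hm
  obtain ⟨kM, hkM⟩ := pow_unbounded_of_one_lt (M + c) hq1
  -- q^K - c ≥ R^K for large K
  have hqR : 1 < q / R := by rw [lt_div_iff₀ hR0]; linarith
  obtain ⟨K₂, hK₂⟩ := pow_unbounded_of_one_lt (1 + c) hqR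
  have hbig : ∀ K, K₂ ≤ K → R ^ K ≤ q ^ K - c := by
    intro K hK
    have h1 : 1 + c ≤ (q / R) ^ K := hK₂.le.trans (pow_le_pow_right₀ hqR.le hK)
    rw [div_pow, le_div_iff₀ (by positivity)] at h1
    have h2 : 1 ≤ R ^ K := one_le_pow₀ hR1.le
    nlinarith
  obtain ⟨K₀, hK₀⟩ : ∃ K₀, K₀ = max (max K₁ K₂) (kM + 3) := ⟨_, rfl⟩
  by_contra hunb
  push Not at hunb
  -- first index above the level q^(2 K₀)
  have hex : ∃ j, q ^ (2 * K₀) ≤ x j := by
    obtain ⟨j, hj⟩ := hunb (q ^ (2 * K₀))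
    exact ⟨j, hj.le⟩
  classical
  obtain ⟨j, hj, hmin⟩ : ∃ j, q ^ (2 * K₀) ≤ x j ∧ ∀ i, i < j → x i ≤ x j := by
    refine ⟨Nat.find hex, Nat.find_spec hex, fun i hi => ?_⟩
    have h1 := Nat.find_min hex hi
    rw [not_le] at h1
    exact h1.le.trans (Nat.find_spec hex)
  have hq21 : 1 < q ^ 2 := by nlinarith
  have hx1 : 1 ≤ x j := le_trans (one_le_pow₀ hq1.le) hj
  obtain ⟨K, hKl, hKu⟩ := exists_nat_pow_near hx1 hq21
  rw [← pow_mul] at hKl hKu
  have hKK₀ : K₀ ≤ K := by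
    by_contra hcon
    rw [not_le] at hcon
    have h1 : q ^ (2 * (K + 1)) ≤ q ^ (2 * K₀) := pow_le_pow_right₀ hq1.le (by omega)
    linarith
  have hKK₁ : K₁ ≤ K := by
    have : K₁ ≤ K₀ := by rw [hK₀]; exact (le_max_left _ _).trans (le_max_left _ _)
    omega
  have hKK₂ : K₂ ≤ K := by
    have : K₂ ≤ K₀ := by rw [hK₀]; exact (le_max_right _ _).trans (le_max_left _ _)
    omega
  have hKkM : kM + 3 ≤ K := by
    have : kM + 3 ≤ K₀ := by rw [hK₀]; exact le_max_right _ _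
    omega
  -- j is late
  have hjlate : (K + 3) * N ≤ j := by
    by_contra hcon
    rw [not_le] at hcon
    by_cases hj2 : j < N + 2
    · have h1 := hM j hj2
      have h2 : q ^ kM ≤ q ^ (2 * K) := pow_le_pow_right₀ hq1.le (by omega)
      linarith
    · -- j = i₀ + k N
      obtain ⟨k, hk⟩ : ∃ k, k = (j - 2) / N := ⟨_, rfl⟩
      obtain ⟨i₀, hi₀⟩ : ∃ i₀, i₀ = (j - 2) % N + 2 := ⟨_, rfl⟩
      have hjk : j = i₀ + k * N := by
        have := Nat.mod_add_div (j - 2) N
        rw [hi₀, hk, mul_comm]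
        omega
      have hi₀N : i₀ < N + 2 := by
        have := Nat.mod_lt (j - 2) (show 0 < N by omega)
        omega
      have hkK : k ≤ K + 2 := by
        have h1 : k * N < (K + 3) * N := by omega
        have := Nat.lt_of_mul_lt_mul_right h1
        omega
      have h1 := hupk k i₀ (by omega)
      rw [← hjk] at h1
      have h2 := hM i₀ hi₀N
      have h3 : q ^ k * (x i₀ + c) ≤ q ^ (K + 2) * q ^ kM := by
        apply mul_le_mul (pow_le_pow_right₀ hq1.le hkK) (by linarith)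
        · have := h.pos i₀; positivity
        · positivity
      rw [← pow_add] at h3
      have h4 : q ^ (K + 2 + kM) ≤ q ^ (2 * K) := pow_le_pow_right₀ hq1.le (by omega)
      linarith
  -- the array
  obtain ⟨b, hb⟩ : ∃ b, b = j - (K + 1) * N := ⟨_, rfl⟩
  have hKN : (K + 3) * N = (K + 1) * N + 2 * N := by ring
  have hbN : 2 * N ≤ b := by omega
  have hjb : j = b + (K + 1) * N := by omega
  have hArr : Arr γ (2 * m + 1) (K + 1) (x j) (fun i r => x (b + 2 * i + r * N)) := by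
    refine ⟨?_, ?_, ?_, ?_⟩
    · intro i r
      apply hlow; omega
    · intro i r
      show x (b + 2 * (i + 1) + (r + 1) * N) = _
      have h1 : b + 2 * (i + 1) + (r + 1) * N = (b + 2 * (i + 1) + r * N) + N := by ring
      rw [h1, hrec]
      have h2 : b + 2 * (i + 1) + r * N + (N - 2) = b + 2 * i + (r + 1) * N := by
        have : (r + 1) * N = r * N + N := by ring
        omega
      rw [h2]
    · intro r
      show x (b + 2 * (2 * m + 1) + r * N) = x (b + 2 * 0 + (r + 2) * N)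
      congr 1
      rw [← hN]; ring
    · intro i r hir
      rw [← hN] at hir
      apply hmin
      omega
  have hstage0 : ∀ k, k ≤ K → q ^ K - c ≤ x (b + (K + 1 - k) * N) := by
    intro k hk
    have h1 := hupk k (b + (K + 1 - k) * N) (by omega)
    have h2 : b + (K + 1 - k) * N + k * N = j := by
      rw [hjb, add_assoc, ← add_mul]
      congr 2; omega
    rw [h2] at h1
    have h3 : q ^ k * q ^ K ≤ q ^ k * (x (b + (K + 1 - k) * N) + c) := by
      calc q ^ k * q ^ K = q ^ (k + K) := by rw [pow_add]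
        _ ≤ q ^ (2 * K) := pow_le_pow_right₀ hq1.le (by omega)
        _ ≤ x j := hKl
        _ ≤ x j + c := by linarith
        _ ≤ _ := h1
    have h4 := le_of_mul_le_mul_left h3 (by positivity)
    linarith
  refine hK₁ K hKK₁ (K + 1) (x j) _ (h.pos j).le hArr (by omega) ?_ ?_
  · calc x j ≤ q ^ (2 * (K + 1)) := hKu.le
      _ ≤ q ^ (4 * K) := pow_le_pow_right₀ hq1.le (by omega)
      _ = (q ^ 4) ^ K := by rw [pow_mul]
      _ ≤ (R ^ C) ^ K := pow_le_pow_left₀ (by positivity) hC.le K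
      _ = R ^ (C * K) := by rw [pow_mul]
  · intro r hr1 hr2
    have h1 := hstage0 (K + 1 - r) (by omega)
    rw [show K + 1 - (K + 1 - r) = r by omega] at h1
    show R ^ K ≤ x (b + 2 * 0 + r * N)
    rw [show b + 2 * 0 + r * N = b + r * N by ring]
    exact (hbig K hKK₂).trans h1

theorem bounded {γ : ℝ} (hγ : 0 < γ) {m : ℕ} (hm : 1 ≤ m) {x : ℕ → ℝ} (h : Sol γ m x) :
    ∃ M : ℝ, ∀ n, x n ≤ M := by
  rcases lt_or_ge γ 1 with h1 | h1
  · exact bounded_lt_one hγ h1 hm h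
  · exact bounded_ge_one h1 hm h

end Pool.Agent.X94.BdB
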