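import Mathlib

/-! A symmetric polynomial hypergroup with second Haar weight `15 / 8`. -/

namespace Pool.Agent.X94.Hyp

open Polynomial Finset

/-- The coefficients. -/
noncomputable def c (n : ℕ) : ℝ :=
  if n = 0 then 0 else if n = 1 then 2 / 5 else if n = 2 then 4 / 5 else
    if n % 2 = 1 then 1 / 50 else 9 / 10

/-- The coefficients. -/
noncomputable def a (n : ℕ) : ℝ := 1 - c n

lemma c_zero : c 0 = 0 := by simp [c]
lemma c_one : c 1 = 2 / 5 := by simp [c]
lemma c_two : c 2 = 4 / 5 := by simp [c]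
lemma c_odd {n : ℕ} (h : 3 ≤ n) (h2 : n % 2 = 1) : c n = 1 / 50 := by
  unfold c
  rw [if_neg (by omega), if_neg (by omega), if_neg (by omega), if_pos h2]
lemma c_even {n : ℕ} (h : 3 ≤ n) (h2 : n % 2 = 0) : c n = 9 / 10 := by
  unfold c
  rw [if_neg (by omega), if_neg (by omega), if_neg (by omega), if_neg (by omega)]

lemma c_pos {n : ℕ} (h : 1 ≤ n) : 0 < c n := by
  unfold c
  rw [if_neg (by omega)]
  split_ifs <;> norm_num

lemma a_pos (n : ℕ) : 0 < a n := by
  unfold a c
  split_ifs <;> norm_num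

/-- The polynomials. -/
noncomputable def P : ℕ → ℝ[X]
  | 0 => 1
  | 1 => X
  | n + 2 => C (1 / a (n + 1)) * (X * P (n + 1) - C (c (n + 1)) * P n)

lemma X_mul_P (n : ℕ) : X * P (n + 1) = C (a (n + 1)) * P (n + 2) + C (c (n + 1)) * P n := by
  have h : a (n + 1) ≠ 0 := (a_pos _).ne'
  have e : C (a (n + 1)) * P (n + 2) = X * P (n + 1) - C (c (n + 1)) * P n := by
    show C (a (n + 1)) * (C (1 / a (n + 1)) * (X * P (n + 1) - C (c (n + 1)) * P n)) = _
    rw [← mul_assoc, ← C_mul, mul_one_div_cancel h, C_1, one_mul]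
  rw [e]
  ring

/-- The nonnegative combinations of the `P n`. -/
noncomputable def Cone : Submodule NNReal ℝ[X] := Submodule.span NNReal (Set.range P)

lemma P_mem (n : ℕ) : P n ∈ Cone := Submodule.subset_span ⟨n, rfl⟩

lemma C_mul_mem {r : ℝ} (hr : 0 ≤ r) {f : ℝ[X]} (hf : f ∈ Cone) : C r * f ∈ Cone := by
  have h := Cone.smul_mem (Real.toNNReal r) hf
  have e : (Real.toNNReal r) • f = C r * f := by
    rw [← smul_eq_C_mul]
    ext n
    simp only [coeff_smul, NNReal.smul_def, Real.coe_toNNReal r hr]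
  rwa [e] at h

lemma X_mul_mem {f : ℝ[X]} (hf : f ∈ Cone) : X * f ∈ Cone := by
  induction hf using Submodule.span_induction with
  | mem f hf =>
    obtain ⟨n, rfl⟩ := hf
    rcases n with _ | n
    · have : X * P 0 = P 1 := by simp [P]
      rw [this]
      exact P_mem 1
    · rw [X_mul_P]
      exact Cone.add_mem (C_mul_mem (a_pos _).le (P_mem _))
        (C_mul_mem (c_pos (by omega)).le (P_mem _))
  | zero => rw [mul_zero]; exact Cone.zero_mem
  | add f g _ _ hf hg => rw [mul_add]; exact Cone.add_mem hf hg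
  | smul r f _ hf =>
    rw [mul_smul_comm]
    exact Cone.smul_mem r hf

/-- The polynomials with the two first ones changed. -/
noncomputable def hP : ℕ → ℝ[X]
  | 0 => C (49 / 9) * P 4 - C (200 / 9) * P 2 + C (160 / 9) * P 0
  | 1 => C (1 / 9) * P 3 + C (8 / 9) * P 1
  | n + 2 => P (n + 2)

lemma hP_eq {n : ℕ} (h : 2 ≤ n) : hP n = P n := by
  obtain ⟨m, rfl⟩ : ∃ m, n = m + 2 := ⟨n - 2, by omega⟩
  rfl

lemma hP_mem {n : ℕ} (h : 1 ≤ n) : hP n ∈ Cone := by
  rcases Nat.lt_or_ge 1 n with h1 | h1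
  · rw [hP_eq h1]; exact P_mem n
  · obtain rfl : n = 1 := by omega
    exact Cone.add_mem (C_mul_mem (by norm_num) (P_mem _)) (C_mul_mem (by norm_num) (P_mem _))

lemma C_eq {x y : ℝ} (h : x = y) : (C x : ℝ[X]) = C y := by rw [h]

lemma a_one : a 1 = 3 / 5 := by rw [a, c_one]; norm_num
lemma a_two : a 2 = 1 / 5 := by rw [a, c_two]; norm_num
lemma a_odd {n : ℕ} (h : 3 ≤ n) (h2 : n % 2 = 1) : a n = 49 / 50 := by
  rw [a, c_odd h h2]; norm_num
lemma a_even {n : ℕ} (h : 3 ≤ n) (h2 : n % 2 = 0) : a n = 1 / 10 := by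
  rw [a, c_even h h2]; norm_num

lemma X_mul_hP_even {n : ℕ} (h2 : n % 2 = 1) :
    X * hP (n + 1) = C (1 / 10) * hP (n + 2) + C (9 / 10) * hP n := by
  rcases Nat.lt_or_ge 1 n with h1 | h1
  · rw [hP_eq (by omega), hP_eq (by omega), hP_eq h1, X_mul_P, a_even (by omega) (by omega),
      c_even (by omega) (by omega)]
  · obtain rfl : n = 1 := by omega
    rw [hP_eq (by omega), hP_eq (by omega), X_mul_P, a_two, c_two]
    show _ = C (1 / 10) * P 3 + C (9 / 10) * (C (1 / 9) * P 3 + C (8 / 9) * P 1)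
    have e1 : (C (1 / 5) : ℝ[X]) = C (1 / 10) + C (9 / 10) * C (1 / 9) := by
      rw [← C_mul, ← C_add]; exact C_eq (by norm_num)
    have e2 : (C (4 / 5) : ℝ[X]) = C (9 / 10) * C (8 / 9) := by
      rw [← C_mul]; exact C_eq (by norm_num)
    rw [e1, e2]
    ring

lemma X_mul_hP_odd {n : ℕ} (h2 : n % 2 = 0) :
    X * hP (n + 1) = C (49 / 50) * hP (n + 2) + C (1 / 50) * hP n := by
  rcases Nat.lt_or_ge 1 n with h1 | h1
  · rw [hP_eq (by omega), hP_eq (by omega), hP_eq h1, X_mul_P, a_odd (by omega) (by omega),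
      c_odd (by omega) (by omega)]
  · obtain rfl : n = 0 := by omega
    have h3 : X * P 3 = C (49 / 50) * P 4 + C (1 / 50) * P 2 := by
      rw [X_mul_P, a_odd (by omega) (by omega), c_odd (by omega) (by omega)]
    have h4 : X * P 1 = C (3 / 5) * P 2 + C (2 / 5) * P 0 := by
      rw [X_mul_P, a_one, c_one]
    show X * (C (1 / 9) * P 3 + C (8 / 9) * P 1) = C (49 / 50) * P 2 +
      C (1 / 50) * (C (49 / 9) * P 4 - C (200 / 9) * P 2 + C (160 / 9) * P 0)
    have e : X * (C (1 / 9) * P 3 + C (8 / 9) * P 1) =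
        C (1 / 9) * (X * P 3) + C (8 / 9) * (X * P 1) := by ring
    rw [e, h3, h4]
    simp only [← smul_eq_C_mul]
    module

lemma XX_mul_hP (n : ℕ) : X * (X * hP (n + 2)) =
    C (49 / 500) * hP (n + 4) + C (221 / 250) * hP (n + 2) + C (9 / 500) * hP n := by
  rcases Nat.even_or_odd n with h | h
  · have hn : n % 2 = 0 := Nat.even_iff.1 h
    rw [X_mul_hP_even (n := n + 1) (by omega), mul_add, mul_left_comm X, mul_left_comm X,
      X_mul_hP_odd (n := n + 2) (by omega), X_mul_hP_odd (n := n) hn]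
    simp only [← smul_eq_C_mul]
    module
  · have hn : n % 2 = 1 := Nat.odd_iff.1 h
    rw [X_mul_hP_odd (n := n + 1) (by omega), mul_add, mul_left_comm X, mul_left_comm X,
      X_mul_hP_even (n := n + 2) (by omega), X_mul_hP_even (n := n) hn]
    simp only [← smul_eq_C_mul]
    module

/-- The shift by two. -/
def S : Module.End ℝ (ℕ → ℝ[X]) where
  toFun f := fun n => f (n + 2)
  map_add' _ _ := rfl
  map_smul' _ _ := rfl

lemma S_pow (r : ℕ) (f : ℕ → ℝ[X]) (n : ℕ) : (S ^ r) f n = f (n + 2 * r) := by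
  induction r generalizing f with
  | zero => simp
  | succ r ih =>
    rw [pow_succ, Module.End.mul_apply, ih]
    show f (n + 2 * r + 2) = _
    congr 1

/-- The combination of the `hP (s + 2 r)` with the coefficients of a polynomial. -/
noncomputable def F (q : ℝ[X]) : ℕ → ℝ[X] := aeval S q hP

lemma F_add (p q : ℝ[X]) (s : ℕ) : F (p + q) s = F p s + F q s := by
  simp [F]

lemma F_sub (p q : ℝ[X]) (s : ℕ) : F (p - q) s = F p s - F q s := by
  simp [F]

lemma F_X_mul (q : ℝ[X]) (s : ℕ) : F (X * q) s = F q (s + 2) := by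
  simp only [F, map_mul, aeval_X, Module.End.mul_apply]
  rfl

lemma F_C_mul (r : ℝ) (q : ℝ[X]) (s : ℕ) : F (C r * q) s = C r * F q s := by
  simp only [F, map_mul, aeval_C, Module.End.mul_apply, Module.algebraMap_end_apply,
    Pi.smul_apply, smul_eq_C_mul]

lemma F_one (s : ℕ) : F 1 s = hP s := by simp [F]

lemma F_C (r : ℝ) (s : ℕ) : F (C r) s = C r * hP s := by
  have h := F_C_mul r 1 s
  rw [mul_one, F_one] at h
  exact h

lemma F_sum {q : ℝ[X]} {N : ℕ} (h : q.natDegree < N) (s : ℕ) :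
    F q s = ∑ i ∈ range N, C (q.coeff i) * hP (s + 2 * i) := by
  rw [F, aeval_eq_sum_range' h]
  simp only [LinearMap.sum_apply, LinearMap.smul_apply, Finset.sum_apply, Pi.smul_apply, S_pow,
    smul_eq_C_mul]

lemma F_rel (q : ℝ[X]) (s : ℕ) : X * (X * F q (s + 2)) =
    C (49 / 500) * F q (s + 4) + C (221 / 250) * F q (s + 2) + C (9 / 500) * F q s := by
  rw [F_sum (Nat.lt_succ_self _), F_sum (Nat.lt_succ_self _), F_sum (Nat.lt_succ_self _),
    mul_sum, mul_sum, mul_sum, mul_sum, mul_sum, ← sum_add_distrib, ← sum_add_distrib]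
  refine sum_congr rfl fun i _ => ?_
  have h := XX_mul_hP (s + 2 * i)
  rw [show s + 2 + 2 * i = s + 2 * i + 2 by ring, show s + 4 + 2 * i = s + 2 * i + 4 by ring]
  linear_combination (C (q.coeff i)) * h

lemma XX_mul_P {n : ℕ} (h : 4 ≤ n) : X * (X * P n) =
    C (49 / 500) * P (n + 2) + C (221 / 250) * P n + C (9 / 500) * P (n - 2) := by
  obtain ⟨m, rfl⟩ : ∃ m, n = m + 2 := ⟨n - 2, by omega⟩
  have := XX_mul_hP m
  rwa [hP_eq (by omega), hP_eq (by omega), hP_eq (by omega)] at this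

end Pool.Agent.X94.Hyp
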