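import Pool.Agent.X94.HyA

/-! Nonnegative linearization for the sequence of `HyA`. -/

namespace Pool.Agent.X94.Hyp

open Polynomial Finset

/-- The solutions of the recurrence. -/
noncomputable def R (u v : ℝ[X]) : ℕ → ℝ[X]
  | 0 => u
  | 1 => v
  | n + 2 => X * (X * R u v (n + 1)) + C (9 / 49) * R u v (n + 1) -
      C (9 / 49) * (X * (X * R u v n))

lemma R_step {Q : ℕ → ℝ[X]} {Y u v : ℝ[X]} (h0 : ∀ s, Q 0 * hP (s + 2) = Y * F u s)
    (h1 : ∀ s, Q 1 * hP (s + 4) = Y * F v s)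
    (hQ : ∀ k, X * (X * Q (k + 1)) = C (49 / 500) * Q (k + 2) + C (221 / 250) * Q (k + 1) +
      C (9 / 500) * Q k) (k : ℕ) :
    (∀ s, Q k * hP (s + (2 * k + 2)) = Y * F (R u v k) s) ∧
    (∀ s, Q (k + 1) * hP (s + (2 * k + 4)) = Y * F (R u v (k + 1)) s) := by
  induction k with
  | zero => exact ⟨h0, h1⟩
  | succ k ih =>
    obtain ⟨i0, i1⟩ := ih
    refine ⟨i1, fun s => ?_⟩
    have hne : (C (49 / 500) : ℝ[X]) ≠ 0 := by
      rw [Ne, C_eq_zero]; norm_num
    apply mul_left_cancel₀ hne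
    have j0 := i0 (s + 4)
    have j1 := i1 (s + 2)
    rw [show s + 4 + (2 * k + 2) = s + (2 * (k + 1) + 4) by ring] at j0
    rw [show s + 2 + (2 * k + 4) = s + (2 * (k + 1) + 4) by ring] at j1
    have r1 := F_rel (R u v (k + 1)) s
    have r2 : F (R u v (k + 2)) s = F (R u v (k + 1)) (s + 4) + C (9 / 49) * F (R u v (k + 1)) s
        - C (9 / 49) * F (R u v k) (s + 4) := by
      show F (X * (X * R u v (k + 1)) + C (9 / 49) * R u v (k + 1) -
        C (9 / 49) * (X * (X * R u v k))) s = _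
      rw [F_sub, F_add, F_X_mul, F_X_mul, F_C_mul, F_C_mul, F_X_mul, F_X_mul]
    have e : (C (9 / 500) : ℝ[X]) = C (49 / 500) * C (9 / 49) := by
      rw [← C_mul]; exact C_eq (by norm_num)
    have q := hQ k
    show C (49 / 500) * (Q (k + 2) * hP (s + (2 * (k + 1) + 4))) =
      C (49 / 500) * (Y * F (R u v (k + 2)) s)
    rw [r2]
    rw [e] at q r1
    linear_combination (-hP (s + (2 * (k + 1) + 4))) * q + (X * X - C (221 / 250)) * j1
      - C (49 / 500) * C (9 / 49) * j0 + Y * r1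

lemma R_diff (u v : ℝ[X]) (k : ℕ) :
    R u v (k + 1) = C (9 / 49) * R u v k + X ^ (2 * k) * (v - C (9 / 49) * u) := by
  induction k with
  | zero =>
    show v = C (9 / 49) * u + _
    ring
  | succ k ih =>
    show X * (X * R u v (k + 1)) + C (9 / 49) * R u v (k + 1) -
      C (9 / 49) * (X * (X * R u v k)) = _
    linear_combination X * X * ih

/-- Nonnegative coefficients. -/
def Nn (q : ℝ[X]) : Prop := ∀ i, 0 ≤ q.coeff i

lemma Nn.add {p q : ℝ[X]} (hp : Nn p) (hq : Nn q) : Nn (p + q) := fun i => by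
  rw [coeff_add]; exact add_nonneg (hp i) (hq i)

lemma Nn.mul {p q : ℝ[X]} (hp : Nn p) (hq : Nn q) : Nn (p * q) := fun i => by
  rw [coeff_mul]; exact sum_nonneg fun x _ => mul_nonneg (hp _) (hq _)

lemma Nn_C {r : ℝ} (h : 0 ≤ r) : Nn (C r) := fun i => by
  rw [coeff_C]; split_ifs <;> simp [h]

lemma Nn_X : Nn X := fun i => by
  rw [coeff_X]; split_ifs <;> norm_num

lemma Nn_X_pow (n : ℕ) : Nn (X ^ n) := fun i => by
  rw [coeff_X_pow]; split_ifs <;> norm_num

lemma Nn_R {u v α τ : ℝ[X]} (hu : Nn u) (h0 : ∃ ρ, Nn ρ ∧ v = ρ + α) (hτ : Nn τ) (hα : Nn α)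
    (h : C (9 / 49) * α + X ^ 2 * (v - C (9 / 49) * u) = τ + X ^ 2 * α) (k : ℕ) :
    Nn (R u v k) := by
  have key : ∀ k, ∃ ρ, Nn ρ ∧ R u v (k + 1) = ρ + X ^ (2 * k) * α := by
    intro k
    induction k with
    | zero =>
      obtain ⟨ρ, h1, h2⟩ := h0
      refine ⟨ρ, h1, ?_⟩
      show v = _
      rw [h2]; ring
    | succ k ih =>
      obtain ⟨ρ, h1, h2⟩ := ih
      refine ⟨C (9 / 49) * ρ + X ^ (2 * k) * τ,
        ((Nn_C (by norm_num)).mul h1).add ((Nn_X_pow _).mul hτ), ?_⟩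
      rw [R_diff, h2]
      linear_combination X ^ (2 * k) * h
  rcases k with _ | k
  · exact hu
  · obtain ⟨ρ, h1, h2⟩ := key k
    rw [h2]
    exact h1.add ((Nn_X_pow _).mul hα)

lemma F_mem {q : ℝ[X]} (hq : Nn q) {s : ℕ} (hs : 1 ≤ s) : F q s ∈ Cone := by
  rw [F_sum (Nat.lt_succ_self _)]
  exact Cone.sum_mem fun i _ => C_mul_mem (hq i) (hP_mem (by omega))

lemma F_zero_mem {q : ℝ[X]} (hq : Nn q) (h : 200 * q.coeff 0 ≤ 9 * q.coeff 1) :
    F q 0 ∈ Cone := by
  have e : q = X * (X * q.divX.divX + C (q.coeff 1)) + C (q.coeff 0) := by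
    conv_lhs => rw [← divX_mul_X_add q, ← divX_mul_X_add q.divX]
    rw [coeff_divX]
    ring
  have h2 : Nn q.divX.divX := fun i => by
    rw [coeff_divX, coeff_divX]; exact hq _
  rw [e, F_add, F_X_mul, F_add, F_X_mul, F_C, F_C]
  have e1 : F q.divX.divX (0 + 2 + 2) + C (q.coeff 1) * hP (0 + 2) + C (q.coeff 0) * hP 0 =
      F q.divX.divX 4 + C (49 / 9 * q.coeff 0) * P 4 +
        C (q.coeff 1 - 200 / 9 * q.coeff 0) * P 2 + C (160 / 9 * q.coeff 0) * P 0 := by
    show F q.divX.divX 4 + C (q.coeff 1) * P 2 + C (q.coeff 0) *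
      (C (49 / 9) * P 4 - C (200 / 9) * P 2 + C (160 / 9) * P 0) = _
    simp only [C_mul, C_sub]
    ring
  rw [e1]
  refine Cone.add_mem (Cone.add_mem (Cone.add_mem (F_mem h2 (by norm_num)) ?_) ?_) ?_
  · exact C_mul_mem (by have := hq 0; positivity) (P_mem _)
  · exact C_mul_mem (by linarith) (P_mem _)
  · exact C_mul_mem (by have := hq 0; positivity) (P_mem _)

/-! ### The even case -/

noncomputable def e1 : ℝ[X] := C (3 / 100) + X * (C (121 / 150) + X * C (49 / 300))
noncomputable def e2 : ℝ[X] := C (27 / 9800) + X * (C (663 / 4900) + X * (C (641 / 14700) +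
  X * (C (221 / 300) + X * C (49 / 600))))

lemma P_two_eq : C (3 / 5) * P 2 = X * X - C (2 / 5) := by
  have h4 : X * P 1 = C (3 / 5) * P 2 + C (2 / 5) * P 0 := by
    rw [X_mul_P, a_one, c_one]
  have h5 : P 0 = 1 := rfl
  have h6 : P 1 = X := rfl
  rw [h5, h6] at h4
  linear_combination -h4

lemma P_three_eq : C (3 / 25) * P 3 = X * (X * X - C (22 / 25)) := by
  have h4 : X * P 2 = C (1 / 5) * P 3 + C (4 / 5) * P 1 := by
    rw [X_mul_P, a_two, c_two]
  have h6 : P 1 = X := rfl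
  rw [h6] at h4
  have h7 := P_two_eq
  have e3 : (C (3 / 25) : ℝ[X]) = C (3 / 5) * C (1 / 5) := by
    rw [← C_mul]; exact C_eq (by norm_num)
  have e4 : (C (22 / 25) : ℝ[X]) = C (2 / 5) + C (3 / 5) * C (4 / 5) := by
    rw [← C_mul, ← C_add]; exact C_eq (by norm_num)
  rw [e3, e4]
  linear_combination (-C (3 / 5)) * h4 + X * h7

lemma P_four_eq : C (49 / 250) * P 4 = (X * X - C (121 / 250)) * P 2 - C (8 / 25) := by
  have h1 : X * P 3 = C (49 / 50) * P 4 + C (1 / 50) * P 2 := by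
    rw [X_mul_P, a_odd (by omega) (by omega), c_odd (by omega) (by omega)]
  have h4 : X * P 2 = C (1 / 5) * P 3 + C (4 / 5) * P 1 := by
    rw [X_mul_P, a_two, c_two]
  have h3 : X * P 1 = C (3 / 5) * P 2 + C (2 / 5) * P 0 := by
    rw [X_mul_P, a_one, c_one]
  have h5 : P 0 = 1 := rfl
  rw [h5] at h3
  have g1 : (C (49 / 250) : ℝ[X]) = C (1 / 5) * C (49 / 50) := by
    rw [← C_mul]; exact C_eq (by norm_num)
  have g2 : (C (121 / 250) : ℝ[X]) = C (1 / 5) * C (1 / 50) + C (4 / 5) * C (3 / 5) := by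
    rw [← C_mul, ← C_mul, ← C_add]; exact C_eq (by norm_num)
  have g3 : (C (8 / 25) : ℝ[X]) = C (4 / 5) * C (2 / 5) := by
    rw [← C_mul]; exact C_eq (by norm_num)
  rw [g1, g2, g3]
  linear_combination (-C (1 / 5)) * h1 - X * h4 - C (4 / 5) * h3

lemma P_five_eq : C (49 / 500) * P 5 = (X * X - C (443 / 500)) * P 3 - C (2 / 125) * P 1 := by
  have h1 : X * P 4 = C (1 / 10) * P 5 + C (9 / 10) * P 3 := by
    rw [X_mul_P, a_even (by omega) (by omega), c_even (by omega) (by omega)]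
  have h2 : X * P 3 = C (49 / 50) * P 4 + C (1 / 50) * P 2 := by
    rw [X_mul_P, a_odd (by omega) (by omega), c_odd (by omega) (by omega)]
  have h4 : X * P 2 = C (1 / 5) * P 3 + C (4 / 5) * P 1 := by
    rw [X_mul_P, a_two, c_two]
  have g1 : (C (49 / 500) : ℝ[X]) = C (49 / 50) * C (1 / 10) := by
    rw [← C_mul]; exact C_eq (by norm_num)
  have g2 : (C (443 / 500) : ℝ[X]) = C (49 / 50) * C (9 / 10) + C (1 / 50) * C (1 / 5) := by
    rw [← C_mul, ← C_mul, ← C_add]; exact C_eq (by norm_num)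
  have g3 : (C (2 / 125) : ℝ[X]) = C (1 / 50) * C (4 / 5) := by
    rw [← C_mul]; exact C_eq (by norm_num)
  rw [g1, g2, g3]
  linear_combination (-C (49 / 50)) * h1 - X * h2 - C (1 / 50) * h4

lemma P_two_mul (s : ℕ) : P 2 * hP (s + 2) = F e1 s := by
  have h := P_two_eq
  have hx := XX_mul_hP s
  have hne : (C (3 / 5) : ℝ[X]) ≠ 0 := by
    rw [Ne, C_eq_zero]; norm_num
  apply mul_left_cancel₀ hne
  have e : C (3 / 5) * (P 2 * hP (s + 2)) = X * (X * hP (s + 2)) - C (2 / 5) * hP (s + 2) := by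
    linear_combination (hP (s + 2)) * h
  have f : F e1 s = C (3 / 100) * hP s + (C (121 / 150) * hP (s + 2) +
      C (49 / 300) * hP (s + 4)) := by
    rw [e1, F_add, F_X_mul, F_add, F_X_mul, F_C, F_C, F_C]
  rw [e, f, hx]
  simp only [← smul_eq_C_mul]
  module

lemma P_four_mul (s : ℕ) : P 4 * hP (s + 4) = F e2 s := by
  have h := P_four_eq
  have h2 := P_two_mul (s + 2)
  have hx := F_rel e1 s
  have hne : (C (49 / 250) : ℝ[X]) ≠ 0 := by
    rw [Ne, C_eq_zero]; norm_num
  apply mul_left_cancel₀ hne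
  have e : C (49 / 250) * (P 4 * hP (s + 4)) = X * (X * F e1 (s + 2)) -
      C (121 / 250) * F e1 (s + 2) - C (8 / 25) * hP (s + 4) := by
    linear_combination (hP (s + 4)) * h + (X * X - C (121 / 250)) * h2
  have f (s : ℕ) : F e1 s = C (3 / 100) * hP s + (C (121 / 150) * hP (s + 2) +
      C (49 / 300) * hP (s + 4)) := by
    rw [e1, F_add, F_X_mul, F_add, F_X_mul, F_C, F_C, F_C]
  have f2 : F e2 s = C (27 / 9800) * hP s + (C (663 / 4900) * hP (s + 2) +
      (C (641 / 14700) * hP (s + 4) + (C (221 / 300) * hP (s + 6) +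
      C (49 / 600) * hP (s + 8)))) := by
    rw [e2, F_add, F_X_mul, F_add, F_X_mul, F_add, F_X_mul, F_add, F_X_mul, F_C, F_C, F_C, F_C,
      F_C]
  rw [e, hx, f, f, f, f2]
  simp only [← smul_eq_C_mul]
  module

/-! ### The odd case -/

noncomputable def o1 : ℝ[X] := C (3 / 20) + X * (C (1 / 30) + X * C (49 / 60))
noncomputable def o2 : ℝ[X] := C (27 / 980) + X * (C (3 / 980) + X * (C (20 / 147) +
  X * (C (1 / 60) + X * C (49 / 60))))

lemma P_three_mul (s : ℕ) : P 3 * hP (s + 2) = X * F o1 s := by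
  have h := P_three_eq
  have hx := XX_mul_hP s
  have hne : (C (3 / 25) : ℝ[X]) ≠ 0 := by
    rw [Ne, C_eq_zero]; norm_num
  apply mul_left_cancel₀ hne
  have e : C (3 / 25) * (P 3 * hP (s + 2)) = X * (X * (X * hP (s + 2)) -
      C (22 / 25) * hP (s + 2)) := by
    linear_combination (hP (s + 2)) * h
  have f : F o1 s = C (3 / 20) * hP s + (C (1 / 30) * hP (s + 2) +
      C (49 / 60) * hP (s + 4)) := by
    rw [o1, F_add, F_X_mul, F_add, F_X_mul, F_C, F_C, F_C]
  rw [e, mul_left_comm (C (3 / 25))]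
  congr 1
  rw [f, hx]
  simp only [← smul_eq_C_mul]
  module

lemma P_five_mul (s : ℕ) : P 5 * hP (s + 4) = X * F o2 s := by
  have h := P_five_eq
  have h2 := P_three_mul (s + 2)
  have hx := F_rel o1 s
  have hne : (C (49 / 500) : ℝ[X]) ≠ 0 := by
    rw [Ne, C_eq_zero]; norm_num
  apply mul_left_cancel₀ hne
  have h1 : P 1 = X := rfl
  rw [h1] at h
  have e : C (49 / 500) * (P 5 * hP (s + 4)) = X * (X * (X * F o1 (s + 2)) -
      C (443 / 500) * F o1 (s + 2) - C (2 / 125) * hP (s + 4)) := by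
    linear_combination (hP (s + 4)) * h + (X * X - C (443 / 500)) * h2
  have f (s : ℕ) : F o1 s = C (3 / 20) * hP s + (C (1 / 30) * hP (s + 2) +
      C (49 / 60) * hP (s + 4)) := by
    rw [o1, F_add, F_X_mul, F_add, F_X_mul, F_C, F_C, F_C]
  have f2 : F o2 s = C (27 / 980) * hP s + (C (3 / 980) * hP (s + 2) +
      (C (20 / 147) * hP (s + 4) + (C (1 / 60) * hP (s + 6) +
      C (49 / 60) * hP (s + 8)))) := by
    rw [o2, F_add, F_X_mul, F_add, F_X_mul, F_add, F_X_mul, F_add, F_X_mul, F_C, F_C, F_C, F_C,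
      F_C]
  rw [e, mul_left_comm (C (49 / 500))]
  congr 1
  rw [hx, f, f, f, f2]
  simp only [← smul_eq_C_mul]
  module

/-! ### All products -/

lemma even_mul (k s : ℕ) : P (2 * k + 2) * hP (s + (2 * k + 2)) = F (R e1 e2 k) s := by
  have h := (R_step (Q := fun k => P (2 * k + 2)) (Y := 1) (u := e1) (v := e2)
    (fun s => by rw [one_mul]; exact P_two_mul s) (fun s => by rw [one_mul]; exact P_four_mul s)
    (fun k => XX_mul_P (n := 2 * k + 4) (by omega)) k).1 s
  rw [one_mul] at h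
  exact h

lemma odd_mul (k s : ℕ) : P (2 * k + 3) * hP (s + (2 * k + 2)) = X * F (R o1 o2 k) s :=
  (R_step (Q := fun k => P (2 * k + 3)) (Y := X) (u := o1) (v := o2)
    (fun s => P_three_mul s) (fun s => P_five_mul s)
    (fun k => XX_mul_P (n := 2 * k + 5) (by omega)) k).1 s

lemma Nn_e1 : Nn e1 :=
  (Nn_C (by norm_num)).add (Nn_X.mul ((Nn_C (by norm_num)).add (Nn_X.mul (Nn_C (by norm_num)))))
lemma Nn_o1 : Nn o1 :=
  (Nn_C (by norm_num)).add (Nn_X.mul ((Nn_C (by norm_num)).add (Nn_X.mul (Nn_C (by norm_num)))))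

lemma Nn_even (k : ℕ) : Nn (R e1 e2 k) := by
  refine Nn_R (α := C (6 / 2401) + X * (C (6 / 49) + X * (C (841 / 29400) +
    X * (C (221 / 300) + X * C (49 / 600))))) (τ := C (9 / 49) * (C (6 / 2401) + X * C (6 / 49)))
    Nn_e1 ⟨C (123 / 480200) + X * (C (9 / 700) + X * C (3 / 200)), ?_, ?_⟩ ?_ ?_ ?_ k
  · exact (Nn_C (by norm_num)).add (Nn_X.mul ((Nn_C (by norm_num)).add
      (Nn_X.mul (Nn_C (by norm_num)))))
  · rw [e2]
    apply Polynomial.funext
    intro x
    simp only [eval_add, eval_mul, eval_C, eval_X]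
    ring
  · exact (Nn_C (by norm_num)).mul ((Nn_C (by norm_num)).add (Nn_X.mul (Nn_C (by norm_num))))
  · exact (Nn_C (by norm_num)).add (Nn_X.mul ((Nn_C (by norm_num)).add
      (Nn_X.mul ((Nn_C (by norm_num)).add (Nn_X.mul ((Nn_C (by norm_num)).add
      (Nn_X.mul (Nn_C (by norm_num)))))))))
  · rw [e1, e2]
    apply Polynomial.funext
    intro x
    simp only [eval_add, eval_sub, eval_pow, eval_mul, eval_C, eval_X]
    ring

lemma Nn_odd (k : ℕ) : Nn (R o1 o2 k) := by
  refine Nn_R (α := C (60 / 2401) + X * (X * (C (20 / 147) +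
    X * (C (1 / 60) + X * C (49 / 60))))) (τ := C (9 / 49) * C (60 / 2401))
    Nn_o1 ⟨C (123 / 48020) + X * C (3 / 980), ?_, ?_⟩ ?_ ?_ ?_ k
  · exact (Nn_C (by norm_num)).add (Nn_X.mul (Nn_C (by norm_num)))
  · rw [o2]
    apply Polynomial.funext
    intro x
    simp only [eval_add, eval_mul, eval_C, eval_X]
    ring
  · exact (Nn_C (by norm_num)).mul (Nn_C (by norm_num))
  · exact (Nn_C (by norm_num)).add (Nn_X.mul (Nn_X.mul ((Nn_C (by norm_num)).add
      (Nn_X.mul ((Nn_C (by norm_num)).add (Nn_X.mul (Nn_C (by norm_num))))))))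
  · rw [o1, o2]
    apply Polynomial.funext
    intro x
    simp only [eval_add, eval_sub, eval_pow, eval_mul, eval_C, eval_X]
    ring

lemma e1_coeff : e1.coeff 0 = 3 / 100 ∧ e1.coeff 1 = 121 / 150 := by
  refine ⟨?_, ?_⟩ <;> simp [e1, coeff_X_mul, coeff_C]

lemma e2_coeff : e2.coeff 0 = 27 / 9800 ∧ e2.coeff 1 = 663 / 4900 := by
  refine ⟨?_, ?_⟩ <;> simp [e2, coeff_X_mul, coeff_C]

lemma even_coeff (k : ℕ) :
    200 * (R e1 e2 (k + 1)).coeff 0 ≤ 9 * (R e1 e2 (k + 1)).coeff 1 := by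
  induction k with
  | zero =>
    show 200 * e2.coeff 0 ≤ 9 * e2.coeff 1
    rw [e2_coeff.1, e2_coeff.2]
    norm_num
  | succ k ih =>
    rw [R_diff e1 e2 (k + 1), coeff_add, coeff_add, coeff_C_mul, coeff_C_mul,
      show 2 * (k + 1) = 2 * k + 1 + 1 by ring, pow_succ' (X : ℝ[X]) (2 * k + 1),
      pow_succ' (X : ℝ[X]) (2 * k), mul_assoc, mul_assoc, coeff_X_mul_zero, coeff_X_mul,
      coeff_X_mul_zero]
    linarith

lemma P_mul_mem {m n : ℕ} (h : m ≤ n) : P m * P n ∈ Cone := by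
  rcases Nat.even_or_odd m with hm | hm
  · obtain ⟨j, hj⟩ := hm
    rcases j with _ | k
    · obtain rfl : m = 0 := by omega
      have : P 0 = 1 := rfl
      rw [this, one_mul]
      exact P_mem n
    · obtain rfl : m = 2 * k + 2 := by omega
      obtain ⟨s, rfl⟩ : ∃ s, n = s + (2 * k + 2) := ⟨n - (2 * k + 2), by omega⟩
      rw [← hP_eq (n := s + (2 * k + 2)) (by omega), even_mul]
      rcases Nat.eq_zero_or_pos s with h0 | h0
      · subst h0
        refine F_zero_mem (Nn_even k) ?_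
        rcases k with _ | k
        · show 200 * e1.coeff 0 ≤ 9 * e1.coeff 1
          rw [e1_coeff.1, e1_coeff.2]
          norm_num
        · exact even_coeff k
      · exact F_mem (Nn_even k) h0
  · obtain ⟨j, hj⟩ := hm
    rcases j with _ | k
    · obtain rfl : m = 1 := by omega
      have : P 1 = X := rfl
      rw [this]
      exact X_mul_mem (P_mem n)
    · obtain rfl : m = 2 * k + 3 := by omega
      obtain ⟨s, rfl⟩ : ∃ s, n = s + (2 * k + 2) := ⟨n - (2 * k + 2), by omega⟩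
      rw [← hP_eq (n := s + (2 * k + 2)) (by omega), odd_mul]
      exact X_mul_mem (F_mem (Nn_odd k) (by omega))

lemma natDegree_P (n : ℕ) : (P n).natDegree = n ∧ 0 < (P n).leadingCoeff := by
  have key : ∀ n, ((P n).natDegree = n ∧ 0 < (P n).leadingCoeff) ∧
      ((P (n + 1)).natDegree = n + 1 ∧ 0 < (P (n + 1)).leadingCoeff) := by
    intro n
    induction n with
    | zero =>
      refine ⟨⟨natDegree_one, ?_⟩, natDegree_X, ?_⟩
      · show 0 < (1 : ℝ[X]).leadingCoeff
        rw [leadingCoeff_one]; norm_num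
      · show 0 < (X : ℝ[X]).leadingCoeff
        rw [leadingCoeff_X]; norm_num
    | succ n ih =>
      refine ⟨ih.2, ?_⟩
      obtain ⟨⟨d0, l0⟩, d1, l1⟩ := ih
      have hne : P (n + 1) ≠ 0 := leadingCoeff_ne_zero.1 l1.ne'
      have hd : (X * P (n + 1)).natDegree = n + 2 := by
        rw [natDegree_X_mul hne, d1]
      have hd2 : (C (c (n + 1)) * P n).natDegree < (X * P (n + 1)).natDegree := by
        rw [hd]
        exact lt_of_le_of_lt (natDegree_C_mul_le _ _) (by omega)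
      have hs : (X * P (n + 1) - C (c (n + 1)) * P n).natDegree = n + 2 := by
        rw [natDegree_sub_eq_left_of_natDegree_lt hd2, hd]
      have hl : (X * P (n + 1) - C (c (n + 1)) * P n).leadingCoeff =
          (P (n + 1)).leadingCoeff := by
        rw [leadingCoeff, hs, coeff_sub, coeff_eq_zero_of_natDegree_lt
          (lt_of_lt_of_eq hd2 hd), sub_zero, coeff_X_mul, leadingCoeff, d1]
      have ha : (1 / a (n + 1) : ℝ) ≠ 0 := (one_div_pos.2 (a_pos _)).ne'
      refine ⟨?_, ?_⟩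
      · show (C (1 / a (n + 1)) * (X * P (n + 1) - C (c (n + 1)) * P n)).natDegree = _
        rw [natDegree_C_mul ha, hs]
      · show 0 < (C (1 / a (n + 1)) * (X * P (n + 1) - C (c (n + 1)) * P n)).leadingCoeff
        rw [leadingCoeff_mul, leadingCoeff_C, hl]
        exact mul_pos (one_div_pos.2 (a_pos _)) l1
  exact (key n).1

lemma cone_fin {f : ℝ[X]} (hf : f ∈ Cone) :
    ∃ (K : ℕ) (g : ℕ → ℝ), (∀ k, 0 ≤ g k) ∧ f = ∑ k ∈ range K, C (g k) * P k := by
  obtain ⟨u, hu⟩ := Finsupp.mem_span_range_iff_exists_finsupp.1 hf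
  refine ⟨u.support.sup id + 1, fun k => (u k : ℝ), fun k => (u k).2, ?_⟩
  rw [← hu, Finsupp.sum]
  have e : ∀ k, u k • P k = C (u k : ℝ) * P k := fun k => by
    rw [← smul_eq_C_mul]; rfl
  rw [sum_congr rfl fun k _ => e k]
  refine sum_subset (fun k hk => ?_) fun k _ hk => ?_
  · exact mem_range.2 (Nat.lt_succ_of_le (le_sup (f := id) hk))
  · rw [Finsupp.notMem_support_iff.1 hk]
    simp

lemma cone_bound {f : ℝ[X]} (hf : f ∈ Cone) {N : ℕ} (hN : f.natDegree ≤ N) :
    ∃ g : ℕ → ℝ, (∀ k, 0 ≤ g k) ∧ f = ∑ k ∈ range (N + 1), C (g k) * P k := by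
  obtain ⟨K, g, hg, hs⟩ := cone_fin hf
  clear hf
  induction K with
  | zero => exact ⟨fun _ => 0, fun _ => le_rfl, by simpa using hs⟩
  | succ K ih =>
    rcases Nat.lt_or_ge N K with h | h
    · apply ih
      have hz : g K = 0 := by
        have h1 : f.coeff K = 0 := coeff_eq_zero_of_natDegree_lt (lt_of_le_of_lt hN h)
        rw [hs, finsetSum_coeff, sum_range_succ, sum_eq_zero, zero_add, coeff_C_mul] at h1
        · rcases mul_eq_zero.1 h1 with h2 | h2
          · exact h2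
          · exfalso
            have := (natDegree_P K).2
            rw [leadingCoeff, (natDegree_P K).1] at this
            exact this.ne' h2
        · intro k hk
          rw [coeff_C_mul, coeff_eq_zero_of_natDegree_lt, mul_zero]
          rw [(natDegree_P k).1]
          exact mem_range.1 hk
      rw [hs, sum_range_succ, hz, C_0, zero_mul, add_zero]
    · refine ⟨fun k => if k < K + 1 then g k else 0, fun k => ?_, ?_⟩
      · show 0 ≤ if k < K + 1 then g k else 0
        split_ifs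
        · exact hg k
        · exact le_rfl
      · rw [hs]
        rw [← sum_subset (s₁ := range (K + 1)) (s₂ := range (N + 1))
          (range_subset_range.2 (by omega))]
        · refine sum_congr rfl fun k hk => ?_
          beta_reduce
          rw [if_pos (mem_range.1 hk)]
        · intro k _ hk
          beta_reduce
          rw [if_neg (fun h => hk (mem_range.2 h)), C_0, zero_mul]

/-- Nonnegative linearization. -/
theorem linearization (m n : ℕ) :
    ∃ g : ℕ → ℝ, (∀ k, 0 ≤ g k) ∧ P m * P n = ∑ k ∈ range (m + n + 1), C (g k) * P k := by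
  have h : P m * P n ∈ Cone := by
    rcases le_total m n with h | h
    · exact P_mul_mem h
    · rw [mul_comm]; exact P_mul_mem h
  refine cone_bound h ?_
  refine natDegree_mul_le.trans ?_
  rw [(natDegree_P m).1, (natDegree_P n).1]

lemma eval_zero (n : ℕ) : |(P n).eval 0| ≤ 1 ∧ (P (2 * n + 1)).eval 0 = 0 := by
  have hr : ∀ n, (P (n + 2)).eval 0 = -(c (n + 1) / a (n + 1)) * (P n).eval 0 := fun n => by
    show (C (1 / a (n + 1)) * (X * P (n + 1) - C (c (n + 1)) * P n)).eval 0 = _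
    simp only [eval_mul, eval_sub, eval_C, eval_X, zero_mul]
    ring
  have ho : ∀ n, (P (2 * n + 1)).eval 0 = 0 := fun n => by
    induction n with
    | zero => exact eval_X
    | succ n ih =>
      rw [show 2 * (n + 1) + 1 = 2 * n + 1 + 2 by ring, hr, ih, mul_zero]
  have he : ∀ n, |(P (2 * n)).eval 0| ≤ 1 := fun n => by
    induction n with
    | zero =>
      show |(1 : ℝ[X]).eval 0| ≤ 1
      rw [eval_one, abs_one]
    | succ n ih =>
      rw [show 2 * (n + 1) = 2 * n + 2 by ring, hr, abs_mul, abs_neg]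
      have h1 : |c (2 * n + 1) / a (2 * n + 1)| ≤ 1 := by
        rcases n with _ | n
        · show |c 1 / a 1| ≤ 1
          rw [a_one, c_one]
          norm_num
        · rw [a_odd (by omega) (by omega), c_odd (by omega) (by omega)]
          norm_num
      exact mul_le_one₀ h1 (abs_nonneg _) ih
  refine ⟨?_, ho n⟩
  rcases Nat.even_or_odd' n with ⟨k, rfl | rfl⟩
  · exact he k
  · rw [ho k, abs_zero]; norm_num

end Pool.Agent.X94.Hyp
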